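import Pool.Agent.Lib_MP_e09b77_an.Kit

/-!
# Amplification of completely positive maps (piece AMPL)
-/

open scoped CStarAlgebra ComplexOrder

namespace CKE

section

variable {A C : Type*} [CStarAlgebra A] [PartialOrder A] [StarOrderedRing A]
  [CStarAlgebra C] [PartialOrder C] [StarOrderedRing C]

theorem ampl_sum_apply {ι W W' : Type*} {A : Type*} [AddCommMonoid A] (s : Finset ι)
    (f : ι → CStarMatrix W W' A) (μ : W) (ν : W') :
    (∑ i ∈ s, f i) μ ν = ∑ i ∈ s, f i μ ν := by
  classical
  induction s using Finset.induction_on with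
  | empty => simp
  | insert a s ha ih => rw [Finset.sum_insert ha, Finset.sum_insert ha, CStarMatrix.add_apply, ih]

/-- PIECE AMPL. `M_k(M_W(A)) ≅ M_{k × W}(A)` as star algebras. -/
noncomputable def flat (k W : Type*) [Fintype k] [DecidableEq k] [Fintype W] [DecidableEq W]
    (A : Type*) [CStarAlgebra A] [PartialOrder A] [StarOrderedRing A] :
    CStarMatrix k k (CStarMatrix W W A) ≃⋆ₐ[ℂ] CStarMatrix (k × W) (k × W) A where
  toFun X := CStarMatrix.ofMatrix fun p q => X p.1 q.1 p.2 q.2
  invFun Y := CStarMatrix.ofMatrix fun a b => CStarMatrix.ofMatrix fun μ ν => Y (a, μ) (b, ν)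
  left_inv X := rfl
  right_inv Y := rfl
  map_mul' X Y := by
    refine CStarMatrix.ext fun p q => ?_
    change (X * Y) p.1 q.1 p.2 q.2 = _
    rw [CStarMatrix.mul_apply, CStarMatrix.mul_apply, ampl_sum_apply, Fintype.sum_prod_type]
    refine Finset.sum_congr rfl fun c _ => ?_
    rw [CStarMatrix.mul_apply]
    rfl
  map_add' X Y := rfl
  map_star' X := by
    refine CStarMatrix.ext fun p q => ?_
    rfl
  map_smul' c X := rfl

theorem flat_apply {k W : Type*} [Fintype k] [DecidableEq k] [Fintype W] [DecidableEq W]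
    (X : CStarMatrix k k (CStarMatrix W W A)) (a b : k) (μ ν : W) :
    flat k W A X (a, μ) (b, ν) = X a b μ ν := rfl

/-- PIECE AMPL. The amplification `id_W ⊗ Φ : M_W(A) → M_W(C)` of a completely positive map.
Positivity of the `k`-th amplification: transport by `flat` (star isomorphisms preserve and
reflect positivity, `map_nonneg`) to the map `id_{k × W} ⊗ Φ`, which is positive by
`CompletelyPositiveMap.map_cstarMatrix_nonneg`. -/
noncomputable def ampl (W : Type*) [Fintype W] [DecidableEq W] (Φ : A →CP C) :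
    CStarMatrix W W A →CP CStarMatrix W W C where
  toLinearMap := CStarMatrix.mapₗ (Φ : A →ₗ[ℂ] C)
  map_cstarMatrix_nonneg' k M hM := by
    have h1 : 0 ≤ flat (Fin k) W A M := map_nonneg (flat (Fin k) W A) hM
    have h2 := CompletelyPositiveMap.map_cstarMatrix_nonneg Φ _ h1
    have h3 := map_nonneg (flat (Fin k) W C).symm h2
    exact h3

@[simp] theorem ampl_apply (W : Type*) [Fintype W] [DecidableEq W] (Φ : A →CP C)
    (X : CStarMatrix W W A) (μ ν : W) : ampl W Φ X μ ν = Φ (X μ ν) := rfl

end

end CKE
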