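import Pool.Agent.Lib_MP_e09b77_an.Defs

/-!
# Hamming balls (piece BALL)
-/

open scoped CStarAlgebra ComplexOrder

namespace CKE

variable {N : ℕ}

/-- Number of disagreements of two words. -/
def hd {n : ℕ} (μ ν : Fin n → Fin N) : ℕ := (Finset.univ.filter fun k => μ k ≠ ν k).card

private theorem ball_pow {n : ℕ} (l : ℝ) (μ ν : Fin n → Fin N) :
    l ^ (hd ν μ) = ∏ k, (if ν k ≠ μ k then l else 1) := by
  rw [Finset.prod_ite, Finset.prod_const_one, mul_one, Finset.prod_const, hd]

private theorem ball_sum {n : ℕ} (l : ℝ) (μ : Fin n → Fin N) :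
    ∑ ν : Fin n → Fin N, l ^ (hd ν μ) = ∏ k : Fin n, ∑ a : Fin N, (if a ≠ μ k then l else 1) := by
  rw [Finset.prod_univ_sum, Fintype.piFinset_univ]
  exact Finset.sum_congr rfl fun ν _ => ball_pow l μ ν

/-- PIECE BALL. The Hamming ball: for `0 < l ≤ 1`,
`l^D * #{ν | hd ν μ < D} ≤ ∑_ν l^(hd ν μ) = (1 + (N-1) l)^n ≤ (1 + N l)^n`
(`Finset.prod_univ_sum` / `Fintype.piFinset`). -/
theorem ball_card (n D : ℕ) (l : ℝ) (hl0 : 0 < l) (hl1 : l ≤ 1) (μ : Fin n → Fin N) :
    ((Finset.univ.filter (fun ν => hd ν μ < D)).card : ℝ) * l ^ D ≤ (1 + N * l) ^ n := by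
  have h1 : ((Finset.univ.filter (fun ν => hd ν μ < D)).card : ℝ) * l ^ D ≤
      ∑ ν : Fin n → Fin N, l ^ (hd ν μ) := by
    rw [← nsmul_eq_mul, ← Finset.sum_const]
    calc ∑ _ν ∈ Finset.univ.filter (fun ν => hd ν μ < D), l ^ D
        ≤ ∑ ν ∈ Finset.univ.filter (fun ν => hd ν μ < D), l ^ (hd ν μ) := by
          refine Finset.sum_le_sum fun ν hν => ?_
          rw [Finset.mem_filter] at hν
          exact pow_le_pow_of_le_one hl0.le hl1 hν.2.le
      _ ≤ ∑ ν : Fin n → Fin N, l ^ (hd ν μ) :=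
          Finset.sum_le_sum_of_subset_of_nonneg (Finset.filter_subset _ _)
            fun _ _ _ => pow_nonneg hl0.le _
  have h2 : ∏ k : Fin n, ∑ a : Fin N, (if a ≠ μ k then l else 1) ≤ ∏ _k : Fin n, (1 + N * l) := by
    refine Finset.prod_le_prod (fun k _ => ?_) fun k _ => ?_
    · refine Finset.sum_nonneg fun a _ => ?_
      split_ifs <;> linarith
    · calc ∑ a : Fin N, (if a ≠ μ k then l else 1)
          ≤ ∑ a : Fin N, (l + if a = μ k then 1 else 0) := by
            refine Finset.sum_le_sum fun a _ => ?_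
            by_cases h : a = μ k
            · simp [h]; linarith
            · simp [h]
        _ = 1 + N * l := by
            rw [Finset.sum_add_distrib]
            simp
            ring
  calc _ ≤ _ := h1
    _ = _ := ball_sum l μ
    _ ≤ _ := h2
    _ = _ := by rw [Finset.prod_const, Finset.card_univ, Fintype.card_fin]

end CKE
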