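import Pool.Agent.Lib_MP_e09b77_an.Ampl

/-!
# Blockwise compression and dilation (piece COMP)
-/

open scoped CStarAlgebra ComplexOrder

namespace CKE

theorem comp_mul_assoc {a b c d : Type*} [Fintype b] [Fintype c]
    (X : CStarMatrix a b ℂ) (Y : CStarMatrix b c ℂ) (Z : CStarMatrix c d ℂ) :
    (X * Y * Z : CStarMatrix a d ℂ) = X * (Y * Z : CStarMatrix b d ℂ) :=
  Matrix.mul_assoc (CStarMatrix.ofMatrix.symm X) (CStarMatrix.ofMatrix.symm Y)
    (CStarMatrix.ofMatrix.symm Z)

/-- Compression of one block. -/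
noncomputable def comp_block {ι ρ : Type} [Fintype ι] [DecidableEq ι] [Fintype ρ]
    [DecidableEq ρ] (V : CStarMatrix ι ρ ℂ) : CStarMatrix ι ι ℂ →CP CStarMatrix ρ ρ ℂ where
  toFun x := V.conjTranspose * x * V
  map_add' x y := by
    rw [CStarMatrix.mul_add, CStarMatrix.add_mul]
  map_smul' c x := by
    rw [CStarMatrix.mul_smul, CStarMatrix.smul_mul]
    rfl
  map_cstarMatrix_nonneg' k M hM := by
    have h1 : 0 ≤ flat (Fin k) ι ℂ M := map_nonneg (flat (Fin k) ι ℂ) hM
    let D : CStarMatrix (Fin k × ι) (Fin k × ρ) ℂ :=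
      CStarMatrix.ofMatrix fun p q => if p.1 = q.1 then V p.2 q.2 else 0
    have h2 := rect_conj_nonneg D _ h1
    have h3 := map_nonneg (flat (Fin k) ρ ℂ).symm h2
    refine le_of_le_of_eq h3 ?_
    refine CStarMatrix.ext fun a b => CStarMatrix.ext fun μ ν => ?_
    change (D.conjTranspose * flat (Fin k) ι ℂ M * D : CStarMatrix _ _ ℂ) (a, μ) (b, ν)
      = (V.conjTranspose * M a b * V : CStarMatrix _ _ ℂ) μ ν
    rw [CStarMatrix.mul_apply, CStarMatrix.mul_apply, Fintype.sum_prod_type]
    rw [Finset.sum_eq_single b]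
    · refine Finset.sum_congr rfl fun s _ => ?_
      rw [CStarMatrix.mul_apply, CStarMatrix.mul_apply, Fintype.sum_prod_type]
      rw [Finset.sum_eq_single a]
      · congr 1
        · refine Finset.sum_congr rfl fun t _ => ?_
          congr 1
          change star (D (a, t) (a, μ)) = star (V t μ)
          change star (if a = a then V t μ else 0) = _
          rw [if_pos rfl]
        · change (if b = b then V s ν else 0) = _
          rw [if_pos rfl]
      · intro c _ hc
        refine Finset.sum_eq_zero fun t _ => ?_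
        have : D.conjTranspose (a, μ) (c, t) = 0 := by
          change star (if c = a then V t μ else 0) = 0
          rw [if_neg hc, star_zero]
        rw [this, zero_mul]
      · intro h
        exact absurd (Finset.mem_univ _) h
    · intro c _ hc
      refine Finset.sum_eq_zero fun t _ => ?_
      have : D (c, t) (b, ν) = 0 := by
        change (if c = b then V t ν else 0) = 0
        rw [if_neg hc]
      rw [this, mul_zero]
    · intro h
      exact absurd (Finset.mem_univ _) h

/-- Projection to one block. -/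
noncomputable def comp_proj {m : ℕ} (ι : Fin m → Type) [∀ j, Fintype (ι j)]
    [∀ j, DecidableEq (ι j)] (j : Fin m) :
    ((j : Fin m) → CStarMatrix (ι j) (ι j) ℂ) →CP CStarMatrix (ι j) (ι j) ℂ :=
  cpOfHom
    { toFun := fun x => x j
      map_smul' := fun _ _ => rfl
      map_zero' := rfl
      map_add' := fun _ _ => rfl
      map_mul' := fun _ _ => rfl
      map_star' := fun _ => rfl }

/-- PIECE COMP. Blockwise compression `x ↦ (V jᴴ x j V j)`. Completely positive: by `cpPi` and
`cpComp` with the projection to a block it is enough to treat `X ↦ Vᴴ X V`,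
`CStarMatrix ι ι ℂ → CStarMatrix ρ ρ ℂ`; for `M ≥ 0` in `M_k(M_ι(ℂ))`, `flat M ≥ 0` and
`flat (M.map (Vᴴ * · * V)) = Cᴴ * flat M * C` with the rectangular matrix
`C = 1_k ⊗ V : (k × ι) × (k × ρ)`; use `rect_conj_nonneg`. -/
noncomputable def compress {m : ℕ} {ι : Fin m → Type} [∀ j, Fintype (ι j)]
    [∀ j, DecidableEq (ι j)] {r : Fin m → ℕ} (V : ∀ j, CStarMatrix (ι j) (Fin (r j)) ℂ) :
    ((j : Fin m) → CStarMatrix (ι j) (ι j) ℂ) →CP FD r where
  toFun x := fun j => (V j).conjTranspose * x j * V j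
  map_add' x y := by
    funext j
    change (V j).conjTranspose * (x j + y j) * V j = _ + _
    rw [CStarMatrix.mul_add, CStarMatrix.add_mul]
  map_smul' c x := by
    funext j
    change (V j).conjTranspose * (c • x j) * V j = c • _
    rw [CStarMatrix.mul_smul, CStarMatrix.smul_mul]
  map_cstarMatrix_nonneg' k M hM :=
    (cpPi fun j => cpComp (comp_block (V j)) (comp_proj ι j)).map_cstarMatrix_nonneg' k M hM

theorem compress_apply {m : ℕ} {ι : Fin m → Type} [∀ j, Fintype (ι j)]
    [∀ j, DecidableEq (ι j)] {r : Fin m → ℕ} (V : ∀ j, CStarMatrix (ι j) (Fin (r j)) ℂ)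
    (x : (j : Fin m) → CStarMatrix (ι j) (ι j) ℂ) (j : Fin m) :
    compress V x j = (V j).conjTranspose * x j * V j := rfl

theorem comp_dil_mul {ι ρ : Type} [Fintype ι] [DecidableEq ι] [Fintype ρ]
    [DecidableEq ρ] (V : CStarMatrix ι ρ ℂ)
    (hV : (V.conjTranspose * V : CStarMatrix ρ ρ ℂ) = 1) (x y : CStarMatrix ρ ρ ℂ) :
    (V * (x * y) * V.conjTranspose : CStarMatrix ι ι ℂ)
      = (V * x * V.conjTranspose : CStarMatrix ι ι ℂ)
        * (V * y * V.conjTranspose : CStarMatrix ι ι ℂ) := by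
  have h1 : (V.conjTranspose * (V * y * V.conjTranspose : CStarMatrix ι ι ℂ)
      : CStarMatrix ρ ι ℂ) = y * V.conjTranspose := by
    rw [comp_mul_assoc, ← comp_mul_assoc V.conjTranspose V, hV]
    exact Matrix.one_mul (CStarMatrix.ofMatrix.symm (y * V.conjTranspose))
  have h2 : (V * x * V.conjTranspose : CStarMatrix ι ι ℂ)
        * (V * y * V.conjTranspose : CStarMatrix ι ι ℂ)
      = (V * x : CStarMatrix ι ρ ℂ) * (V.conjTranspose * (V * y * V.conjTranspose :
          CStarMatrix ι ι ℂ) : CStarMatrix ρ ι ℂ) := comp_mul_assoc _ _ _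
  rw [h2, h1, ← comp_mul_assoc V x y]
  exact comp_mul_assoc (V * x : CStarMatrix ι ρ ℂ) y V.conjTranspose

theorem comp_dil_star {ι ρ : Type} [Fintype ι] [DecidableEq ι] [Fintype ρ]
    [DecidableEq ρ] (V : CStarMatrix ι ρ ℂ) (x : CStarMatrix ρ ρ ℂ) :
    (V * star x * V.conjTranspose : CStarMatrix ι ι ℂ)
      = star (V * x * V.conjTranspose : CStarMatrix ι ι ℂ) := by
  have key : ∀ (P : Matrix ι ρ ℂ) (Q : Matrix ρ ρ ℂ),
      P * Q.conjTranspose * P.conjTranspose = (P * Q * P.conjTranspose).conjTranspose := by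
    intro P Q
    rw [Matrix.conjTranspose_mul, Matrix.conjTranspose_mul, Matrix.conjTranspose_conjTranspose,
      Matrix.mul_assoc]
  exact key (CStarMatrix.ofMatrix.symm V) (CStarMatrix.ofMatrix.symm x)

/-- PIECE COMP. Blockwise dilation `y ↦ (V j y j V jᴴ)`, a star homomorphism when `V jᴴ V j = 1`. -/
noncomputable def dilate {m : ℕ} {ι : Fin m → Type} [∀ j, Fintype (ι j)]
    [∀ j, DecidableEq (ι j)] {r : Fin m → ℕ} (V : ∀ j, CStarMatrix (ι j) (Fin (r j)) ℂ)
    (hV : ∀ j, ((V j).conjTranspose * V j : CStarMatrix (Fin (r j)) (Fin (r j)) ℂ) = 1) :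
    FD r →⋆ₙₐ[ℂ] ((j : Fin m) → CStarMatrix (ι j) (ι j) ℂ) where
  toFun y := fun j => V j * y j * (V j).conjTranspose
  map_smul' c x := by
    funext j
    change V j * (c • x j) * (V j).conjTranspose = c • _
    rw [CStarMatrix.mul_smul, CStarMatrix.smul_mul]
  map_zero' := by
    funext j
    change V j * (0 : CStarMatrix _ _ ℂ) * (V j).conjTranspose = 0
    rw [CStarMatrix.mul_zero, CStarMatrix.zero_mul]
  map_add' x y := by
    funext j
    change V j * (x j + y j) * (V j).conjTranspose = _ + _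
    rw [CStarMatrix.mul_add, CStarMatrix.add_mul]
  map_mul' x y := by
    funext j
    change V j * (x j * y j) * (V j).conjTranspose
      = (V j * x j * (V j).conjTranspose : CStarMatrix _ _ ℂ)
        * (V j * y j * (V j).conjTranspose : CStarMatrix _ _ ℂ)
    exact comp_dil_mul (V j) (hV j) (x j) (y j)
  map_star' x := by
    funext j
    exact comp_dil_star (V j) (x j)

theorem dilate_apply {m : ℕ} {ι : Fin m → Type} [∀ j, Fintype (ι j)]
    [∀ j, DecidableEq (ι j)] {r : Fin m → ℕ} (V : ∀ j, CStarMatrix (ι j) (Fin (r j)) ℂ)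
    (hV : ∀ j, ((V j).conjTranspose * V j : CStarMatrix (Fin (r j)) (Fin (r j)) ℂ) = 1)
    (y : FD r) (j : Fin m) : dilate V hV y j = V j * y j * (V j).conjTranspose := rfl

end CKE
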