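import Pool.Agent.Lib_MP_e09b77_an.CornerB

/-!
# The corner theorem (piece CORNER)
-/

open scoped CStarAlgebra ComplexOrder

namespace CKE

universe u

variable {B : Type u} [CStarAlgebra B] [PartialOrder B] [StarOrderedRing B]
  {W : Type} [Fintype W] [DecidableEq W]

theorem gam_one_proj (w : W → B) (hw : ∑ μ, w μ * star (w μ) = 1) :
    Gam w hw 1 * Gam w hw 1 = Gam w hw 1 := by
  rw [← map_mul, one_mul]

theorem gam_one_star (w : W → B) (hw : ∑ μ, w μ * star (w μ) = 1) :
    star (Gam w hw 1) = Gam w hw 1 := by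
  rw [← map_star, star_one]

theorem real_smul_le_smul {M : Type*} [CStarAlgebra M] [PartialOrder M] [StarOrderedRing M]
    {a b : M} (h : a ≤ b) {c : ℝ} (hc : 0 ≤ c) : (c : ℂ) • a ≤ (c : ℂ) • b := by
  have h1 : 0 ≤ (c : ℂ) • (b - a) := by
    obtain ⟨r, hr⟩ := CStarAlgebra.nonneg_iff_eq_star_mul_self.mp (sub_nonneg.mpr h)
    have : (c : ℂ) • (b - a) = star ((√c : ℂ) • r) * ((√c : ℂ) • r) := by
      rw [hr, star_smul, smul_mul_smul_comm]
      congr 1
      simp only [RCLike.star_def, Complex.conj_ofReal]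
      rw [← Complex.ofReal_mul, Real.mul_self_sqrt hc]
    rw [this]
    exact star_mul_self_nonneg _
  rw [smul_sub] at h1
  exact sub_nonneg.mp h1

theorem rect_assoc5 {ι : Type} [Fintype ι] [DecidableEq ι] {r : ℕ}
    (V : CStarMatrix ι (Fin r) ℂ) (a : CStarMatrix ι ι ℂ) :
    V * (V.conjTranspose * a * V : CStarMatrix (Fin r) (Fin r) ℂ) * V.conjTranspose
      = (V * V.conjTranspose : CStarMatrix ι ι ℂ) * a * (V * V.conjTranspose) := by
  let V' : Matrix ι (Fin r) ℂ := CStarMatrix.ofMatrix.symm V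
  let a' : Matrix ι ι ℂ := CStarMatrix.ofMatrix.symm a
  let U' : Matrix (Fin r) ι ℂ := CStarMatrix.ofMatrix.symm V.conjTranspose
  have : V' * (U' * a' * V') * U' = V' * U' * a' * (V' * U') := by
    simp only [Matrix.mul_assoc]
  exact this

/-- The estimate that makes the cut possible. -/
theorem phiW_corner_le {d : ℕ} (s : DecSystem B d) (w : W → B)
    (hw : ∑ μ, w μ * star (w μ) = 1) (η κ : ℝ) (hη : 0 < η) (hκ : 0 < κ)
    (hP : ‖(ampl W s.φ) ((ampl W s.ψ) (Gam w hw 1)) - Gam w hw 1‖ ≤ η)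
    (p : (j : Fin s.m) → CStarMatrix (W × Fin (s.n j)) (W × Fin (s.n j)) ℂ)
    (hp : (κ : ℂ) • p ≤ psiW W s (Gam w hw 1)) (i : Fin (d + 1)) :
    (1 - Gam w hw 1) * phiW W s i p * (1 - Gam w hw 1)
      ≤ ((η / κ : ℝ) : ℂ) • (1 : CStarMatrix W W B) := by
  set P := Gam w hw 1 with hPdef
  have hPP : P * P = P := gam_one_proj w hw
  have hPs : star P = P := gam_one_star w hw
  have h1 : phiW W s i ((κ : ℂ) • p) ≤ phiW W s i (psiW W s P) := by
    rw [← sub_nonneg, ← map_sub]
    exact cp_nonneg _ (sub_nonneg.mpr hp)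
  have hA0 : 0 ≤ psiW W s P := by
    apply cp_nonneg
    rw [← hPP]
    nth_rewrite 1 [← hPs]
    exact star_mul_self_nonneg P
  have h2 : phiW W s i (psiW W s P) ≤ ∑ i, phiW W s i (psiW W s P) :=
    Finset.single_le_sum (f := fun i => phiW W s i (psiW W s P))
      (fun i _ => cp_nonneg _ hA0) (Finset.mem_univ i)
  have h3 : ∑ i, phiW W s i (psiW W s P) ≤ P + (η : ℂ) • (1 : CStarMatrix W W B) := by
    rw [sum_phiW_psiW]
    have hsa : IsSelfAdjoint ((ampl W s.φ) ((ampl W s.ψ) P) - P) := by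
      rw [IsSelfAdjoint, star_sub, ← cp_star, ← cp_star, hPs]
    have h4 := hsa.le_algebraMap_norm_self
    have h5 : algebraMap ℝ (CStarMatrix W W B) ‖(ampl W s.φ) ((ampl W s.ψ) P) - P‖
        ≤ (η : ℂ) • (1 : CStarMatrix W W B) := by
      have : algebraMap ℝ (CStarMatrix W W B) ‖(ampl W s.φ) ((ampl W s.ψ) P) - P‖
          = ((‖(ampl W s.φ) ((ampl W s.ψ) P) - P‖ : ℝ) : ℂ) • (1 : CStarMatrix W W B) := by
        rw [Algebra.algebraMap_eq_smul_one, Complex.coe_smul]
        rfl
      rw [this, ← sub_nonneg, ← sub_smul, ← Complex.ofReal_sub]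
      have h6 := real_smul_le_smul (zero_le_one (α := CStarMatrix W W B)) (sub_nonneg.mpr hP)
      simpa using h6
    have h7 := h4.trans h5
    rw [sub_le_iff_le_add] at h7
    rwa [add_comm] at h7
  have h4 : (κ : ℂ) • phiW W s i p ≤ P + (η : ℂ) • (1 : CStarMatrix W W B) := by
    rw [← map_smul]
    exact (h1.trans h2).trans h3
  have h5 : phiW W s i p ≤ ((κ⁻¹ : ℝ) : ℂ) • (P + (η : ℂ) • (1 : CStarMatrix W W B)) := by
    have := real_smul_le_smul h4 (inv_nonneg.mpr hκ.le)
    rw [smul_smul, ← Complex.ofReal_mul, inv_mul_cancel₀ hκ.ne'] at this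
    simpa using this
  have hq : star (1 - P) = 1 - P := by simp [hPs]
  have h6 : (1 - P) * phiW W s i p * (1 - P)
      ≤ (1 - P) * (((κ⁻¹ : ℝ) : ℂ) • (P + (η : ℂ) • (1 : CStarMatrix W W B))) * (1 - P) := by
    have := star_left_conjugate_le_conjugate h5 (1 - P)
    rwa [hq] at this
  have h7 : (1 - P) * (((κ⁻¹ : ℝ) : ℂ) • (P + (η : ℂ) • (1 : CStarMatrix W W B))) * (1 - P)
      = ((η / κ : ℝ) : ℂ) • (1 - P) := by
    have e1 : (1 - P) * P = 0 := by rw [sub_mul, one_mul, hPP, sub_self]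
    have e2 : (1 - P) * (1 - P) = 1 - P := by rw [mul_sub, mul_one, e1, sub_zero]
    rw [mul_smul_comm, mul_add, e1, zero_add, mul_smul_comm, mul_one, smul_mul_assoc,
      smul_mul_assoc, e2, smul_smul]
    congr 1
    push_cast
    field_simp
  rw [h7] at h6
  refine h6.trans (real_smul_le_smul ?_ (div_nonneg hη.le hκ.le))
  have : 0 ≤ P := by
    rw [← hPP]
    nth_rewrite 1 [← hPs]
    exact star_mul_self_nonneg P
  simpa using this

theorem corner_sum_eq {d : ℕ} (s : DecSystem B d) (w : W → B)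
    (hw : ∑ μ, w μ * star (w μ) = 1) (b : B) :
    ∑ μ, ∑ ν, w μ * s.φ (s.ψ (star (w μ) * b * w ν)) * star (w ν)
      = ∑ i, Lam w (phiW W s i (psiW W s (Gam w hw b))) := by
  rw [← map_sum, sum_phiW_psiW, Lam_apply]
  rfl

/-- `‖∑ w μ φψ(w μ* b w ν) w ν*‖ ≤ (d + 1) ‖b‖`. -/
theorem corner_bound {d : ℕ} (s : DecSystem B d) (w : W → B) (hw : ∑ μ, w μ * star (w μ) = 1)
    (b : B) :
    ‖∑ μ, ∑ ν, w μ * s.φ (s.ψ (star (w μ) * b * w ν)) * star (w ν)‖ ≤ (d + 1) * ‖b‖ := by
  rw [corner_sum_eq s w hw]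
  calc _ ≤ ∑ i, ‖Lam w (phiW W s i (psiW W s (Gam w hw b)))‖ := norm_sum_le _ _
    _ ≤ ∑ _i : Fin (d + 1), ‖b‖ := by
        apply Finset.sum_le_sum
        intro i _
        calc _ ≤ ‖phiW W s i (psiW W s (Gam w hw b))‖ := lam_norm w hw _
          _ ≤ ‖psiW W s (Gam w hw b)‖ := phiW_norm s i _
          _ ≤ ‖Gam w hw b‖ := psiW_norm s _
          _ ≤ ‖b‖ := NonUnitalStarAlgHom.norm_apply_le (Gam w hw) b
    _ = (d + 1) * ‖b‖ := by simp

/-- Amplify a system by `W`, cut it into the corner of `M_W(B)` given by `Γ(1)` and pull it back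
to `B`. -/
theorem corner {d : ℕ} (s : DecSystem B d) (w : W → B) (hw : ∑ μ, w μ * star (w μ) = 1)
    (η : ℝ) (hη : 0 < η) (hη1 : η ≤ 1)
    (hP : ‖(ampl W s.φ) ((ampl W s.ψ) (Gam w hw 1)) - Gam w hw 1‖ ≤ η) :
    ∃ t : DecSystem B d, t.rank ≤ Fintype.card W * s.rank ∧
      ∀ b, ‖t.φ (t.ψ b) - ∑ μ, ∑ ν, w μ * s.φ (s.ψ (star (w μ) * b * w ν)) * star (w ν)‖
        ≤ 44 * (d + 1) * √(√η) * ‖b‖ := by
  set κ : ℝ := √η with hκdef
  have hκ : 0 < κ := Real.sqrt_pos.mpr hη
  have hκ1 : κ ≤ 1 := by rw [hκdef]; exact Real.sqrt_le_one.mpr hη1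
  have hηκ : η / κ = κ := by
    rw [div_eq_iff hκ.ne', hκdef, Real.mul_self_sqrt hη.le]
  set P := Gam w hw 1 with hPdef
  have hPP : P * P = P := gam_one_proj w hw
  have hPs : star P = P := gam_one_star w hw
  have hP0 : 0 ≤ P := by
    rw [← hPP]
    nth_rewrite 1 [← hPs]
    exact star_mul_self_nonneg P
  have hA0 : 0 ≤ psiW W s P := cp_nonneg _ hP0
  have hex := fun j => exists_compress (psiW W s P j) (hA0 j) κ hκ
  choose r V hr hV hle hcut using hex
  set dil := dilate V hV with hdil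
  set p : (j : Fin s.m) → CStarMatrix (W × Fin (s.n j)) (W × Fin (s.n j)) ℂ := dil 1 with hp
  have hpj : ∀ j, p j = V j * (V j).conjTranspose := by
    intro j
    rw [hp, hdil, dilate_apply]
    have : (1 : FD r) j = 1 := rfl
    rw [this]
    have h1 : V j * (1 : CStarMatrix (Fin (r j)) (Fin (r j)) ℂ) = V j :=
      Matrix.mul_one (CStarMatrix.ofMatrix.symm (V j))
    rw [h1]
  have hp_le : (κ : ℂ) • p ≤ psiW W s P := by
    intro j
    rw [Pi.smul_apply, hpj]
    exact hle j
  have hpp : p * p = p := by rw [hp, ← map_mul, one_mul]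
  have hps : star p = p := by rw [hp, ← map_star, star_one]
  have hdc : ∀ a, dil (compress V a) = p * a * p := by
    intro a
    funext j
    rw [hdil, dilate_apply, compress_apply, Pi.mul_apply, Pi.mul_apply, hpj]
    exact rect_assoc5 (V j) (a j)
  -- the maps of the new system
  let φt : Fin (d + 1) → (FD r →CP CStarMatrix W W B) := fun i =>
    cpComp (phiW W s i) (cpOfHom dil)
  have hφt : ∀ i x, φt i x = phiW W s i (dil x) := fun i x => rfl
  have hφtoz : ∀ i, OrderZero (φt i) := by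
    intro i x y hx hy hxy
    rw [hφt, hφt]
    apply phiW_orderZero s i
    · exact cp_nonneg (cpOfHom dil) hx
    · exact cp_nonneg (cpOfHom dil) hy
    · rw [← map_mul, hxy, map_zero]
  have hφtn : ∀ i, ‖φt i 1‖ ≤ 1 := by
    intro i
    rw [hφt]
    calc _ ≤ ‖dil 1‖ := phiW_norm s i _
      _ ≤ ‖(1 : FD r)‖ := NonUnitalStarAlgHom.norm_apply_le dil 1
      _ ≤ 1 := one_norm_le
  have hφtc : ∀ i, (1 - P) * φt i 1 * (1 - P) ≤ (κ : ℂ) • (1 : CStarMatrix W W B) := by
    intro i
    have h1 := phiW_corner_le s w hw η κ hη hκ hP p hp_le i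
    rw [hηκ] at h1
    exact h1
  have hcutex := fun i => cut (spanProj_FD r) (φt i) (hφtoz i) (hφtn i) P hPP hPs κ hκ hκ1
    (hφtc i)
  choose φ' hoz hcon hPl hPr hzero hclose using hcutex
  let ψn : B →CP FD r := cpComp (compress V) (cpComp (psiW W s) (cpOfHom (Gam w hw)))
  have hψn : ∀ b, ψn b = compress V (psiW W s (Gam w hw b)) := fun b => rfl
  have hcn : ∀ a, ‖compress V a‖ ≤ ‖a‖ := by
    apply cp_norm_le
    have : compress V 1 = 1 := by
      funext j
      rw [compress_apply]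
      have h1 : (1 : (j : Fin s.m) → CStarMatrix (W × Fin (s.n j)) (W × Fin (s.n j)) ℂ) j = 1 :=
        rfl
      rw [h1]
      have h2 : (V j).conjTranspose * (1 : CStarMatrix (W × Fin (s.n j)) (W × Fin (s.n j)) ℂ)
          = (V j).conjTranspose := by
        exact Matrix.mul_one (CStarMatrix.ofMatrix.symm (V j).conjTranspose)
      rw [h2]
      exact hV j
    rw [this]
    exact one_norm_le
  let φn : FD r →CP B := cpSum Finset.univ fun i => cpComp (Lam w) (φ' i)
  have hφn : ∀ x, φn x = ∑ i, Lam w (φ' i x) := by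
    intro x
    rw [cpSum_apply]
    rfl
  have hcol : ∀ i x, OfColour s.κ i x → φn x = Lam w (φ' i x) := by
    intro i x hx
    rw [hφn, Finset.sum_eq_single i]
    · intro i' _ hi'
      rw [hzero i' x, map_zero]
      rw [hφt]
      apply phiW_eq_zero
      intro j hj
      rw [hdil, dilate_apply, hx j (by rw [hj]; exact hi'), CStarMatrix.mul_zero,
        CStarMatrix.zero_mul]
    · intro h
      exact absurd (Finset.mem_univ i) h
  have hmul : ∀ i x y, φ' i x * φ' i y = 0 → Lam w (φ' i x) * Lam w (φ' i y) = 0 := by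
    intro i x y hxy
    rw [lam_mul w hw, ← hPdef, hPr i x, hxy, map_zero]
  let t : DecSystem B d :=
    { m := s.m
      n := r
      κ := s.κ
      ψ := ψn
      φ := φn
      ψ_contractive := by
        intro b
        rw [hψn]
        calc _ ≤ _ := hcn _
          _ ≤ _ := psiW_norm s _
          _ ≤ _ := NonUnitalStarAlgHom.norm_apply_le (Gam w hw) b
      φ_contractive := by
        intro i x hx
        rw [hcol i x hx]
        exact (lam_norm w hw _).trans (hcon i x)
      φ_orderZero := by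
        intro i x y hx hy hx0 hy0 hxy
        rw [hcol i x hx, hcol i y hy]
        exact hmul i x y (hoz i x y hx0 hy0 hxy) }
  refine ⟨t, ?_, ?_⟩
  · show ∑ j, r j ≤ Fintype.card W * ∑ j, s.n j
    rw [Finset.mul_sum]
    apply Finset.sum_le_sum
    intro j _
    have := hr j
    rwa [Fintype.card_prod, Fintype.card_fin] at this
  · -- the error
    have herr : ∀ b : B, 0 ≤ b → ‖φn (ψn b) - ∑ i, Lam w (phiW W s i (psiW W s (Gam w hw b)))‖
        ≤ 11 * (d + 1) * √κ * ‖b‖ := by
      intro b hb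
      rw [hφn, ← Finset.sum_sub_distrib]
      set a := psiW W s (Gam w hw b) with ha
      have ha0 : 0 ≤ a := cp_nonneg _ (cp_nonneg (cpOfHom (Gam w hw)) hb)
      have han : ‖a‖ ≤ ‖b‖ :=
        (psiW_norm s _).trans (NonUnitalStarAlgHom.norm_apply_le (Gam w hw) b)
      have hale : a ≤ (‖b‖ : ℂ) • psiW W s P := by
        rw [ha, hPdef, ← map_smul, ← map_smul]
        have h1 : b ≤ (‖b‖ : ℂ) • (1 : B) := by
          have := (IsSelfAdjoint.of_nonneg hb).le_algebraMap_norm_self
          rwa [Algebra.algebraMap_eq_smul_one, ← Complex.coe_smul] at this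
        have h2 : 0 ≤ (cpComp (psiW W s) (cpOfHom (Gam w hw))) ((‖b‖ : ℂ) • (1 : B) - b) :=
          cp_nonneg _ (sub_nonneg.mpr h1)
        rw [map_sub] at h2
        exact sub_nonneg.mp h2
      have hq : star (1 - p) = 1 - p := by simp [hps]
      have hqa : (1 - p) * a * (1 - p) ≤ ((‖b‖ * κ : ℝ) : ℂ) •
          (1 : (j : Fin s.m) → CStarMatrix (W × Fin (s.n j)) (W × Fin (s.n j)) ℂ) := by
        have h1 : (1 - p) * a * (1 - p) ≤ (1 - p) * ((‖b‖ : ℂ) • psiW W s P) * (1 - p) := by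
          have := star_left_conjugate_le_conjugate hale (1 - p)
          rwa [hq] at this
        have h2 : (1 - p) * psiW W s P * (1 - p) ≤ (κ : ℂ) •
            (1 : (j : Fin s.m) → CStarMatrix (W × Fin (s.n j)) (W × Fin (s.n j)) ℂ) := by
          intro j
          have h3 := hcut j
          rw [← hpj] at h3
          exact h3
        have h4 := real_smul_le_smul h2 (norm_nonneg b)
        rw [smul_smul, ← Complex.ofReal_mul] at h4
        refine h1.trans ?_
        rw [mul_smul_comm, smul_mul_assoc]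
        exact h4
      have hdist : ‖a - p * a * p‖ ≤ 2 * √κ * ‖b‖ := by
        have h1 := norm_sub_compress_le a p ha0 hpp hps (‖b‖ * κ) ‖b‖ (by positivity) han hqa
        calc _ ≤ _ := h1
          _ = 2 * √κ * ‖b‖ := by
              rw [← Real.sqrt_mul (by positivity), show ‖b‖ * κ * ‖b‖ = κ * ‖b‖ ^ 2 by ring,
                Real.sqrt_mul hκ.le, Real.sqrt_sq (norm_nonneg b)]
              ring
      have hterm : ∀ i, ‖Lam w (φ' i (ψn b)) - Lam w (phiW W s i a)‖ ≤ 11 * √κ * ‖b‖ := by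
        intro i
        rw [← map_sub]
        refine (lam_norm w hw _).trans ?_
        have e1 : φ' i (ψn b) - phiW W s i a
            = (φ' i (ψn b) - φt i (ψn b)) + (phiW W s i (p * a * p - a)) := by
          rw [hφt, map_sub, hψn, ← ha, hdc]
          abel
        rw [e1]
        calc _ ≤ ‖φ' i (ψn b) - φt i (ψn b)‖ + ‖phiW W s i (p * a * p - a)‖ := norm_add_le _ _
          _ ≤ 9 * √κ * ‖b‖ + 2 * √κ * ‖b‖ := by
              apply add_le_add
              · refine (hclose i _).trans ?_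
                have : ‖ψn b‖ ≤ ‖b‖ := by rw [hψn]; exact (hcn _).trans han
                gcongr
              · refine (phiW_norm s i _).trans ?_
                rw [norm_sub_rev]
                exact hdist
          _ = _ := by ring
      calc _ ≤ ∑ i, ‖Lam w (φ' i (ψn b)) - Lam w (phiW W s i a)‖ := norm_sum_le _ _
        _ ≤ ∑ _i : Fin (d + 1), 11 * √κ * ‖b‖ := Finset.sum_le_sum fun i _ => hterm i
        _ = 11 * (d + 1) * √κ * ‖b‖ := by
            rw [Finset.sum_const, Finset.card_univ, Fintype.card_fin, nsmul_eq_mul]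
            push_cast
            ring
    intro b
    rw [corner_sum_eq s w hw]
    obtain ⟨y, hy0, hyn, hy⟩ := CStarAlgebra.exists_sum_four_nonneg b
    let E : B → B := fun b => φn (ψn b) - ∑ i, Lam w (phiW W s i (psiW W s (Gam w hw b)))
    have hE : E b = ∑ k : Fin 4, Complex.I ^ (k : ℕ) • E (y k) := by
      simp only [E]
      rw [hy]
      simp only [map_sum, map_smul, smul_sub, Finset.sum_sub_distrib, Finset.smul_sum]
      rw [Finset.sum_comm]
    show ‖E b‖ ≤ _
    rw [hE]
    calc _ ≤ ∑ k : Fin 4, ‖Complex.I ^ (k : ℕ) • E (y k)‖ := norm_sum_le _ _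
      _ ≤ ∑ _k : Fin 4, 11 * (d + 1) * √κ * ‖b‖ := by
          apply Finset.sum_le_sum
          intro k _
          rw [norm_smul, norm_pow, Complex.norm_I, one_pow, one_mul]
          refine (herr (y k) (hy0 k)).trans ?_
          gcongr
          exact hyn k
      _ = _ := by
          rw [Finset.sum_const, Finset.card_univ, Fintype.card_fin, nsmul_eq_mul]
          push_cast
          ring

end CKE
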