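import Pool.Agent.Lib_MP_e09b77_an.Kit

/-!
# Norm of completely positive maps (piece NORM)
-/

open scoped CStarAlgebra ComplexOrder

namespace CKE

section

variable {A C : Type*} [CStarAlgebra A] [PartialOrder A] [StarOrderedRing A]
  [CStarAlgebra C] [PartialOrder C] [StarOrderedRing C]

private theorem norm_sq' {A : Type*} [CStarAlgebra A] [PartialOrder A] [StarOrderedRing A] {a : A}
    (h : 0 ≤ a) : ∃ b, a = star b * b := CStarAlgebra.nonneg_iff_eq_star_mul_self.1 h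

private theorem norm_entry_nonneg {k : ℕ} (M : CStarMatrix (Fin k) (Fin k) C) (hM : 0 ≤ M)
    (i : Fin k) : 0 ≤ M i i := by
  obtain ⟨Y, hY⟩ := norm_sq' hM
  rw [hY, CStarMatrix.mul_apply]
  refine Finset.sum_nonneg fun j _ => ?_
  rw [CStarMatrix.star_apply]
  exact star_mul_self_nonneg _

/-- the case `‖x‖ ≤ 1` -/
private theorem norm_cp_aux (Φ : A →CP C) (h1 : ‖Φ 1‖ ≤ 1) (x : A) (hx : ‖x‖ ≤ 1) :
    ‖Φ x‖ ≤ 1 := by
  have hh0 : 0 ≤ Φ 1 := cp_nonneg Φ zero_le_one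
  have hh1 : Φ 1 ≤ 1 := (CStarAlgebra.norm_le_one_iff_of_nonneg (Φ 1) hh0).1 h1
  have hxx : star x * x ≤ 1 := by
    refine (CStarAlgebra.norm_le_one_iff_of_nonneg _ (star_mul_self_nonneg x)).1 ?_
    rw [CStarRing.norm_star_mul_self]
    nlinarith [norm_nonneg x]
  obtain ⟨z, hz⟩ := norm_sq' (sub_nonneg.2 hxx)
  set R : CStarMatrix (Fin 2) (Fin 2) A := CStarMatrix.ofMatrix !![1, x; 0, 0] with hR
  set T : CStarMatrix (Fin 2) (Fin 2) A := CStarMatrix.ofMatrix !![0, 0; 0, z] with hT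
  set X : CStarMatrix (Fin 2) (Fin 2) A := CStarMatrix.ofMatrix !![1, x; star x, 1] with hX
  have hX0 : 0 ≤ X := by
    have e : X = star R * R + star T * T := by
      ext i j
      rw [CStarMatrix.add_apply, CStarMatrix.mul_apply, CStarMatrix.mul_apply]
      simp only [CStarMatrix.star_apply, hR, hT, hX, CStarMatrix.ofMatrix_apply,
        Fin.sum_univ_two]
      fin_cases i <;> fin_cases j <;> simp [← hz]
    rw [e]
    exact add_nonneg (star_mul_self_nonneg R) (star_mul_self_nonneg T)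
  have hG0 : 0 ≤ X.map (Φ.toLinearMap) := Φ.map_cstarMatrix_nonneg' 2 X hX0
  set G : CStarMatrix (Fin 2) (Fin 2) C := X.map (Φ.toLinearMap) with hG
  have hGa : ∀ i j, G i j = Φ (X i j) := fun i j => rfl
  set V : CStarMatrix (Fin 2) (Fin 2) C := CStarMatrix.ofMatrix !![-Φ x, 0; 1, 0] with hV
  have h3 : 0 ≤ (star V * G * V) 0 0 := norm_entry_nonneg _ (star_left_conjugate_nonneg hG0 V) 0
  have h4 : (star V * G * V) 0 0
      = star (Φ x) * Φ 1 * Φ x - star (Φ x) * Φ x - star (Φ x) * Φ x + Φ 1 := by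
    simp only [CStarMatrix.mul_apply, CStarMatrix.star_apply, hGa, hX, hV,
      CStarMatrix.ofMatrix_apply, Fin.sum_univ_two]
    simp [cp_star]
    noncomm_ring
  rw [h4] at h3
  have h5 : star (Φ x) * Φ 1 * Φ x ≤ star (Φ x) * Φ x := by
    have := star_left_conjugate_le_conjugate hh1 (Φ x)
    simpa using this
  have h6 : star (Φ x) * Φ x ≤ 1 := by
    have h7 : 0 ≤ 1 - star (Φ x) * Φ x := by
      have h8 : (1 - star (Φ x) * Φ x)
          = (star (Φ x) * Φ 1 * Φ x - star (Φ x) * Φ x - star (Φ x) * Φ x + Φ 1)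
            + ((star (Φ x) * Φ x - star (Φ x) * Φ 1 * Φ x) + (1 - Φ 1)) := by abel
      rw [h8]
      exact add_nonneg h3 (add_nonneg (sub_nonneg.2 h5) (sub_nonneg.2 hh1))
    exact sub_nonneg.1 h7
  have h9 := (CStarAlgebra.norm_le_one_iff_of_nonneg _ (star_mul_self_nonneg (Φ x))).2 h6
  rw [CStarRing.norm_star_mul_self] at h9
  nlinarith [norm_nonneg (Φ x)]

/-- PIECE NORM. A completely positive map with `‖Φ 1‖ ≤ 1` is contractive.
Proof: by scaling let `‖x‖ ≤ 1`. Put `h = Φ 1 ≤ 1`. The matrix `!![1, x; star x, 1]` over `A` is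
`≥ 0` (for instance it equals `!![0, 0; star x, 1]ᴴ …`; write it as
`star R * R + T` with `R = !![1, x; 0, 0]` and `T = !![0, 0; 0, 1 - star x * x] ≥ 0`),
so `G = !![h, Φ x; star (Φ x), h] ≥ 0`. With the column `v = (-Φ x, 1)ᵀ`
(`rect_conj_nonneg`) we get `star (Φ x) * h * Φ x - 2 • star (Φ x) * Φ x + h ≥ 0`, and `h ≤ 1`
gives `star (Φ x) * Φ x ≤ 1`, i.e. `‖Φ x‖ ≤ 1`. -/
theorem cp_norm_le (Φ : A →CP C) (h1 : ‖Φ 1‖ ≤ 1) (x : A) : ‖Φ x‖ ≤ ‖x‖ := by
  rcases eq_or_ne x 0 with rfl | hx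
  · simp
  · have hx0 : 0 < ‖x‖ := norm_pos_iff.2 hx
    have h2 := norm_cp_aux Φ h1 (((‖x‖⁻¹ : ℝ) : ℂ) • x) (by
      rw [norm_smul, Complex.norm_real, norm_inv, norm_norm, inv_mul_cancel₀ hx0.ne'])
    rw [map_smul, norm_smul, Complex.norm_real, norm_inv, norm_norm, inv_mul_le_iff₀ hx0,
      mul_one] at h2
    exact h2

/-- PIECE NORM. More generally `‖Φ x‖ ≤ K ‖x‖` if `‖Φ 1‖ ≤ K`
(scale the previous lemma by `K⁻¹`, or treat `K = 0` directly; do not forget `A = 0`). -/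
theorem cp_norm_le' (Φ : A →CP C) {K : ℝ} (hK : 0 ≤ K) (h1 : ‖Φ 1‖ ≤ K) (x : A) :
    ‖Φ x‖ ≤ K * ‖x‖ := by
  have key : ∀ L : ℝ, 0 < L → K ≤ L → ‖Φ x‖ ≤ L * ‖x‖ := by
    intro L hL hKL
    have hsL : (0 : ℝ) < √L⁻¹ := Real.sqrt_pos.2 (inv_pos.2 hL)
    set c : C := algebraMap ℂ C ((√L⁻¹ : ℝ) : ℂ) with hc
    have hcs : star c = c := by
      rw [hc, ← algebraMap_star_comm]; simp
    have hval : ∀ y, cpComp (cpConj c) Φ y = ((L⁻¹ : ℝ) : ℂ) • Φ y := by
      intro y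
      rw [cpComp_apply, cpConj_apply, hcs, hc, Algebra.algebraMap_eq_smul_one, mul_smul_comm,
        mul_one, smul_mul_smul_comm, one_mul, ← Complex.ofReal_mul,
        Real.mul_self_sqrt (inv_pos.2 hL).le]
    have h2 := cp_norm_le (cpComp (cpConj c) Φ) (by
      rw [hval, norm_smul, Complex.norm_real, Real.norm_eq_abs, abs_of_pos (inv_pos.2 hL),
        inv_mul_le_iff₀ hL, mul_one]
      exact h1.trans hKL) x
    rw [hval, norm_smul, Complex.norm_real, Real.norm_eq_abs, abs_of_pos (inv_pos.2 hL),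
      inv_mul_le_iff₀ hL] at h2
    exact h2
  refine le_of_forall_pos_le_add fun e he => ?_
  have h3 := key (K + e / (‖x‖ + 1)) (by positivity) (by
    have : 0 < e / (‖x‖ + 1) := by positivity
    linarith)
  refine h3.trans ?_
  rw [add_mul]
  have : e / (‖x‖ + 1) * ‖x‖ ≤ e := by
    rw [div_mul_eq_mul_div, div_le_iff₀ (by positivity)]
    nlinarith [norm_nonneg x]
  linarith

end

end CKE
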