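import Pool.Agent.Lib_MP_e09b77_an.SD

/-!
# Order zero maps: commutation (piece OZA)
-/

open scoped CStarAlgebra ComplexOrder ComplexStarModule

namespace CKE

section

variable {F M : Type*} [CStarAlgebra F] [PartialOrder F] [StarOrderedRing F]
  [CStarAlgebra M] [PartialOrder M] [StarOrderedRing M]

/-- Order zero: orthogonal positive elements go to orthogonal elements. -/
def OrderZero (φ : F →CP M) : Prop :=
  ∀ x y, 0 ≤ x → 0 ≤ y → x * y = 0 → φ x * φ y = 0

private theorem oza_proj (φ : F →CP M) (h : OrderZero φ) {q : F} (hq : 0 ≤ q)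
    (hqq : q * q = q) : φ q * φ 1 = φ q * φ q ∧ φ 1 * φ q = φ q * φ q := by
  have hs : star q = q := (IsSelfAdjoint.of_nonneg hq).star_eq
  have h1 : 0 ≤ 1 - q := by
    have : 1 - q = star (1 - q) * (1 - q) := by
      rw [star_sub, star_one, hs]
      calc 1 - q = 1 - q - (q - q * q) := by rw [hqq]; abel
        _ = (1 - q) * (1 - q) := by noncomm_ring
    rw [this]
    exact star_mul_self_nonneg _
  have h2 : φ q * φ (1 - q) = 0 := h q (1 - q) hq h1 (by rw [mul_sub, mul_one, hqq, sub_self])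
  have h3 : φ (1 - q) * φ q = 0 := h (1 - q) q h1 hq (by rw [sub_mul, one_mul, hqq, sub_self])
  rw [map_sub, mul_sub] at h2
  rw [map_sub, sub_mul] at h3
  exact ⟨sub_eq_zero.1 h2, sub_eq_zero.1 h3⟩

/-- PIECE OZA. `h = φ 1` commutes with the range of an order zero map.
For a projection `q`: `φ q * φ (1 - q) = 0 = φ (1 - q) * φ q`, hence
`φ q * h = φ q * φ q = h * φ q`. Then take linear combinations (`SpanProj`) and
`x = realPart x + I • imaginaryPart x`. -/
theorem oz_comm (hF : SpanProj F) (φ : F →CP M) (h : OrderZero φ) (x : F) :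
    Commute (φ 1) (φ x) := by
  have hsa : ∀ y : F, IsSelfAdjoint y → Commute (φ 1) (φ y) := by
    intro y hy
    obtain ⟨K, _, q, c, h1, h2, h3, h4, h5⟩ := hF y hy
    rw [h5, map_sum]
    refine Commute.sum_right _ _ _ fun k _ => ?_
    rw [map_smul]
    refine Commute.smul_right ?_ _
    obtain ⟨e1, e2⟩ := oza_proj φ h (h1 k) (h2 k)
    exact e2.trans e1.symm
  have hx : x = (ℜ x : F) + Complex.I • (ℑ x : F) :=
    (realPart_add_I_smul_imaginaryPart x).symm
  rw [hx, map_add, map_smul]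
  exact (hsa _ (ℜ x).2).add_right ((hsa _ (ℑ x).2).smul_right _)

/-- PIECE OZA. For self-adjoint `x`, `φ x * φ x = φ 1 * φ (x * x)`: with
`x = ∑ c k • q k` one has `φ (q k) * φ (q l) = 0` for `k ≠ l` and
`φ (q k) * φ (q k) = φ 1 * φ (q k)`. -/
theorem oz_sq (hF : SpanProj F) (φ : F →CP M) (h : OrderZero φ) (x : F)
    (hx : IsSelfAdjoint x) : φ x * φ x = φ 1 * φ (x * x) := by
  obtain ⟨K, _, q, c, h1, h2, h3, h4, h5⟩ := hF x hx
  have e1 : x * x = ∑ k, ((c k : ℂ) * (c k : ℂ)) • q k := by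
    rw [h5, Finset.sum_mul_sum]
    refine Finset.sum_congr rfl fun k _ => ?_
    rw [Finset.sum_eq_single k]
    · rw [smul_mul_smul_comm, h2]
    · intro l _ hl
      rw [smul_mul_smul_comm, h3 k l (Ne.symm hl), smul_zero]
    · intro hk
      exact absurd (Finset.mem_univ k) hk
  have e2 : φ x * φ x = ∑ k, ((c k : ℂ) * (c k : ℂ)) • (φ (q k) * φ (q k)) := by
    rw [h5, map_sum, Finset.sum_mul_sum]
    refine Finset.sum_congr rfl fun k _ => ?_
    rw [Finset.sum_eq_single k]
    · rw [map_smul, smul_mul_smul_comm]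
    · intro l _ hl
      rw [map_smul, map_smul, smul_mul_smul_comm, h (q k) (q l) (h1 k) (h1 l)
        (h3 k l (Ne.symm hl)), smul_zero]
    · intro hk
      exact absurd (Finset.mem_univ k) hk
  rw [e2, e1, map_sum, Finset.mul_sum]
  refine Finset.sum_congr rfl fun k _ => ?_
  rw [map_smul, mul_smul_comm, (oza_proj φ h (h1 k) (h2 k)).2]

end

end CKE
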