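import Pool.Agent.Lib_MP_e09b77_an.RootCut
import Pool.Agent.Lib_MP_e09b77_an.OZA
import Pool.Agent.Lib_MP_e09b77_an.NormLe

/-!
# Cutting an order zero map into a corner (piece CUT)
-/

open scoped CStarAlgebra ComplexOrder

namespace CKE

section Cut

variable {F M : Type*} [CStarAlgebra F] [PartialOrder F] [StarOrderedRing F]
  [CStarAlgebra M] [PartialOrder M] [StarOrderedRing M]

private theorem cut_spec (a : M) (h0 : 0 ≤ a) (h1 : ‖a‖ ≤ 1) (t : ℝ) (ht : t ∈ spectrum ℝ a) :
    0 ≤ t ∧ t ≤ 1 := by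
  have h2 : 0 ≤ t := spectrum_nonneg_of_nonneg h0 ht
  refine ⟨h2, ?_⟩
  rcases subsingleton_or_nontrivial M with hM | hM
  · exact absurd ht (by simp [spectrum.of_subsingleton])
  · have h3 : ‖t‖ ≤ ‖a‖ := spectrum.norm_le_norm_of_mem ht
    rw [Real.norm_eq_abs, abs_of_nonneg h2] at h3
    exact h3.trans h1

/-- PIECE CUT. Cutting down an order zero map which is almost in a corner.
Proof. `h = φ 1`, `u` from `root_cut`, `k(t) = 1 / max t η`, `g(t) = t k(t) = min (t/η) 1` on
`[0, ∞)`. Define `φ'(x) = (u √k(h)) φ(x) (u √k(h))* = u φ(x) k(h) u*` (by `oz_comm` every continuous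
function of `h` commutes with `φ x`; `cpComp (cpConj (u * √k(h))) φ`).
* order zero: `φ' x φ' y = u k φ(x) u* u φ(y) k u* = u k f(h) φ(x) φ(y) k u* = 0`.
* contractive (`cp_norm_le`): `‖φ' 1‖ = ‖u g(h) u*‖ ≤ ‖√g(h) f(h) √g(h)‖ ≤ 1`.
* `P φ' x = φ' x = φ' x P`.
* closeness: `Ψ(x) = φ(x) k(h) = √k(h) φ(x) √k(h)` is completely positive with `Ψ 1 = g(h)`, so
`‖Ψ x‖ ≤ ‖x‖`; `φ' x = u Ψ(x) u*`, `√h Ψ(x) √h = φ(x) g(h)`, so
`‖φ' x - φ(x) g(h)‖ ≤ 2 · 4 √η ‖x‖` (all of `u`, `√h` are contractions), and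
`x ↦ φ(x) (1 - g(h)) = √(1 - g(h)) φ(x) √(1 - g(h))` is completely positive with value
`h (1 - g(h)) ≤ η` at `1`, so `‖φ x - φ(x) g(h)‖ ≤ η ‖x‖ ≤ √η ‖x‖`. -/
theorem cut (hF : SpanProj F) (φ : F →CP M) (h : OrderZero φ) (hn : ‖φ 1‖ ≤ 1)
    (P : M) (hP : P * P = P) (hPs : star P = P) (η : ℝ) (hη : 0 < η) (hη1 : η ≤ 1)
    (hc : (1 - P) * φ 1 * (1 - P) ≤ (η : ℂ) • (1 : M)) :
    ∃ φ' : F →CP M, OrderZero φ' ∧ (∀ x, ‖φ' x‖ ≤ ‖x‖) ∧ (∀ x, P * φ' x = φ' x) ∧
      (∀ x, φ' x * P = φ' x) ∧ (∀ x, φ x = 0 → φ' x = 0) ∧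
      (∀ x, ‖φ' x - φ x‖ ≤ 9 * √η * ‖x‖) := by
  have hh0 : 0 ≤ φ 1 := cp_nonneg φ zero_le_one
  have hsa : IsSelfAdjoint (φ 1) := IsSelfAdjoint.of_nonneg hh0
  have hh1 : φ 1 ≤ 1 := (CStarAlgebra.norm_le_one_iff_of_nonneg (φ 1) hh0).1 hn
  have hcomm : ∀ (x : F) (f : ℝ → ℝ), Commute (cfc f (φ 1)) (φ x) := fun x f =>
    (oz_comm hF φ h x).cfc_real f
  have hspec := cut_spec (φ 1) hh0 hn
  obtain ⟨u, hu1, hu2, hu3⟩ := root_cut (φ 1) P hh0 hh1 hP hPs η hη hη1 hc
  -- the functions
  set kf : ℝ → ℝ := fun t => (max t η)⁻¹ with hkf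
  have hmax : ∀ t : ℝ, 0 < max t η := fun t => lt_max_of_lt_right hη
  have hkpos : ∀ t : ℝ, 0 < kf t := fun t => inv_pos.2 (hmax t)
  have hkcont : Continuous kf := by
    refine Continuous.inv₀ (by fun_prop) fun t => (hmax t).ne'
  set s : M := cfc (fun t => √(kf t)) (φ 1) with hs
  have hscont : Continuous (fun t => √(kf t)) := Real.continuous_sqrt.comp hkcont
  have hssa : star s = s := (cfc_predicate (R := ℝ) (fun t => √(kf t)) (φ 1) : IsSelfAdjoint _)
  set r : M := cfc (fun t : ℝ => √t) (φ 1) with hr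
  have hrsa : star r = r := (cfc_predicate (R := ℝ) (fun t => √t) (φ 1) : IsSelfAdjoint _)
  set w : M := cfc (fun t : ℝ => √(1 - t * kf t)) (φ 1) with hw
  have hwsa : star w = w :=
    (cfc_predicate (R := ℝ) (fun t => √(1 - t * kf t)) (φ 1) : IsSelfAdjoint _)
  have hwcont : Continuous (fun t : ℝ => √(1 - t * kf t)) :=
    Real.continuous_sqrt.comp (continuous_const.sub (continuous_id.mul hkcont))
  have hid : cfc (fun t : ℝ => t) (φ 1) = φ 1 := cfc_id' ℝ (φ 1)
  have hunorm : ‖u‖ ≤ 1 := by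
    have h2 : ‖u‖ * ‖u‖ ≤ 1 := by
      rw [← CStarRing.norm_star_mul_self, hu1]
      refine norm_cfc_le zero_le_one fun t ht => ?_
      have := hspec t ht
      rw [Real.norm_eq_abs, abs_le]
      constructor
      · have : (0 : ℝ) ≤ max (t - 2 * η) 0 := le_max_right _ _
        linarith
      · exact max_le (by linarith [this.2]) zero_le_one
    nlinarith [norm_nonneg u]
  have hrnorm : ‖r‖ ≤ 1 := by
    refine norm_cfc_le zero_le_one fun t ht => ?_
    have := hspec t ht
    rw [Real.norm_eq_abs, abs_of_nonneg (Real.sqrt_nonneg t)]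
    rw [Real.sqrt_le_one]
    exact this.2
  set Ψ : F →CP M := cpComp (cpConj s) φ with hΨ
  have hΨa : ∀ x, Ψ x = s * φ x * s := by
    intro x
    rw [hΨ, cpComp_apply, cpConj_apply, hssa, mul_assoc]
  have hΨn : ∀ x, ‖Ψ x‖ ≤ ‖x‖ := by
    intro x
    refine cp_norm_le Ψ ?_ x
    rw [hΨa]
    have e : s * φ 1 * s = cfc (fun t : ℝ => √(kf t) * t * √(kf t)) (φ 1) := by
      rw [cfc_mul (fun t : ℝ => √(kf t) * t) (fun t => √(kf t)) (φ 1)
        (by fun_prop) (by fun_prop), cfc_mul (fun t : ℝ => √(kf t)) (fun t => t) (φ 1)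
        (by fun_prop) (by fun_prop), hid]
    rw [e]
    refine norm_cfc_le zero_le_one fun t ht => ?_
    have h2 := hspec t ht
    have e2 : √(kf t) * t * √(kf t) = t * kf t := by
      rw [mul_comm (√(kf t)) t, mul_assoc, Real.mul_self_sqrt (hkpos t).le]
    rw [e2, Real.norm_eq_abs, abs_of_nonneg (mul_nonneg h2.1 (hkpos t).le), hkf]
    rw [← div_eq_mul_inv, div_le_one (hmax t)]
    exact le_max_left _ _
  set φ' : F →CP M := cpComp (cpConj u) Ψ with hφ'
  have hφa : ∀ x, φ' x = u * Ψ x * star u := by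
    intro x
    rw [hφ', cpComp_apply, cpConj_apply, mul_assoc]
  have huP : star u * P = star u := by
    have := congrArg star hu2
    rwa [star_mul, hPs] at this
  refine ⟨φ', ?_, ?_, ?_, ?_, ?_, ?_⟩
  · intro x y hx hy hxy
    rw [hφa, hφa]
    have h0 : φ x * φ y = 0 := h x y hx hy hxy
    have h1 : u * Ψ x * star u * (u * Ψ y * star u) = u * (Ψ x * (star u * u) * Ψ y) * star u := by
      noncomm_ring
    rw [h1, hu1, hΨa, hΨa]
    set f : M := cfc (fun t : ℝ => max (t - 2 * η) 0) (φ 1) with hf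
    have c1 : Commute s (φ x) := hcomm x _
    have c2 : Commute s (φ y) := hcomm y _
    have c3 : Commute f (φ x) := hcomm x _
    have : s * φ x * s * f * (s * φ y * s) = 0 := by
      have c4 : Commute (s * f * s) (φ y) := (c2.mul_left (hcomm y _)).mul_left c2
      calc s * φ x * s * f * (s * φ y * s) = s * φ x * ((s * f * s) * φ y) * s := by
            noncomm_ring
        _ = s * φ x * (φ y * (s * f * s)) * s := by rw [c4.eq]
        _ = s * (φ x * φ y) * (s * f * s) * s := by noncomm_ring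
        _ = 0 := by rw [h0]; simp
    rw [this]; simp
  · intro x
    rw [hφa]
    calc ‖u * Ψ x * star u‖ ≤ ‖u‖ * ‖Ψ x‖ * ‖star u‖ := by
          refine (norm_mul_le _ _).trans ?_
          gcongr
          exact norm_mul_le _ _
      _ ≤ 1 * ‖x‖ * 1 := by
          rw [norm_star]
          gcongr
          exact hΨn x
      _ = ‖x‖ := by ring
  · intro x
    rw [hφa, mul_assoc, ← mul_assoc P, hu2]
  · intro x
    rw [hφa, mul_assoc, huP]
  · intro x hx
    rw [hφa, hΨa, hx]; simp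
  · intro x
    have hrΨ : r * Ψ x * r = φ x - w * φ x * w := by
      have c1 : Commute s (φ x) := hcomm x _
      have c2 : Commute r (φ x) := hcomm x _
      have c3 : Commute w (φ x) := hcomm x _
      have e1 : r * Ψ x * r = φ x * (s * r * (s * r)) := by
        rw [hΨa]
        have c4 : Commute r s := cfc_commute_cfc _ _ _
        calc r * (s * φ x * s) * r = r * s * φ x * (s * r) := by noncomm_ring
          _ = φ x * (r * s) * (s * r) := by rw [(c2.mul_left c1).eq]
          _ = φ x * (s * r * (s * r)) := by rw [c4.eq, mul_assoc]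
      have e2 : w * φ x * w = φ x * (w * w) := by rw [c3.eq, mul_assoc]
      have e3 : s * r * (s * r) + w * w = 1 := by
        rw [hs, hr, hw, ← cfc_mul _ _ _ (by fun_prop) (by fun_prop),
          ← cfc_mul _ _ _ (by fun_prop) (by fun_prop),
          ← cfc_mul _ _ _ (by fun_prop) (by fun_prop),
          ← cfc_add _ _ _ (by fun_prop) (by fun_prop)]
        rw [← cfc_one ℝ (φ 1)]
        refine cfc_congr fun t ht => ?_
        have h2 := hspec t ht
        have hk : t * kf t ≤ 1 := by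
          rw [hkf, ← div_eq_mul_inv, div_le_one (hmax t)]
          exact le_max_left _ _
        have e5 : √(kf t) * √t * (√(kf t) * √t) = t * kf t := by
          have a1 := Real.mul_self_sqrt (hkpos t).le
          have a2 := Real.mul_self_sqrt h2.1
          calc √(kf t) * √t * (√(kf t) * √t) = (√(kf t) * √(kf t)) * (√t * √t) := by ring
            _ = t * kf t := by rw [a1, a2]; ring
        show √(kf t) * √t * (√(kf t) * √t) + √(1 - t * kf t) * √(1 - t * kf t) = 1
        rw [e5, Real.mul_self_sqrt (by linarith)]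
        ring
      rw [e1, e2, eq_sub_iff_add_eq, ← mul_add, e3, mul_one]
    have hwn : ‖w * φ x * w‖ ≤ η * ‖x‖ := by
      have e : w * φ x * w = (cpComp (cpConj w) φ) x := by
        rw [cpComp_apply, cpConj_apply, hwsa, mul_assoc]
      rw [e]
      refine cp_norm_le' _ hη.le ?_ x
      rw [cpComp_apply, cpConj_apply, hwsa, ← mul_assoc]
      have e2 : w * φ 1 * w
          = cfc (fun t : ℝ => √(1 - t * kf t) * t * √(1 - t * kf t)) (φ 1) := by
        rw [cfc_mul (fun t : ℝ => √(1 - t * kf t) * t) (fun t => √(1 - t * kf t)) (φ 1)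
          (by fun_prop) (by fun_prop), cfc_mul (fun t : ℝ => √(1 - t * kf t)) (fun t => t) (φ 1)
          (by fun_prop) (by fun_prop), hid]
      rw [e2]
      refine norm_cfc_le hη.le fun t ht => ?_
      have h2 := hspec t ht
      have hk : t * kf t ≤ 1 := by
        rw [hkf, ← div_eq_mul_inv, div_le_one (hmax t)]
        exact le_max_left _ _
      have e3 : √(1 - t * kf t) * t * √(1 - t * kf t) = t * (1 - t * kf t) := by
        rw [mul_comm (√(1 - t * kf t)) t, mul_assoc, Real.mul_self_sqrt (by linarith)]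
      rw [e3, Real.norm_eq_abs, abs_of_nonneg (mul_nonneg h2.1 (by linarith))]
      rcases le_total t η with htη | htη
      · have : 0 ≤ t * kf t := mul_nonneg h2.1 (hkpos t).le
        nlinarith [h2.1]
      · have : t * kf t = 1 := by
          rw [hkf]
          simp only
          rw [max_eq_left htη, mul_inv_cancel₀ (by linarith)]
        rw [this]; simp [hη.le]
    have hη2 : η ≤ √η := by
      have h3 : √η ≤ 1 := Real.sqrt_le_one.2 hη1 
      have h4 := Real.mul_self_sqrt hη.le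
      nlinarith [Real.sqrt_nonneg η]
    have key : φ' x - φ x = (u - r) * Ψ x * star u + r * Ψ x * star (u - r) - w * φ x * w := by
      have e1 : φ x = r * Ψ x * r + w * φ x * w := by rw [hrΨ]; abel
      rw [hφa, star_sub, hrsa]
      generalize w * φ x * w = B at e1 ⊢
      rw [e1]
      noncomm_ring
    rw [key]
    have b1 : ‖(u - r) * Ψ x * star u‖ ≤ 4 * √η * ‖x‖ := by
      calc ‖(u - r) * Ψ x * star u‖ ≤ ‖u - r‖ * ‖Ψ x‖ * ‖star u‖ := by
            refine (norm_mul_le _ _).trans ?_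
            gcongr
            exact norm_mul_le _ _
        _ ≤ (4 * √η) * ‖x‖ * 1 := by
            rw [norm_star]
            gcongr
            exact hΨn x
        _ = 4 * √η * ‖x‖ := by ring
    have b2 : ‖r * Ψ x * star (u - r)‖ ≤ 4 * √η * ‖x‖ := by
      calc ‖r * Ψ x * star (u - r)‖ ≤ ‖r‖ * ‖Ψ x‖ * ‖star (u - r)‖ := by
            refine (norm_mul_le _ _).trans ?_
            gcongr
            exact norm_mul_le _ _
        _ ≤ 1 * ‖x‖ * (4 * √η) := by
            rw [norm_star]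
            gcongr
            exact hΨn x
        _ = 4 * √η * ‖x‖ := by ring
    calc _ ≤ ‖(u - r) * Ψ x * star u + r * Ψ x * star (u - r)‖ + ‖w * φ x * w‖ :=
          norm_sub_le _ _
      _ ≤ (4 * √η * ‖x‖ + 4 * √η * ‖x‖) + η * ‖x‖ := by
          gcongr
          exact (norm_add_le _ _).trans (add_le_add b1 b2)
      _ ≤ 9 * √η * ‖x‖ := by nlinarith [norm_nonneg x]

end Cut

end CKE
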