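import Pool.Agent.Lib_MP_e09b77_an.OZB
import Pool.Agent.Lib_MP_e09b77_an.Ampl

/-!
# Order zero maps: amplification (piece OZC)
-/

open scoped CStarAlgebra ComplexOrder

namespace CKE

section

variable {F M : Type*} [CStarAlgebra F] [PartialOrder F] [StarOrderedRing F]
  [CStarAlgebra M] [PartialOrder M] [StarOrderedRing M]

private theorem ozc_gen {R : Type*} [CStarAlgebra R] (a b : R) :
    star (a + Complex.I • b) * (a + Complex.I • b) =
      star a * a + Complex.I • (star a * b - star b * a) + star b * b := by
  have hI : star Complex.I = -Complex.I := Complex.conj_I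
  rw [star_add, star_smul, hI, add_mul, mul_add, mul_add, smul_mul_assoc, mul_smul_comm,
    smul_mul_smul_comm, neg_mul, Complex.I_mul_I, neg_neg, one_smul, neg_smul, smul_sub]
  abel

private theorem ozc_star_mul (hF : SpanProj F) (φ : F →CP M) (h : OrderZero φ) (x y : F) :
    star (φ x) * φ y = φ 1 * φ (star x * y) := by
  have hxx := oz_star_mul_self hF φ h x
  have hyy := oz_star_mul_self hF φ h y
  have e1 := oz_star_mul_self hF φ h (x + y)
  have e2 := oz_star_mul_self hF φ h (x + Complex.I • y)
  have c1 : star (x + y) * (x + y) = star x * x + star x * y + star y * x + star y * y := by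
    rw [star_add]; noncomm_ring
  have c2 : star (φ (x + y)) * φ (x + y) =
      star (φ x) * φ x + star (φ x) * φ y + star (φ y) * φ x + star (φ y) * φ y := by
    rw [map_add, star_add]; noncomm_ring
  have c3 := ozc_gen x y
  have c4 : star (φ (x + Complex.I • y)) * φ (x + Complex.I • y) =
      star (φ x) * φ x + Complex.I • (star (φ x) * φ y - star (φ y) * φ x) +
        star (φ y) * φ y := by
    rw [map_add, map_smul]
    exact ozc_gen (φ x) (φ y)
  rw [c1, c2, map_add, map_add, map_add, mul_add, mul_add, mul_add, hxx, hyy] at e1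
  rw [c3, c4, map_add, map_add, map_smul, map_sub, mul_add, mul_add, mul_smul_comm, mul_sub, hxx,
    hyy] at e2
  have e3 : star (φ x) * φ y + star (φ y) * φ x =
      φ 1 * φ (star x * y) + φ 1 * φ (star y * x) := by
    have := e1
    rw [add_left_inj, add_assoc, add_assoc, add_right_inj] at this
    exact this
  have e4 : star (φ x) * φ y - star (φ y) * φ x =
      φ 1 * φ (star x * y) - φ 1 * φ (star y * x) := by
    rw [add_left_inj, add_right_inj] at e2
    have := congrArg (fun t => (-Complex.I) • t) e2
    simp only [smul_smul] at this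
    have hII : -Complex.I * Complex.I = 1 := by
      rw [neg_mul, Complex.I_mul_I, neg_neg]
    rw [hII, one_smul, one_smul] at this
    exact this
  have e5 : (2 : ℂ) • (star (φ x) * φ y) = (2 : ℂ) • (φ 1 * φ (star x * y)) := by
    rw [two_smul, two_smul]
    have h1 : star (φ x) * φ y + star (φ x) * φ y =
        (star (φ x) * φ y + star (φ y) * φ x) + (star (φ x) * φ y - star (φ y) * φ x) := by abel
    rw [h1, e3, e4]
    abel
  have := congrArg (fun t => (2⁻¹ : ℂ) • t) e5
  simp only [smul_smul] at this
  rw [inv_mul_cancel₀ (two_ne_zero), one_smul, one_smul] at this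
  exact this

/-- PIECE OZC. Polarization of `oz_star_mul_self`: for all `x y`,
`φ x * φ y = φ 1 * φ (x * y)`. (Polarize `star (φ x) * φ x = h * φ (star x * x)` in `x + iᵏ y` to
get `star (φ x) * φ y = h * φ (star x * y)` and replace `x` by `star x`; `φ (star x) = star (φ x)`
is `cp_star`.) -/
theorem oz_mul (hF : SpanProj F) (φ : F →CP M) (h : OrderZero φ) (x y : F) :
    φ x * φ y = φ 1 * φ (x * y) := by
  have h1 := ozc_star_mul hF φ h (star x) y
  rw [cp_star, star_star, star_star] at h1
  exact h1

/-- PIECE OZC. The amplification of an order zero map is of order zero: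
`(ampl φ X * ampl φ Y) μ λ = ∑ ν, φ (X μ ν) * φ (Y ν λ) = φ 1 * φ ((X * Y) μ λ)`. -/
theorem oz_ampl (hF : SpanProj F) (φ : F →CP M) (h : OrderZero φ) (W : Type*) [Fintype W]
    [DecidableEq W] : OrderZero (ampl W φ) := by
  intro X Y _ _ hXY
  ext μ ν
  rw [CStarMatrix.mul_apply]
  have h1 : ∀ j, ampl W φ X μ j * ampl W φ Y j ν = φ 1 * φ (X μ j * Y j ν) := by
    intro j
    rw [ampl_apply, ampl_apply, oz_mul hF φ h]
  rw [Finset.sum_congr rfl fun j _ => h1 j, ← Finset.mul_sum, ← map_sum, ← CStarMatrix.mul_apply,
    hXY]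
  simp

end

end CKE
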