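import Pool.Agent.Lib_MP_e09b77_an.Defs

/-!
# M_W(⨁ M_n) ≅ ⨁ M_{W × n} (piece SIG)
-/

open scoped CStarAlgebra ComplexOrder

namespace CKE

theorem sig_sum_apply {ι W W' : Type*} {A : Type*} [AddCommMonoid A] (s : Finset ι)
    (f : ι → CStarMatrix W W' A) (μ : W) (ν : W') :
    (∑ i ∈ s, f i) μ ν = ∑ i ∈ s, f i μ ν := by
  classical
  induction s using Finset.induction_on with
  | empty => simp
  | insert a s ha ih => rw [Finset.sum_insert ha, Finset.sum_insert ha, CStarMatrix.add_apply, ih]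

/-- PIECE SIG. `M_W(⨁ j, M_{n j}(ℂ)) ≅ ⨁ j, M_{W × n j}(ℂ)`. -/
noncomputable def sig (W : Type) [Fintype W] [DecidableEq W] {m : ℕ} (n : Fin m → ℕ) :
    CStarMatrix W W (FD n) ≃⋆ₐ[ℂ]
      ((j : Fin m) → CStarMatrix (W × Fin (n j)) (W × Fin (n j)) ℂ) where
  toFun X := fun j => CStarMatrix.ofMatrix fun p q => X p.1 q.1 j p.2 q.2
  invFun Y := CStarMatrix.ofMatrix fun μ ν => fun j => CStarMatrix.ofMatrix fun a b =>
    Y j (μ, a) (ν, b)
  left_inv X := rfl
  right_inv Y := rfl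
  map_mul' X Y := by
    funext j
    refine CStarMatrix.ext fun p q => ?_
    change (X * Y) p.1 q.1 j p.2 q.2 = (_ * _ : CStarMatrix _ _ ℂ) p q
    rw [CStarMatrix.mul_apply, CStarMatrix.mul_apply, Finset.sum_apply, sig_sum_apply,
      Fintype.sum_prod_type]
    refine Finset.sum_congr rfl fun c _ => ?_
    rw [Pi.mul_apply, CStarMatrix.mul_apply]
    rfl
  map_add' X Y := rfl
  map_star' X := by
    funext j
    refine CStarMatrix.ext fun p q => ?_
    rfl
  map_smul' c X := rfl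

end CKE
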