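import Pool.Agent.Lib_MP_e09b77_an.Defs

/-!
# Spectral compression (piece SPEC)
-/

open scoped CStarAlgebra ComplexOrder

namespace CKE

/-- `U diag(d) U*`. -/
private noncomputable def specD {ι : Type} [Fintype ι] [DecidableEq ι] (U : Matrix ι ι ℂ)
    (d : ι → ℝ) : Matrix ι ι ℂ :=
  U * Matrix.diagonal (fun i => (d i : ℂ)) * U.conjTranspose

private theorem spec_mul {ι : Type} [Fintype ι] [DecidableEq ι] {U : Matrix ι ι ℂ}
    (hU : U.conjTranspose * U = 1) (d e : ι → ℝ) :
    specD U d * specD U e = specD U (fun i => d i * e i) := by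
  unfold specD
  have h1 : U * Matrix.diagonal (fun i => (d i : ℂ)) * U.conjTranspose *
      (U * Matrix.diagonal (fun i => (e i : ℂ)) * U.conjTranspose) =
      U * Matrix.diagonal (fun i => (d i : ℂ)) * (U.conjTranspose * U) *
        Matrix.diagonal (fun i => (e i : ℂ)) * U.conjTranspose := by
    simp only [Matrix.mul_assoc]
  rw [h1, hU, Matrix.mul_one, Matrix.mul_assoc U, Matrix.diagonal_mul_diagonal]
  congr 3
  funext i
  push_cast
  rfl

private theorem spec_sub {ι : Type} [Fintype ι] [DecidableEq ι] (U : Matrix ι ι ℂ)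
    (d e : ι → ℝ) : specD U d - specD U e = specD U (fun i => d i - e i) := by
  unfold specD
  rw [← Matrix.sub_mul, ← Matrix.mul_sub, Matrix.diagonal_sub]
  congr 3
  funext i
  push_cast
  rfl

private theorem spec_smul {ι : Type} [Fintype ι] [DecidableEq ι] (U : Matrix ι ι ℂ)
    (c : ℝ) (d : ι → ℝ) : (c : ℂ) • specD U d = specD U (fun i => c * d i) := by
  unfold specD
  rw [← Matrix.smul_mul, ← Matrix.mul_smul, ← Matrix.diagonal_smul]
  congr 3
  funext i
  simp

private theorem spec_one {ι : Type} [Fintype ι] [DecidableEq ι] {U : Matrix ι ι ℂ}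
    (hU : U * U.conjTranspose = 1) : specD U (fun _ => 1) = 1 := by
  unfold specD
  have h1 : Matrix.diagonal (fun _ : ι => ((1 : ℝ) : ℂ)) = 1 := by
    simp
  rw [h1, Matrix.mul_one, hU]

private theorem spec_star {ι : Type} [Fintype ι] [DecidableEq ι] (U : Matrix ι ι ℂ)
    (d : ι → ℝ) : (specD U d).conjTranspose = specD U d := by
  unfold specD
  rw [Matrix.conjTranspose_mul, Matrix.conjTranspose_mul, Matrix.conjTranspose_conjTranspose,
    Matrix.diagonal_conjTranspose, Matrix.mul_assoc]
  congr 3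
  funext i
  simp

private theorem spec_nonneg {ι : Type} [Fintype ι] [DecidableEq ι] {U : Matrix ι ι ℂ}
    (hU : U.conjTranspose * U = 1) {d : ι → ℝ} (hd : ∀ i, 0 ≤ d i) :
    (0 : CStarMatrix ι ι ℂ) ≤ CStarMatrix.ofMatrix (specD U d) := by
  have h1 : specD U d = (specD U (fun i => √(d i))).conjTranspose *
      specD U (fun i => √(d i)) := by
    rw [spec_star, spec_mul hU]
    congr 1
    funext i
    exact (Real.mul_self_sqrt (hd i)).symm
  have h2 : CStarMatrix.ofMatrix (specD U d) =
      star (CStarMatrix.ofMatrix (specD U (fun i => √(d i)))) *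
        CStarMatrix.ofMatrix (specD U (fun i => √(d i))) := by
    rw [h1]
    rfl
  rw [h2]
  exact star_mul_self_nonneg _

private theorem spec_data {ι : Type} [Fintype ι] [DecidableEq ι] {M : Matrix ι ι ℂ}
    (hM : M.PosSemidef) : ∃ (U : Matrix ι ι ℂ) (lam : ι → ℝ), U.conjTranspose * U = 1 ∧
      U * U.conjTranspose = 1 ∧ (∀ i, 0 ≤ lam i) ∧ M = specD U lam := by
  refine ⟨(hM.isHermitian.eigenvectorUnitary : Matrix ι ι ℂ), hM.isHermitian.eigenvalues, ?_, ?_,
    hM.eigenvalues_nonneg, ?_⟩
  · exact Unitary.coe_star_mul_self _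
  · exact Unitary.coe_mul_star_self _
  · have h := hM.isHermitian.spectral_theorem
    rw [Unitary.conjStarAlgAut_apply] at h
    exact h

/-- PIECE SPEC. Spectral projection of a positive matrix `a` for the eigenvalues `≥ κ`, written as
`p = V Vᴴ` with an isometry `V : ℂ^r → ℂ^ι`.
Proof: `a` is positive semidefinite; let `U` be the unitary of eigenvectors and `λ i` the
eigenvalues. Let `T = {i | κ ≤ λ i}`, `r = card T`, and let the columns of `V` be the columns of
`U` with index in `T` (`T ≃ Fin r`). Then `Vᴴ V = 1`, `V Vᴴ = U diag(1_T) Uᴴ`,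
`a - κ V Vᴴ = U diag(λ - κ 1_T) Uᴴ ≥ 0` and
`(1 - V Vᴴ) a (1 - V Vᴴ) = U diag(λ 1_{Tᶜ}) Uᴴ ≤ κ`. -/
theorem exists_compress {ι : Type} [Fintype ι] [DecidableEq ι] (a : CStarMatrix ι ι ℂ)
    (ha : 0 ≤ a) (κ : ℝ) (hκ : 0 < κ) :
    ∃ (r : ℕ) (V : CStarMatrix ι (Fin r) ℂ), r ≤ Fintype.card ι ∧
      (V.conjTranspose * V : CStarMatrix (Fin r) (Fin r) ℂ) = 1 ∧
      (κ : ℂ) • (V * V.conjTranspose : CStarMatrix ι ι ℂ) ≤ a ∧
      (1 - (V * V.conjTranspose : CStarMatrix ι ι ℂ)) * a *
        (1 - (V * V.conjTranspose : CStarMatrix ι ι ℂ)) ≤ (κ : ℂ) • (1 : CStarMatrix ι ι ℂ) := by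
  classical
  have hM : (CStarMatrix.ofMatrix.symm a : Matrix ι ι ℂ).PosSemidef := by
    have h0 := (StarOrderedRing.nonneg_iff (x := a)).1 ha
    clear ha
    induction h0 using AddSubmonoid.closure_induction with
    | mem x hx =>
      obtain ⟨s, rfl⟩ := hx
      have h1 : (CStarMatrix.ofMatrix.symm (star s * s) : Matrix ι ι ℂ) =
          (CStarMatrix.ofMatrix.symm s : Matrix ι ι ℂ).conjTranspose *
            (CStarMatrix.ofMatrix.symm s : Matrix ι ι ℂ) := rfl
      show (CStarMatrix.ofMatrix.symm (star s * s) : Matrix ι ι ℂ).PosSemidef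
      rw [h1]
      exact Matrix.posSemidef_conjTranspose_mul_self _
    | zero => exact Matrix.PosSemidef.zero
    | add x y _ _ hx hy => exact Matrix.PosSemidef.add hx hy
  obtain ⟨U, lam, hU1, hU2, hlam, hMU⟩ := spec_data hM
  have haU : a = CStarMatrix.ofMatrix (specD U lam) := by
    rw [← hMU]
    rfl
  obtain ⟨T, hT⟩ : ∃ T : Finset ι, T = Finset.univ.filter (fun i => κ ≤ lam i) := ⟨_, rfl⟩
  obtain ⟨ind, hind⟩ : ∃ ind : ι → ℝ, ind = fun i => if κ ≤ lam i then 1 else 0 := ⟨_, rfl⟩
  obtain ⟨V, hV⟩ : ∃ V : Matrix ι (Fin T.card) ℂ,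
      ∀ i k, V i k = U i ((T.equivFin.symm k : T) : ι) :=
    ⟨Matrix.of fun i k => U i ((T.equivFin.symm k : T) : ι), fun _ _ => rfl⟩
  have hVV : V * V.conjTranspose = specD U ind := by
    ext i j
    unfold specD
    rw [Matrix.mul_assoc, Matrix.mul_apply, Matrix.mul_apply]
    have e1 : ∀ k : Fin T.card, V i k * V.conjTranspose k j =
        (fun t : T => U i t * star (U j t)) (T.equivFin.symm k) := by
      intro k
      rw [Matrix.conjTranspose_apply, hV, hV]
    have e2 : ∑ k, V i k * V.conjTranspose k j = ∑ t ∈ T, U i t * star (U j t) := by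
      rw [Finset.sum_congr rfl (fun k _ => e1 k),
        Equiv.sum_comp T.equivFin.symm (fun t : T => U i t * star (U j t)),
        Finset.sum_coe_sort T (fun t => U i t * star (U j t))]
    rw [e2, hT, Finset.sum_filter]
    refine Finset.sum_congr rfl (fun t _ => ?_)
    rw [Matrix.diagonal_mul, Matrix.conjTranspose_apply, hind]
    split_ifs with h
    · simp [h]
    · simp [not_le.1 h]
  have hVV1 : V.conjTranspose * V = 1 := by
    ext k l
    rw [Matrix.mul_apply]
    have e1 : ∀ i : ι, V.conjTranspose k i * V i l =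
        U.conjTranspose (T.equivFin.symm k : T) i * U i ((T.equivFin.symm l : T) : ι) := by
      intro i
      rw [Matrix.conjTranspose_apply, Matrix.conjTranspose_apply, hV, hV]
    rw [Finset.sum_congr rfl (fun i _ => e1 i), ← Matrix.mul_apply, hU1, Matrix.one_apply,
      Matrix.one_apply]
    congr 1
    rw [Subtype.coe_inj, Equiv.apply_eq_iff_eq]
  have h1 : (CStarMatrix.ofMatrix V * (CStarMatrix.ofMatrix V).conjTranspose :
      CStarMatrix ι ι ℂ) = CStarMatrix.ofMatrix (specD U ind) := by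
    rw [← hVV]
    rfl
  have hone : (1 : CStarMatrix ι ι ℂ) = CStarMatrix.ofMatrix (specD U (fun _ => 1)) := by
    rw [spec_one hU2]
    rfl
  refine ⟨T.card, CStarMatrix.ofMatrix V, Finset.card_le_univ T, hVV1, ?_, ?_⟩
  · rw [h1, ← sub_nonneg, haU]
    have e : CStarMatrix.ofMatrix (specD U lam) - (κ : ℂ) • CStarMatrix.ofMatrix (specD U ind) =
        CStarMatrix.ofMatrix (specD U (fun i => lam i - κ * ind i)) := by
      rw [← spec_sub, ← spec_smul]
      rfl
    rw [e]
    refine spec_nonneg hU1 (fun i => ?_)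
    have := hlam i
    rw [hind]
    dsimp only
    split_ifs with h
    · linarith
    · linarith
  · rw [h1, ← sub_nonneg, haU]
    have e0 : (1 : CStarMatrix ι ι ℂ) - CStarMatrix.ofMatrix (specD U ind) =
        CStarMatrix.ofMatrix (specD U (fun i => 1 - ind i)) := by
      rw [← spec_sub, hone]
      rfl
    have e1 : CStarMatrix.ofMatrix (specD U (fun i => 1 - ind i)) *
        CStarMatrix.ofMatrix (specD U lam) * CStarMatrix.ofMatrix (specD U (fun i => 1 - ind i)) =
        CStarMatrix.ofMatrix (specD U (fun i => (1 - ind i) * lam i * (1 - ind i))) := by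
      rw [← spec_mul hU1, ← spec_mul hU1]
      rfl
    have e2 : (κ : ℂ) • (1 : CStarMatrix ι ι ℂ) -
        CStarMatrix.ofMatrix (specD U (fun i => (1 - ind i) * lam i * (1 - ind i))) =
        CStarMatrix.ofMatrix (specD U (fun i => κ * 1 - (1 - ind i) * lam i * (1 - ind i))) := by
      rw [← spec_sub, ← spec_smul, hone]
      rfl
    rw [e0, e1, e2]
    refine spec_nonneg hU1 (fun i => ?_)
    rw [hind]
    dsimp only
    split_ifs with h
    · norm_num
      exact hκ.le
    · push Not at h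
      norm_num
      exact h.le

end CKE
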