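import Pool.Agent.Lib_MP_e09b77_an.Lam
import Pool.Agent.Lib_MP_e09b77_an.Cut
import Pool.Agent.Lib_MP_e09b77_an.Comp
import Pool.Agent.Lib_MP_e09b77_an.Sig
import Pool.Agent.Lib_MP_e09b77_an.Spec
import Pool.Agent.Lib_MP_e09b77_an.OZC

/-!
# The colour parts of a decomposable system
-/

open scoped CStarAlgebra ComplexOrder

namespace CKE

universe u

variable {B : Type u} [CStarAlgebra B] [PartialOrder B] [StarOrderedRing B]

/-- The unit of the summand of colour `i`. -/
noncomputable def ecol {d : ℕ} (s : DecSystem B d) (i : Fin (d + 1)) : FD s.n :=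
  fun j => if s.κ j = i then 1 else 0

theorem ecol_conj_apply {d : ℕ} (s : DecSystem B d) (i : Fin (d + 1)) (x : FD s.n)
    (j : Fin s.m) : (cpConj (ecol s i) x) j = if s.κ j = i then x j else 0 := by
  rw [cpConj_apply]
  simp only [Pi.mul_apply, Pi.star_apply, ecol]
  split_ifs with h
  · simp
  · simp

theorem ecol_ofColour {d : ℕ} (s : DecSystem B d) (i : Fin (d + 1)) (x : FD s.n) :
    OfColour s.κ i (cpConj (ecol s i) x) := by
  intro j hj
  rw [ecol_conj_apply, if_neg hj]

theorem ecol_sum {d : ℕ} (s : DecSystem B d) (x : FD s.n) :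
    ∑ i, cpConj (ecol s i) x = x := by
  funext j
  rw [Finset.sum_apply]
  simp only [ecol_conj_apply]
  simp

theorem ecol_norm {d : ℕ} (s : DecSystem B d) (i : Fin (d + 1)) (x : FD s.n) :
    ‖cpConj (ecol s i) x‖ ≤ ‖x‖ := by
  rw [pi_norm_le_iff_of_nonneg (norm_nonneg _)]
  intro j
  rw [ecol_conj_apply]
  split_ifs
  · exact norm_le_pi_norm x j
  · simp

/-- The part of colour `i` of the upward map. -/
noncomputable def phic {d : ℕ} (s : DecSystem B d) (i : Fin (d + 1)) : FD s.n →CP B :=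
  cpComp s.φ (cpConj (ecol s i))

theorem phic_apply {d : ℕ} (s : DecSystem B d) (i : Fin (d + 1)) (x : FD s.n) :
    phic s i x = s.φ (cpConj (ecol s i) x) := rfl

theorem phic_norm {d : ℕ} (s : DecSystem B d) (i : Fin (d + 1)) (x : FD s.n) :
    ‖phic s i x‖ ≤ ‖x‖ := by
  rw [phic_apply]
  exact (s.φ_contractive i _ (ecol_ofColour s i x)).trans (ecol_norm s i x)

theorem phic_sum {d : ℕ} (s : DecSystem B d) (x : FD s.n) :
    ∑ i, phic s i x = s.φ x := by
  simp only [phic_apply]
  rw [← map_sum, ecol_sum]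

theorem phic_eq_zero {d : ℕ} (s : DecSystem B d) (i : Fin (d + 1)) (x : FD s.n)
    (h : ∀ j, s.κ j = i → x j = 0) : phic s i x = 0 := by
  rw [phic_apply]
  have : cpConj (ecol s i) x = 0 := by
    funext j
    rw [ecol_conj_apply]
    split_ifs with h1
    · rw [h j h1]; rfl
    · rfl
  rw [this, map_zero]

theorem phic_orderZero {d : ℕ} (s : DecSystem B d) (i : Fin (d + 1)) :
    OrderZero (phic s i) := by
  intro x y hx hy hxy
  rw [phic_apply, phic_apply]
  apply s.φ_orderZero i _ _ (ecol_ofColour s i x) (ecol_ofColour s i y)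
    (cp_nonneg _ hx) (cp_nonneg _ hy)
  funext j
  rw [Pi.mul_apply, ecol_conj_apply, ecol_conj_apply]
  have h1 : x j * y j = 0 := congrFun hxy j
  split_ifs
  · rw [h1]; rfl
  · simp

variable {W : Type} [Fintype W] [DecidableEq W]

/-- `σ` as a completely positive map. -/
noncomputable def sigc (W : Type) [Fintype W] [DecidableEq W] {m : ℕ} (n : Fin m → ℕ) :
    CStarMatrix W W (FD n) →CP
      ((j : Fin m) → CStarMatrix (W × Fin (n j)) (W × Fin (n j)) ℂ) :=
  cpOfHom ((sig W n : CStarMatrix W W (FD n) →⋆ₙₐ[ℂ] _))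

theorem sigc_apply {m : ℕ} (n : Fin m → ℕ) (X : CStarMatrix W W (FD n)) :
    sigc W n X = sig W n X := rfl

noncomputable def sigcs (W : Type) [Fintype W] [DecidableEq W] {m : ℕ} (n : Fin m → ℕ) :
    ((j : Fin m) → CStarMatrix (W × Fin (n j)) (W × Fin (n j)) ℂ) →CP
      CStarMatrix W W (FD n) :=
  cpOfHom (((sig W n).symm : _ →⋆ₙₐ[ℂ] CStarMatrix W W (FD n)))

theorem sigcs_apply {m : ℕ} (n : Fin m → ℕ)
    (Y : (j : Fin m) → CStarMatrix (W × Fin (n j)) (W × Fin (n j)) ℂ) :
    sigcs W n Y = (sig W n).symm Y := rfl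

end CKE
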