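import Pool.Agent.Lib_MP_e09b77_an.Kit

/-!
# Norms of diagonal matrices and orthogonal sums (piece DIAG)
-/

open scoped CStarAlgebra ComplexOrder

namespace CKE

universe u

variable {B : Type u} [CStarAlgebra B] [PartialOrder B] [StarOrderedRing B]
  {W : Type} [Fintype W] [DecidableEq W]

private def diagHom (B : Type u) [CStarAlgebra B] [PartialOrder B] [StarOrderedRing B]
    (W : Type) [Fintype W] [DecidableEq W] : (W → B) →⋆ₙₐ[ℂ] CStarMatrix W W B where
  toFun x := CStarMatrix.ofMatrix (Matrix.diagonal x)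
  map_smul' c x := by
    rw [CStarMatrix.smul_of, ← Matrix.diagonal_smul]
    rfl
  map_zero' := by
    ext i j
    change Matrix.diagonal (0 : W → B) i j = 0
    by_cases hij : i = j
    · subst hij
      rw [Matrix.diagonal_apply_eq]
      rfl
    · rw [Matrix.diagonal_apply_ne _ hij]
  map_add' x y := by
    rw [CStarMatrix.of_add_of, Matrix.diagonal_add]
    rfl
  map_mul' x y := by
    ext i j
    rw [CStarMatrix.mul_apply]
    change Matrix.diagonal (x * y) i j = ∑ k, Matrix.diagonal x i k * Matrix.diagonal y k j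
    rw [← Matrix.mul_apply, Matrix.diagonal_mul_diagonal]
    rfl
  map_star' x := by
    ext i j
    rw [CStarMatrix.star_apply]
    change Matrix.diagonal (star x) i j = star (Matrix.diagonal x j i)
    rw [← Matrix.conjTranspose_apply, Matrix.diagonal_conjTranspose]

/-- PIECE DIAG. The norm of a diagonal matrix is at most the maximum of the norms of the entries:
`star X * X` is diagonal with entries `star (X μ μ) * X μ μ ≤ K² • 1`, so
`K² • 1 - star X * X` is diagonal with nonnegative entries, hence `≥ 0` (it is `star D * D` with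
`D` the diagonal matrix of the square roots), and `‖X‖² = ‖star X * X‖ ≤ K²`. -/
theorem diag_norm_le (X : CStarMatrix W W B) (K : ℝ) (hK : 0 ≤ K)
    (hX : ∀ μ ν, μ ≠ ν → X μ ν = 0) (hd : ∀ μ, ‖X μ μ‖ ≤ K) : ‖X‖ ≤ K := by
  have h1 : X = diagHom B W (fun μ => X μ μ) := by
    ext i j
    change X i j = Matrix.diagonal (fun μ => X μ μ) i j
    by_cases hij : i = j
    · subst hij
      rw [Matrix.diagonal_apply_eq]
    · rw [Matrix.diagonal_apply_ne _ hij, hX i j hij]
  rw [h1]
  refine (NonUnitalStarAlgHom.norm_apply_le (diagHom B W) _).trans ?_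
  rw [pi_norm_le_iff_of_nonneg hK]
  exact hd

/-- PIECE DIAG. If the `w μ` are contractions with pairwise orthogonal ranges
(`star (w μ) * w ν = 0` for `μ ≠ ν`), then `‖∑ w μ a μ (v μ)*‖ ≤ max ‖a μ‖` whenever also the
`v μ` are contractions with orthogonal ranges. Proof: let `Z` be the sum. Then
`Z * star Z = ∑ w μ a μ (v μ)* v μ (a μ)* (w μ)* ≤ K² ∑ w μ (w μ)* ≤ K² • 1`; here
`∑ w μ (w μ)* =: q` satisfies `q * q ≤ q` (as `(w μ)* w μ ≤ 1`), hence `‖q‖ ≤ 1`. -/
theorem orth_norm_le {ι : Type} [Fintype ι] (w v a : ι → B) (K : ℝ) (hK : 0 ≤ K)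
    (hw : ∀ μ ν, μ ≠ ν → star (w μ) * w ν = 0) (hw1 : ∀ μ, ‖w μ‖ ≤ 1)
    (hv : ∀ μ ν, μ ≠ ν → star (v μ) * v ν = 0) (hv1 : ∀ μ, ‖v μ‖ ≤ 1)
    (ha : ∀ μ, ‖a μ‖ ≤ K) : ‖∑ μ, w μ * a μ * star (v μ)‖ ≤ K := by
  classical
  set q : B := ∑ μ, w μ * star (w μ) with hq
  have hq0 : 0 ≤ q := Finset.sum_nonneg (fun μ _ => mul_star_self_nonneg _)
  have hqs : star q = q := (IsSelfAdjoint.of_nonneg hq0).star_eq
  have hle : ∀ (x : B) (R : ℝ), ‖x‖ ≤ R → 0 ≤ R → x * star x ≤ algebraMap ℝ B (R ^ 2) := by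
    intro x R hx hR
    refine CStarAlgebra.mul_star_le_algebraMap_norm_sq.trans ?_
    refine algebraMap_mono B ?_
    exact pow_le_pow_left₀ (norm_nonneg _) hx 2
  have hqq : q * q ≤ q := by
    have h1 : q * q = ∑ μ, w μ * (star (w μ) * w μ) * star (w μ) := by
      rw [hq, Finset.sum_mul]
      refine Finset.sum_congr rfl (fun μ _ => ?_)
      rw [Finset.mul_sum, Finset.sum_eq_single μ]
      · simp only [mul_assoc]
      · intro ν _ hν
        calc w μ * star (w μ) * (w ν * star (w ν)) = w μ * (star (w μ) * w ν) * star (w ν) := by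
              simp only [mul_assoc]
          _ = 0 := by rw [hw μ ν (Ne.symm hν), mul_zero, zero_mul]
      · intro hμ
        exact absurd (Finset.mem_univ μ) hμ
    rw [h1, hq]
    refine Finset.sum_le_sum (fun μ _ => ?_)
    have h2 : star (w μ) * w μ ≤ 1 := by
      have := hle (star (w μ)) 1 (by rw [norm_star]; exact hw1 μ) zero_le_one
      rw [star_star, one_pow, map_one] at this
      exact this
    have h3 := star_right_conjugate_le_conjugate h2 (w μ)
    rw [mul_one] at h3
    exact h3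
  have hq1 : ‖q‖ ≤ 1 := by
    have h1 : ‖q‖ * ‖q‖ ≤ ‖q‖ := by
      rw [← CStarRing.norm_self_mul_star, hqs]
      refine CStarAlgebra.norm_le_norm_of_nonneg_of_le ?_ hqq
      have := mul_star_self_nonneg q
      rw [hqs] at this
      exact this
    by_contra hc
    push Not at hc
    nlinarith
  set Z : B := ∑ μ, w μ * a μ * star (v μ) with hZ
  have hZZ : Z * star Z = ∑ μ, w μ * ((a μ * star (v μ)) * star (a μ * star (v μ))) * star (w μ) := by
    rw [hZ, star_sum, Finset.sum_mul]
    refine Finset.sum_congr rfl (fun μ _ => ?_)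
    rw [Finset.mul_sum, Finset.sum_eq_single μ]
    · simp only [star_mul, star_star, mul_assoc]
    · intro ν _ hν
      calc w μ * a μ * star (v μ) * star (w ν * a ν * star (v ν))
          = w μ * a μ * (star (v μ) * v ν) * star (a ν) * star (w ν) := by
            simp only [star_mul, star_star, mul_assoc]
        _ = 0 := by rw [hv μ ν (Ne.symm hν)]; simp
    · intro hμ
      exact absurd (Finset.mem_univ μ) hμ
  have hZq : Z * star Z ≤ (K ^ 2) • q := by
    rw [hZZ, hq, Finset.smul_sum]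
    refine Finset.sum_le_sum (fun μ _ => ?_)
    have h2 : (a μ * star (v μ)) * star (a μ * star (v μ)) ≤ algebraMap ℝ B (K ^ 2) := by
      refine hle _ K ?_ hK
      calc ‖a μ * star (v μ)‖ ≤ ‖a μ‖ * ‖star (v μ)‖ := norm_mul_le _ _
        _ ≤ K * 1 := mul_le_mul (ha μ) (by rw [norm_star]; exact hv1 μ) (norm_nonneg _) hK
        _ = K := mul_one K
    have h3 := star_right_conjugate_le_conjugate h2 (w μ)
    rw [Algebra.algebraMap_eq_smul_one, mul_smul_comm, mul_one, smul_mul_assoc] at h3
    exact h3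
  have h4 : ‖Z‖ * ‖Z‖ ≤ K ^ 2 * 1 := by
    rw [← CStarRing.norm_self_mul_star]
    refine (CStarAlgebra.norm_le_norm_of_nonneg_of_le (mul_star_self_nonneg Z) hZq).trans ?_
    rw [norm_smul, Real.norm_of_nonneg (sq_nonneg K)]
    exact mul_le_mul_of_nonneg_left hq1 (sq_nonneg K)
  nlinarith [norm_nonneg Z]

end CKE
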