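import Pool.Agent.Lib_MP_e09b77_an.CornerA
import Pool.Agent.Lib_MP_e09b77_an.Diag

/-!
# The amplified system
-/

open scoped CStarAlgebra ComplexOrder

namespace CKE

universe u

section proj

variable {M : Type*} [CStarAlgebra M] [PartialOrder M] [StarOrderedRing M]

/-- `‖a - p a p‖ ≤ 2 √c √K` if `(1 - p) a (1 - p) ≤ c` and `‖a‖ ≤ K`. -/
theorem norm_sub_compress_le (a p : M) (ha : 0 ≤ a) (hp : p * p = p) (hps : star p = p)
    (c K : ℝ) (hc : 0 ≤ c) (hK : ‖a‖ ≤ K)
    (h : (1 - p) * a * (1 - p) ≤ (c : ℂ) • (1 : M)) :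
    ‖a - p * a * p‖ ≤ 2 * (√c * √K) := by
  obtain ⟨r, hr⟩ := CStarAlgebra.nonneg_iff_eq_star_mul_self.mp ha
  have hp1 : ‖p‖ ≤ 1 := by
    have h1 : ‖p‖ * ‖p‖ = ‖p‖ := by
      have := CStarRing.norm_star_mul_self (x := p)
      rw [hps, hp] at this
      exact this.symm
    nlinarith [norm_nonneg p, sq_nonneg (‖p‖ - 1)]
  have hq : star (1 - p) = 1 - p := by simp [hps]
  have hone : ‖(1 : M)‖ ≤ 1 := by
    have h1 : ‖(1 : M)‖ * ‖(1 : M)‖ = ‖(1 : M)‖ := by
      have := CStarRing.norm_star_mul_self (x := (1 : M))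
      simpa using this.symm
    nlinarith [norm_nonneg (1 : M), sq_nonneg (‖(1 : M)‖ - 1)]
  have hrq : ‖r * (1 - p)‖ ≤ √c := by
    apply Real.le_sqrt_of_sq_le
    have h1 : star (r * (1 - p)) * (r * (1 - p)) = (1 - p) * a * (1 - p) := by
      rw [hr, star_mul, hq]; simp only [mul_assoc]
    have h2 : ‖r * (1 - p)‖ ^ 2 = ‖(1 - p) * a * (1 - p)‖ := by
      rw [← h1, CStarRing.norm_star_mul_self, sq]
    rw [h2]
    have h3 : 0 ≤ (1 - p) * a * (1 - p) := by rw [← h1]; exact star_mul_self_nonneg _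
    calc ‖(1 - p) * a * (1 - p)‖ ≤ ‖(c : ℂ) • (1 : M)‖ :=
          CStarAlgebra.norm_le_norm_of_nonneg_of_le h3 h
      _ ≤ c * 1 := by
          rw [norm_smul, Complex.norm_real, Real.norm_of_nonneg hc]
          gcongr
      _ = c := mul_one c
  have hrK : ‖r‖ ≤ √K := by
    apply Real.le_sqrt_of_sq_le
    rw [sq, ← CStarRing.norm_star_mul_self, ← hr]
    exact hK
  have e1 : a - p * a * p = a * (1 - p) + (1 - p) * a * p := by
    simp only [mul_sub, sub_mul, mul_one, one_mul]; abel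
  have e2 : a * (1 - p) = star r * (r * (1 - p)) := by rw [hr]; simp only [mul_assoc]
  have e3 : (1 - p) * a * p = star (r * (1 - p)) * (r * p) := by
    rw [hr, star_mul, hq]; simp only [mul_assoc]
  have n2 : ‖a * (1 - p)‖ ≤ √c * √K := by
    rw [e2]
    calc _ ≤ ‖star r‖ * ‖r * (1 - p)‖ := norm_mul_le _ _
      _ ≤ √K * √c := by rw [norm_star]; gcongr
      _ = _ := mul_comm _ _
  have n3 : ‖(1 - p) * a * p‖ ≤ √c * √K := by
    rw [e3]
    calc _ ≤ ‖star (r * (1 - p))‖ * ‖r * p‖ := norm_mul_le _ _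
      _ ≤ √c * (√K * 1) := by
          rw [norm_star]
          gcongr
          exact (norm_mul_le _ _).trans (by gcongr)
      _ = _ := by ring
  rw [e1]
  calc _ ≤ _ := norm_add_le _ _
    _ ≤ √c * √K + √c * √K := add_le_add n2 n3
    _ = _ := by ring

theorem one_norm_le : ‖(1 : M)‖ ≤ 1 := by
  have h1 : ‖(1 : M)‖ * ‖(1 : M)‖ = ‖(1 : M)‖ := by
    have := CStarRing.norm_star_mul_self (x := (1 : M))
    simpa using this.symm
  nlinarith [norm_nonneg (1 : M), sq_nonneg (‖(1 : M)‖ - 1)]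

end proj

variable {B : Type u} [CStarAlgebra B] [PartialOrder B] [StarOrderedRing B]
  {W : Type} [Fintype W] [DecidableEq W]

/-- The downward map of the amplified system. -/
noncomputable def psiW (W : Type) [Fintype W] [DecidableEq W] {d : ℕ} (s : DecSystem B d) :
    CStarMatrix W W B →CP
      ((j : Fin s.m) → CStarMatrix (W × Fin (s.n j)) (W × Fin (s.n j)) ℂ) :=
  cpComp (sigc W s.n) (ampl W s.ψ)

/-- The parts of the upward map of the amplified system. -/
noncomputable def phiW (W : Type) [Fintype W] [DecidableEq W] {d : ℕ} (s : DecSystem B d)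
    (i : Fin (d + 1)) :
    ((j : Fin s.m) → CStarMatrix (W × Fin (s.n j)) (W × Fin (s.n j)) ℂ) →CP
      CStarMatrix W W B :=
  cpComp (ampl W (phic s i)) (sigcs W s.n)

theorem phiW_psiW {d : ℕ} (s : DecSystem B d) (i : Fin (d + 1)) (X : CStarMatrix W W B) :
    phiW W s i (psiW W s X) = ampl W (phic s i) (ampl W s.ψ X) := by
  simp only [phiW, psiW, cpComp_apply, sigc_apply, sigcs_apply, StarAlgEquiv.symm_apply_apply]

theorem sum_phiW_psiW {d : ℕ} (s : DecSystem B d) (X : CStarMatrix W W B) :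
    ∑ i, phiW W s i (psiW W s X) = ampl W s.φ (ampl W s.ψ X) := by
  simp only [phiW_psiW]
  ext μ ν
  rw [ampl_apply, ampl_apply, ← phic_sum]
  have : ∀ (t : Finset (Fin (d + 1))), (∑ i ∈ t, ampl W (phic s i) (ampl W s.ψ X)) μ ν
      = ∑ i ∈ t, phic s i (s.ψ (X μ ν)) := by
    classical
    intro t
    induction t using Finset.induction_on with
    | empty => simp
    | insert a t ha ih =>
      rw [Finset.sum_insert ha, Finset.sum_insert ha, CStarMatrix.add_apply, ih]
      rfl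
  exact this _

theorem psiW_one_norm {d : ℕ} (s : DecSystem B d) :
    ‖psiW W s 1‖ ≤ 1 := by
  have h1 : ‖ampl W s.ψ 1‖ ≤ 1 := by
    apply diag_norm_le (B := FD s.n) _ _ zero_le_one
    · intro μ ν h
      rw [ampl_apply, CStarMatrix.one_apply_ne h, map_zero]
    · intro μ
      rw [ampl_apply, CStarMatrix.one_apply_eq]
      exact (s.ψ_contractive 1).trans one_norm_le
  have h2 : ‖psiW W s 1‖ ≤ ‖ampl W s.ψ 1‖ := by
    rw [psiW, cpComp_apply, sigc_apply]
    exact (StarAlgEquiv.norm_map (sig W s.n) _).le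
  exact h2.trans h1

theorem psiW_norm {d : ℕ} (s : DecSystem B d) (X : CStarMatrix W W B) :
    ‖psiW W s X‖ ≤ ‖X‖ :=
  cp_norm_le _ (psiW_one_norm s) X

theorem phiW_one_norm {d : ℕ} (s : DecSystem B d) (i : Fin (d + 1)) :
    ‖phiW W s i 1‖ ≤ 1 := by
  rw [phiW, cpComp_apply, sigcs_apply, map_one]
  apply diag_norm_le _ _ zero_le_one
  · intro μ ν h
    rw [ampl_apply, CStarMatrix.one_apply_ne h, map_zero]
  · intro μ
    rw [ampl_apply, CStarMatrix.one_apply_eq]
    exact (phic_norm s i 1).trans one_norm_le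

theorem phiW_norm {d : ℕ} (s : DecSystem B d) (i : Fin (d + 1))
    (Y : (j : Fin s.m) → CStarMatrix (W × Fin (s.n j)) (W × Fin (s.n j)) ℂ) :
    ‖phiW W s i Y‖ ≤ ‖Y‖ :=
  cp_norm_le _ (phiW_one_norm s i) Y

theorem phiW_orderZero {d : ℕ} (s : DecSystem B d) (i : Fin (d + 1)) :
    OrderZero (phiW W s i) := by
  intro x y hx hy hxy
  rw [phiW, cpComp_apply, cpComp_apply]
  apply oz_ampl (spanProj_FD s.n) (phic s i) (phic_orderZero s i) W
  · exact cp_nonneg _ hx
  · exact cp_nonneg _ hy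
  · rw [sigcs_apply, sigcs_apply, ← map_mul, hxy, map_zero]

theorem phiW_eq_zero {d : ℕ} (s : DecSystem B d) (i : Fin (d + 1))
    (Y : (j : Fin s.m) → CStarMatrix (W × Fin (s.n j)) (W × Fin (s.n j)) ℂ)
    (h : ∀ j, s.κ j = i → Y j = 0) : phiW W s i Y = 0 := by
  rw [phiW, cpComp_apply, sigcs_apply]
  ext μ ν
  rw [ampl_apply]
  apply phic_eq_zero
  intro j hj
  ext a b
  have : ((sig W s.n).symm Y) μ ν j a b = Y j (μ, a) (ν, b) := rfl
  rw [this, h j hj]
  rfl

end CKE
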