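import Mathlib

/-!
# Coloured (nuclear) entropy and Cuntz–Krieger algebras: definitions

MP_e09b77_an.
-/

open scoped CStarAlgebra ComplexOrder

namespace CKE

universe u

/-- The finite-dimensional `C*`-algebra `⨁ j, M_{n j}(ℂ)` (with the maximum norm). -/
abbrev FD {m : ℕ} (n : Fin m → ℕ) : Type :=
  (j : Fin m) → CStarMatrix (Fin (n j)) (Fin (n j)) ℂ

/-- For a colouring `κ` of the blocks of `F = ⨁ j, M_{n j}(ℂ)` by the colours `0, …, d`,
the element `x` belongs to the summand `F^(i)` (all blocks of other colours vanish). -/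
def OfColour {m d : ℕ} {n : Fin m → ℕ} (κ : Fin m → Fin (d + 1)) (i : Fin (d + 1))
    (x : FD n) : Prop :=
  ∀ j, κ j ≠ i → x j = 0

/-- A triple `(F, ψ, φ)` with `F = F^(0) ⊕ … ⊕ F^(d)` a finite-dimensional `C*`-algebra,
`ψ : B → F` completely positive contractive, `φ : F → B` completely positive, and each
restriction `φ|F^(i)` contractive and of order zero. -/
structure DecSystem (B : Type u) [CStarAlgebra B] [PartialOrder B] [StarOrderedRing B]
    (d : ℕ) where
  /-- the number of blocks of `F` -/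
  m : ℕ
  /-- the block sizes -/
  n : Fin m → ℕ
  /-- the colours of the blocks -/
  κ : Fin m → Fin (d + 1)
  /-- the downward map -/
  ψ : B →CP FD n
  /-- the upward map -/
  φ : FD n →CP B
  ψ_contractive : ∀ b, ‖ψ b‖ ≤ ‖b‖
  φ_contractive : ∀ i x, OfColour κ i x → ‖φ x‖ ≤ ‖x‖
  φ_orderZero : ∀ i x y, OfColour κ i x → OfColour κ i y → 0 ≤ x → 0 ≤ y → x * y = 0 →
    φ x * φ y = 0

/-- The rank of `F ≅ ⨁ j, M_{n j}(ℂ)` is `∑ j, n j`. -/
def DecSystem.rank {B : Type u} [CStarAlgebra B] [PartialOrder B] [StarOrderedRing B]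
    {d : ℕ} (s : DecSystem B d) : ℕ :=
  ∑ j, s.n j

/-- The system approximates the identity on `G` up to `ε`. -/
def DecSystem.Approx {B : Type u} [CStarAlgebra B] [PartialOrder B] [StarOrderedRing B]
    {d : ℕ} (s : DecSystem B d) (G : Set B) (ε : ℝ) : Prop :=
  ∀ b ∈ G, ‖s.φ (s.ψ b) - b‖ < ε

/-- `r_nuc(d, G, ε)`: the least rank of a `(d, G, ε)`-decomposable system. -/
noncomputable def rnuc {B : Type u} [CStarAlgebra B] [PartialOrder B] [StarOrderedRing B]
    (d : ℕ) (G : Set B) (ε : ℝ) : ℕ∞ :=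
  ⨅ (s : DecSystem B d) (_ : s.Approx G ε), (s.rank : ℕ∞)

/-- The nuclear dimension of `B` is at most `d`. -/
def NucDimLE (B : Type u) [CStarAlgebra B] [PartialOrder B] [StarOrderedRing B]
    (d : ℕ) : Prop :=
  ∀ (G : Finset B) (ε : ℝ), 0 < ε → ∃ s : DecSystem B d, s.Approx (G : Set B) ε

/-- The coloured entropy of a map `θ : B → B`, computed with `d + 1` colours. -/
noncomputable def htNuc {B : Type u} [CStarAlgebra B] [PartialOrder B] [StarOrderedRing B]
    (d : ℕ) (θ : B → B) : EReal :=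
  ⨆ (F : Finset B) (ε : ℝ) (_ : 0 < ε),
    Filter.limsup
      (fun n : ℕ =>
        ENNReal.log ((rnuc d (⋃ j : Fin n, (θ^[(j : ℕ)]) '' (F : Set B)) ε : ℕ∞) : ENNReal)
          / (n : EReal))
      Filter.atTop

/-- A Cuntz–Krieger family for the matrix `A`: partial isometries `S i` with
`∑ S i (S i)* = 1` and `(S i)* S i = ∑ j, A i j • S j (S j)*`. -/
structure CKFamily {N : ℕ} (A : Matrix (Fin N) (Fin N) ℕ) {B : Type u} [CStarAlgebra B]
    (S : Fin N → B) : Prop where
  pisom : ∀ i, S i * star (S i) * S i = S i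
  sum_one : ∑ i, S i * star (S i) = 1
  rel : ∀ i, star (S i) * S i = ∑ j, A i j • (S j * star (S j))

/-- `B` together with `S` is the Cuntz–Krieger algebra `𝒪_A`: the universal `C*`-algebra
generated by a Cuntz–Krieger family for `A`. -/
structure IsCuntzKrieger {N : ℕ} (A : Matrix (Fin N) (Fin N) ℕ) {B : Type u} [CStarAlgebra B]
    (S : Fin N → B) : Prop where
  family : CKFamily A S
  generates : (StarAlgebra.adjoin ℂ (Set.range S)).topologicalClosure = ⊤
  universal : ∀ (C : Type u) [CStarAlgebra C] (T : Fin N → C), CKFamily A T →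
    ∃ π : B →⋆ₐ[ℂ] C, ∀ i, π (S i) = T i

/-- The canonical map `θ_A(x) = ∑ i, S i x (S i)*`. -/
def theta {N : ℕ} {B : Type u} [CStarAlgebra B] (S : Fin N → B) (x : B) : B :=
  ∑ i, S i * x * star (S i)

end CKE
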