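import Pool.Agent.Lib_MP_e09b77_an.WordC

/-!
# Density of the words (piece DENS)
-/

open scoped CStarAlgebra ComplexOrder

namespace CKE

universe u

variable {N : ℕ} {A : Matrix (Fin N) (Fin N) ℕ} {B : Type u} [CStarAlgebra B]
  [PartialOrder B] [StarOrderedRing B] {S : Fin N → B}

omit [PartialOrder B] [StarOrderedRing B] in
private theorem dens_word_eq (S : Fin N → B) (n : ℕ) (μ : Fin n → Fin N) :
    word S n μ = ((List.ofFn μ).map S).prod := by
  induction n with
  | zero => simp [word]
  | succ n ih =>
    rw [word_succ, ih, List.ofFn_succ, List.map_cons, List.prod_cons]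

/-- The generating set of the span, with words written as lists. -/
private def densSet (S : Fin N → B) : Set B :=
  {x | ∃ α β : List (Fin N), α ≠ [] ∧ β ≠ [] ∧ x = (α.map S).prod * star (β.map S).prod}

omit [PartialOrder B] [StarOrderedRing B] in
private theorem dens_mem (S : Fin N → B) {α β : List (Fin N)} (ha : α ≠ []) (hb : β ≠ []) :
    (α.map S).prod * star (β.map S).prod ∈ Submodule.span ℂ (densSet S) :=
  Submodule.subset_span ⟨α, β, ha, hb, rfl⟩

omit [PartialOrder B] [StarOrderedRing B] in
private theorem dens_mul_left (h : CKFamily A S) (i j : Fin N) (γ : List (Fin N)) :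
    star (S i) * S i * ((j :: γ).map S).prod = A i j • ((j :: γ).map S).prod := by
  rw [List.map_cons, List.prod_cons, ← mul_assoc, ck_mul h, smul_mul_assoc]

omit [PartialOrder B] [StarOrderedRing B] in
private theorem dens_mul_right (h : CKFamily A S) (i j : Fin N) (γ : List (Fin N)) :
    star ((j :: γ).map S).prod * (star (S i) * S i) = A i j • star ((j :: γ).map S).prod := by
  have h1 := congrArg star (dens_mul_left h i j γ)
  rw [star_mul, star_mul, star_star, star_nsmul] at h1
  exact h1

omit [PartialOrder B] [StarOrderedRing B] in
private theorem dens_mul_aux (h : CKFamily A S) (β : List (Fin N)) :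
    ∀ γ α δ : List (Fin N), β ≠ [] → γ ≠ [] → α ≠ [] → δ ≠ [] →
      (α.map S).prod * (star (β.map S).prod * (γ.map S).prod) * star (δ.map S).prod ∈
        Submodule.span ℂ (densSet S) := by
  induction β with
  | nil => intro _ _ _ hb; exact absurd rfl hb
  | cons i β ih =>
    intro γ α δ _ hγ hα hδ
    match γ, hγ with
    | j :: γ, _ =>
      by_cases hij : i = j
      · subst hij
        match β, γ with
        | [], [] =>
          have e : (α.map S).prod * (star (([i] : List (Fin N)).map S).prod *
              (([i] : List (Fin N)).map S).prod) * star (δ.map S).prod =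
              ∑ k, A i k • (((α ++ [k]).map S).prod * star ((δ ++ [k]).map S).prod) := by
            simp only [List.map_cons, List.map_nil, List.prod_cons, List.prod_nil, mul_one,
              List.map_append, List.prod_append]
            rw [h.rel i, Finset.mul_sum, Finset.sum_mul]
            refine Finset.sum_congr rfl (fun k _ => ?_)
            rw [mul_smul_comm, smul_mul_assoc, star_mul]
            congr 1
            simp only [mul_assoc]
          rw [e]
          refine Submodule.sum_mem _ (fun k _ => ?_)
          rw [← Nat.cast_smul_eq_nsmul ℂ]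
          exact Submodule.smul_mem _ _ (dens_mem S (by simp) (by simp))
        | [], j :: γ =>
          have e : (α.map S).prod * (star (([i] : List (Fin N)).map S).prod *
              ((i :: j :: γ).map S).prod) * star (δ.map S).prod =
              A i j • (((α ++ j :: γ).map S).prod * star (δ.map S).prod) := by
            have h1 := dens_mul_left h i j γ
            rw [List.map_cons (l := j :: γ), List.prod_cons]
            simp only [List.map_cons, List.map_nil, List.prod_cons, List.prod_nil, mul_one,
              List.map_append, List.prod_append] at h1 ⊢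
            rw [← mul_assoc (star (S i)), h1, mul_smul_comm, smul_mul_assoc]
          rw [e, ← Nat.cast_smul_eq_nsmul ℂ]
          exact Submodule.smul_mem _ _ (dens_mem S (by simp) hδ)
        | j :: β, [] =>
          have e : (α.map S).prod * (star ((i :: j :: β).map S).prod *
              (([i] : List (Fin N)).map S).prod) * star (δ.map S).prod =
              A i j • ((α.map S).prod * star ((δ ++ j :: β).map S).prod) := by
            have h1 := dens_mul_right h i j β
            rw [List.map_cons (l := j :: β), List.prod_cons, star_mul]
            simp only [List.map_cons, List.map_nil, List.prod_cons, List.prod_nil, mul_one,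
              List.map_append, List.prod_append] at h1 ⊢
            rw [mul_assoc (star (S j * (β.map S).prod)), h1, mul_smul_comm, smul_mul_assoc,
              star_mul (List.map S δ).prod, mul_assoc]
          rw [e, ← Nat.cast_smul_eq_nsmul ℂ]
          exact Submodule.smul_mem _ _ (dens_mem S hα (by simp))
        | k :: β, j :: γ =>
          have e : (α.map S).prod * (star ((i :: k :: β).map S).prod *
              ((i :: j :: γ).map S).prod) * star (δ.map S).prod =
              A i j • ((α.map S).prod * (star ((k :: β).map S).prod * ((j :: γ).map S).prod) *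
                star (δ.map S).prod) := by
            have h1 := dens_mul_left h i j γ
            have e1 : ((i :: k :: β).map S).prod = S i * ((k :: β).map S).prod := by
              rw [List.map_cons, List.prod_cons]
            have e2 : ((i :: j :: γ).map S).prod = S i * ((j :: γ).map S).prod := by
              rw [List.map_cons, List.prod_cons]
            have e3 : star ((i :: k :: β).map S).prod * ((i :: j :: γ).map S).prod =
                A i j • (star ((k :: β).map S).prod * ((j :: γ).map S).prod) := by
              rw [e1, e2, star_mul, mul_assoc, ← mul_assoc (star (S i)), h1, mul_smul_comm]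
            rw [e3, mul_smul_comm, smul_mul_assoc]
          rw [e, ← Nat.cast_smul_eq_nsmul ℂ]
          exact Submodule.smul_mem _ _ (ih (j :: γ) α δ (by simp) (by simp) hα hδ)
      · have e : star ((i :: β).map S).prod * ((j :: γ).map S).prod = 0 := by
          rw [List.map_cons, List.prod_cons, List.map_cons, List.prod_cons, star_mul, mul_assoc,
            ← mul_assoc (star (S i)), ck_orth h hij, zero_mul, mul_zero]
        rw [e, mul_zero, zero_mul]
        exact Submodule.zero_mem _

omit [PartialOrder B] [StarOrderedRing B] in
private theorem dens_mul_mem (h : CKFamily A S) {x y : B}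
    (hx : x ∈ Submodule.span ℂ (densSet S)) (hy : y ∈ Submodule.span ℂ (densSet S)) :
    x * y ∈ Submodule.span ℂ (densSet S) := by
  induction hx using Submodule.span_induction with
  | mem x hx =>
    obtain ⟨α, β, ha, hb, rfl⟩ := hx
    induction hy using Submodule.span_induction with
    | mem y hy =>
      obtain ⟨γ, δ, hc, hd, rfl⟩ := hy
      have := dens_mul_aux h β γ α δ hb hc ha hd
      have e : (α.map S).prod * star (β.map S).prod * ((γ.map S).prod * star (δ.map S).prod) =
          (α.map S).prod * (star (β.map S).prod * (γ.map S).prod) * star (δ.map S).prod := by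
        simp only [mul_assoc]
      rw [e]
      exact this
    | zero => rw [mul_zero]; exact Submodule.zero_mem _
    | add y z _ _ hy hz => rw [mul_add]; exact Submodule.add_mem _ hy hz
    | smul c y _ hy => rw [mul_smul_comm]; exact Submodule.smul_mem _ _ hy
  | zero => rw [zero_mul]; exact Submodule.zero_mem _
  | add x z _ _ hx hz => rw [add_mul]; exact Submodule.add_mem _ hx hz
  | smul c x _ hx => rw [smul_mul_assoc]; exact Submodule.smul_mem _ _ hx

omit [PartialOrder B] [StarOrderedRing B] in
private theorem dens_one_mem (h : CKFamily A S) : (1 : B) ∈ Submodule.span ℂ (densSet S) := by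
  rw [← h.sum_one]
  refine Submodule.sum_mem _ (fun i _ => ?_)
  have := dens_mem S (α := [i]) (β := [i]) (by simp) (by simp)
  simpa using this

omit [PartialOrder B] [StarOrderedRing B] in
private theorem dens_star_mem {x : B} (hx : x ∈ Submodule.span ℂ (densSet S)) :
    star x ∈ Submodule.span ℂ (densSet S) := by
  induction hx using Submodule.span_induction with
  | mem x hx =>
    obtain ⟨α, β, ha, hb, rfl⟩ := hx
    rw [star_mul, star_star]
    exact dens_mem S hb ha
  | zero => rw [star_zero]; exact Submodule.zero_mem _
  | add x y _ _ hx hy => rw [star_add]; exact Submodule.add_mem _ hx hy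
  | smul c x _ hx => rw [star_smul]; exact Submodule.smul_mem _ _ hx

omit [PartialOrder B] [StarOrderedRing B] in
private theorem dens_gen_mem (h : CKFamily A S) (i : Fin N) :
    S i ∈ Submodule.span ℂ (densSet S) := by
  have e : S i = ∑ j, S i * (S j * star (S j)) := by
    rw [← Finset.mul_sum, h.sum_one, mul_one]
  rw [e]
  refine Submodule.sum_mem _ (fun j _ => ?_)
  have := dens_mem S (α := [i, j]) (β := [j]) (by simp) (by simp)
  simpa [mul_assoc] using this

/-- PIECE DENS. The linear span of the elements `S_α S_β*` with `|α|, |β| ≥ 1` is a unital star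
subalgebra containing the generators, hence dense. (`1 = ∑ S i (S i)*`; `S i = ∑_j S i S j (S j)*`;
products: `S_β* S_γ` is `S_γ'` , `S_β'*` or `(S t)* S t = ∑ A t j S j (S j)*` or `0`, where one word
extends the other.) -/
theorem dense_words (h : CKFamily A S) (hA : ∀ i j, A i j = 0 ∨ A i j = 1)
    (hgen : (StarAlgebra.adjoin ℂ (Set.range S)).topologicalClosure = ⊤) (f : B) (ε : ℝ)
    (hε : 0 < ε) :
    ∃ (K : ℕ) (c : Fin K → ℂ) (a b : Fin K → ℕ) (α : ∀ k, Fin (a k) → Fin N)
      (β : ∀ k, Fin (b k) → Fin N), (∀ k, 1 ≤ a k) ∧ (∀ k, 1 ≤ b k) ∧
      ‖f - ∑ k, c k • (word S (a k) (α k) * star (word S (b k) (β k)))‖ < ε := by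
  have _ := hA
  have hsub : ∀ x ∈ StarAlgebra.adjoin ℂ (Set.range S), x ∈ Submodule.span ℂ (densSet S) := by
    intro x hx
    induction hx using StarAlgebra.adjoin_induction with
    | mem x hx =>
      obtain ⟨i, rfl⟩ := hx
      exact dens_gen_mem h i
    | algebraMap r =>
      rw [Algebra.algebraMap_eq_smul_one]
      exact Submodule.smul_mem _ _ (dens_one_mem h)
    | add x y _ _ hx hy => exact Submodule.add_mem _ hx hy
    | mul x y _ _ hx hy => exact dens_mul_mem h hx hy
    | star x _ hx => exact dens_star_mem hx
  have hf : f ∈ closure ((StarAlgebra.adjoin ℂ (Set.range S) : StarSubalgebra ℂ B) : Set B) := by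
    have h1 : f ∈ (StarAlgebra.adjoin ℂ (Set.range S)).topologicalClosure := by
      rw [hgen]
      exact StarSubalgebra.mem_top
    exact h1
  obtain ⟨x, hx, hfx⟩ := Metric.mem_closure_iff.1 hf ε hε
  obtain ⟨K, c, g, hg⟩ := Submodule.mem_span_set'.1 (hsub x hx)
  choose α β ha hb hαβ using fun k => (g k).2
  refine ⟨K, c, fun k => (α k).length, fun k => (β k).length, fun k => (α k).get,
    fun k => (β k).get, fun k => ?_, fun k => ?_, ?_⟩
  · exact List.length_pos_of_ne_nil (ha k)
  · exact List.length_pos_of_ne_nil (hb k)
  · have e : ∑ k, c k • (word S (α k).length (α k).get * star (word S (β k).length (β k).get)) =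
        x := by
      rw [← hg]
      refine Finset.sum_congr rfl (fun k _ => ?_)
      rw [dens_word_eq, dens_word_eq, List.ofFn_get, List.ofFn_get, hαβ k]
    rw [e, ← dist_eq_norm]
    exact hfx

end CKE
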