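import Pool.Agent.Lib_MP_e09b77_an.GrowthA

/-!
# Growth rate (piece GROWTHB)
-/

open Filter Topology

namespace CKE

variable {N : ℕ} (A : Matrix (Fin N) (Fin N) ℕ)

section

attribute [local instance] Matrix.linftyOpNormedRing Matrix.linftyOpNormedAlgebra
  Matrix.linfty_opNormOneClass

open scoped NNReal

private lemma gb_norm_le (B : Matrix (Fin N) (Fin N) ℕ) :
    ‖(B.map (Nat.cast : ℕ → ℂ) : Matrix (Fin N) (Fin N) ℂ)‖ ≤ ((∑ i, ∑ j, B i j : ℕ) : ℝ) := by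
  rw [Matrix.linfty_opNorm_def]
  have h1 : ((Finset.univ : Finset (Fin N)).sup fun i => ∑ j, ‖(B.map (Nat.cast : ℕ → ℂ)) i j‖₊) ≤
      ((∑ i, ∑ j, B i j : ℕ) : ℝ≥0) := by
    refine Finset.sup_le fun i _ => ?_
    have h2 : ∑ j, ‖(B.map (Nat.cast : ℕ → ℂ)) i j‖₊ = ((∑ j, B i j : ℕ) : ℝ≥0) := by
      rw [Nat.cast_sum]
      refine Finset.sum_congr rfl fun j _ => ?_
      rw [Matrix.map_apply]
      exact Complex.nnnorm_natCast _
    rw [h2]
    have h3 : ∑ j, B i j ≤ ∑ i, ∑ j, B i j :=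
      Finset.single_le_sum (f := fun i => ∑ j, B i j) (fun _ _ => Nat.zero_le _) (Finset.mem_univ i)
    exact_mod_cast h3
  exact_mod_cast h1

private lemma gb_le_norm (B : Matrix (Fin N) (Fin N) ℕ) :
    ((∑ i, ∑ j, B i j : ℕ) : ℝ) ≤ N * ‖(B.map (Nat.cast : ℕ → ℂ) : Matrix (Fin N) (Fin N) ℂ)‖ := by
  rw [Matrix.linfty_opNorm_def]
  set s := ((Finset.univ : Finset (Fin N)).sup fun i => ∑ j, ‖(B.map (Nat.cast : ℕ → ℂ)) i j‖₊) with hs
  have h1 : ∀ i : Fin N, ((∑ j, B i j : ℕ) : ℝ≥0) ≤ s := by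
    intro i
    have h2 : ∑ j, ‖(B.map (Nat.cast : ℕ → ℂ)) i j‖₊ = ((∑ j, B i j : ℕ) : ℝ≥0) := by
      rw [Nat.cast_sum]
      refine Finset.sum_congr rfl fun j _ => ?_
      rw [Matrix.map_apply]
      exact Complex.nnnorm_natCast _
    rw [← h2]
    exact Finset.le_sup (f := fun i => ∑ j, ‖(B.map (Nat.cast : ℕ → ℂ)) i j‖₊) (Finset.mem_univ i)
  have h3 : ((∑ i, ∑ j, B i j : ℕ) : ℝ≥0) ≤ N * s := by
    rw [Nat.cast_sum]
    refine (Finset.sum_le_sum fun i _ => h1 i).trans ?_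
    rw [Finset.sum_const, Finset.card_univ, Fintype.card_fin, nsmul_eq_mul]
  exact_mod_cast h3

private lemma gb_pow (n : ℕ) :
    (A.map (Nat.cast : ℕ → ℂ) : Matrix (Fin N) (Fin N) ℂ) ^ n = (A ^ n).map (Nat.cast : ℕ → ℂ) := by
  have h := map_pow (Nat.castRingHom ℂ).mapMatrix A n
  rw [RingHom.mapMatrix_apply, RingHom.mapMatrix_apply] at h
  exact h.symm

/-- the core: real limits -/
private lemma gb_core (hN : 0 < N) (hA : ∀ i j, A i j = 0 ∨ A i j = 1)
    (hrow : ∀ i, ∃ j, A i j = 1) :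
    ∃ r : ℝ, 1 ≤ r ∧ spectralRadius ℂ (A.map (Nat.cast : ℕ → ℂ) : Matrix (Fin N) (Fin N) ℂ) =
      ENNReal.ofReal r ∧
      Tendsto (fun n : ℕ => Real.log ((adm A n).card : ℝ) / (n : ℝ)) atTop (𝓝 (Real.log r)) := by
  have : Nonempty (Fin N) := ⟨⟨0, hN⟩⟩
  set a : Matrix (Fin N) (Fin N) ℂ := A.map (Nat.cast : ℕ → ℂ) with ha
  have : CompleteSpace (Matrix (Fin N) (Fin N) ℂ) := FiniteDimensional.complete ℂ _
  have hG := spectrum.pow_norm_pow_one_div_tendsto_nhds_spectralRadius a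
  have hNr : (0 : ℝ) < N := by exact_mod_cast hN
  have hN1 : (1 : ℝ) ≤ N := by exact_mod_cast hN
  have hb : ∀ n, ‖a ^ n‖ ≤ ((adm A (n + 1)).card : ℝ) := by
    intro n
    rw [adm_card A hA n, ha, gb_pow]
    exact gb_norm_le _
  have hb' : ∀ n, ((adm A (n + 1)).card : ℝ) ≤ N * ‖a ^ n‖ := by
    intro n
    rw [adm_card A hA n, ha, gb_pow]
    exact gb_le_norm _
  have hcard : ∀ n, (1 : ℝ) ≤ ((adm A n).card : ℝ) := by
    intro n
    exact_mod_cast adm_card_pos A hN hrow n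
  have hν : ∀ n, 1 / (N : ℝ) ≤ ‖a ^ n‖ := by
    intro n
    rw [div_le_iff₀ hNr, mul_comm]
    exact (hcard (n + 1)).trans (hb' n)
  have hν0 : ∀ n, 0 < ‖a ^ n‖ := fun n => lt_of_lt_of_le (by positivity) (hν n)
  have hfin : spectralRadius ℂ a ≠ ⊤ := by
    have h1 := spectrum.spectralRadius_le_nnnorm (𝕜 := ℂ) a
    exact ne_top_of_le_ne_top ENNReal.coe_ne_top h1
  set r : ℝ := (spectralRadius ℂ a).toReal with hr
  have hlim : Tendsto (fun n : ℕ => ‖a ^ n‖ ^ (1 / n : ℝ)) atTop (𝓝 r) := by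
    have h1 := (ENNReal.tendsto_toReal hfin).comp hG
    refine h1.congr fun n => ?_
    simp only [Function.comp]
    rw [ENNReal.toReal_ofReal]
    positivity
  have hone : Tendsto (fun n : ℕ => (1 / (N : ℝ)) ^ (1 / n : ℝ)) atTop (𝓝 1) := by
    have h1 : Tendsto (fun n : ℕ => (1 / n : ℝ)) atTop (𝓝 0) := tendsto_one_div_atTop_nhds_zero_nat
    have h2 := (Real.continuous_const_rpow (by positivity : (1 / (N : ℝ)) ≠ 0)).tendsto 0
    rw [Real.rpow_zero] at h2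
    exact h2.comp h1
  have hr1 : 1 ≤ r := by
    refine le_of_tendsto_of_tendsto' hone hlim fun n => ?_
    exact Real.rpow_le_rpow (by positivity) (hν n) (by positivity)
  have hlog : Tendsto (fun n : ℕ => Real.log ‖a ^ n‖ / n) atTop (𝓝 (Real.log r)) := by
    have h1 := (Real.continuousAt_log (by linarith : r ≠ 0)).tendsto.comp hlim
    refine h1.congr fun n => ?_
    simp only [Function.comp]
    rw [Real.log_rpow (hν0 n)]
    ring
  refine ⟨r, hr1, (ENNReal.ofReal_toReal hfin).symm, ?_⟩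
  have hz : Tendsto (fun n : ℕ => Real.log N / n) atTop (𝓝 0) :=
    tendsto_const_div_atTop_nhds_zero_nat _
  have hb2 : Tendsto (fun n : ℕ => Real.log ((adm A (n + 1)).card : ℝ) / n) atTop (𝓝 (Real.log r)) := by
    have h1 : Tendsto (fun n : ℕ => Real.log ‖a ^ n‖ / n + Real.log N / n) atTop
        (𝓝 (Real.log r + 0)) := hlog.add hz
    rw [add_zero] at h1
    refine tendsto_of_tendsto_of_tendsto_of_le_of_le hlog h1 (fun n => ?_) (fun n => ?_)
    · exact div_le_div_of_nonneg_right (Real.log_le_log (hν0 n) (hb n)) (Nat.cast_nonneg n)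
    · have h2 : Real.log ((adm A (n + 1)).card : ℝ) ≤ Real.log ‖a ^ n‖ + Real.log N := by
        rw [← Real.log_mul (hν0 n).ne' hNr.ne', mul_comm]
        exact Real.log_le_log (lt_of_lt_of_le one_pos (hcard _)) (hb' n)
      show Real.log ((adm A (n + 1)).card : ℝ) / n ≤ Real.log ‖a ^ n‖ / n + Real.log N / n
      rw [← add_div]
      exact div_le_div_of_nonneg_right h2 (Nat.cast_nonneg n)
  rw [← tendsto_add_atTop_iff_nat 1]
  have h3 : Tendsto (fun n : ℕ => Real.log ((adm A (n + 1)).card : ℝ) / n * ((n : ℝ) / (n + 1))) atTop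
      (𝓝 (Real.log r * 1)) := hb2.mul (tendsto_natCast_div_add_atTop 1)
  rw [mul_one] at h3
  refine h3.congr' ?_
  filter_upwards [eventually_ge_atTop 1] with n hn
  have hn0 : (n : ℝ) ≠ 0 := by exact_mod_cast (by omega : n ≠ 0)
  push_cast
  field_simp

end

/-- PIECE GROWTHB. `(1/n) log #adm A n → log r(A)`: Gelfand's formula
`spectrum.pow_nnnorm_pow_one_div_tendsto_nhds_spectralRadius` in `Matrix (Fin N) (Fin N) ℂ` with the
operator norm `Matrix.linftyOpNormedAlgebra` (local instances), and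
`‖A^n‖ ≤ ∑ i j, (A^n) i j ≤ N ‖A^n‖` for nonnegative matrices. -/
theorem growth (hN : 0 < N) (hA : ∀ i j, A i j = 0 ∨ A i j = 1) (hrow : ∀ i, ∃ j, A i j = 1) :
    Tendsto (fun n : ℕ => ENNReal.log ((adm A n).card : ENNReal) / (n : EReal)) atTop
      (𝓝 (ENNReal.log (spectralRadius ℂ (A.map (Nat.cast : ℕ → ℂ))))) := by
  obtain ⟨r, hr1, hr, hlim⟩ := gb_core A hN hA hrow
  rw [hr, ENNReal.log_ofReal_of_pos (by linarith)]
  have h1 : Tendsto (fun n : ℕ => ((Real.log ((adm A n).card : ℝ) / (n : ℝ) : ℝ) : EReal)) atTop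
      (𝓝 ((Real.log r : ℝ) : EReal)) := (continuous_coe_real_ereal.tendsto _).comp hlim
  refine h1.congr fun n => ?_
  have hc : 0 < (adm A n).card := adm_card_pos A hN hrow n
  have h2 : ENNReal.log ((adm A n).card : ENNReal) = ((Real.log ((adm A n).card : ℝ) : ℝ) : EReal) := by
    rw [ENNReal.log_pos_real (by exact_mod_cast hc.ne') (ENNReal.natCast_ne_top _)]
    simp
  rw [h2, EReal.coe_div]
  rfl

/-- PIECE GROWTHB. The growth rate is a nonnegative real number. -/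
theorem growth_real (hN : 0 < N) (hA : ∀ i j, A i j = 0 ∨ A i j = 1)
    (hrow : ∀ i, ∃ j, A i j = 1) :
    ∃ ρ : ℝ, 0 ≤ ρ ∧ ENNReal.log (spectralRadius ℂ (A.map (Nat.cast : ℕ → ℂ))) = (ρ : EReal) ∧
      Tendsto (fun n : ℕ => Real.log ((adm A n).card : ℝ) / (n : ℝ)) atTop (𝓝 ρ) := by
  obtain ⟨r, hr1, hr, hlim⟩ := gb_core A hN hA hrow
  refine ⟨Real.log r, Real.log_nonneg hr1, ?_, hlim⟩
  rw [hr, ENNReal.log_ofReal_of_pos (by linarith)]

end CKE
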