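import Pool.Agent.Lib_MP_e09b77_an.Kit

/-!
# The trace (piece TR)
-/

open scoped CStarAlgebra ComplexOrder

namespace CKE

universe u

/-- The (real part of the) trace on `⨁ j, M_{n j}(ℂ)`. -/
noncomputable def ftr {m : ℕ} {n : Fin m → ℕ} (x : FD n) : ℝ :=
  ∑ j, ∑ a, (x j a a).re

private theorem tr_add {m : ℕ} {n : Fin m → ℕ} (x y : FD n) : ftr (x + y) = ftr x + ftr y := by
  simp [ftr, Finset.sum_add_distrib]

private theorem tr_zero {m : ℕ} {n : Fin m → ℕ} : ftr (0 : FD n) = 0 := by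
  simp [ftr]

/-- PIECE TR. -/
theorem ftr_sum {m : ℕ} {n : Fin m → ℕ} {ι : Type*} (s : Finset ι) (x : ι → FD n) :
    ftr (∑ i ∈ s, x i) = ∑ i ∈ s, ftr (x i) := by
  classical
  induction s using Finset.induction_on with
  | empty => rw [Finset.sum_empty, Finset.sum_empty, tr_zero]
  | insert a s ha ih => rw [Finset.sum_insert ha, Finset.sum_insert ha, tr_add, ih]

private theorem tr_sqrt {M : Type*} [CStarAlgebra M] [PartialOrder M] [StarOrderedRing M] {x : M}
    (hx : 0 ≤ x) : ∃ c : M, x = star c * c :=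
  CStarAlgebra.nonneg_iff_eq_star_mul_self.1 hx

private theorem tr_cs {M : Type*} [CStarAlgebra M] (x : M) : ‖star x * x‖ = ‖x * star x‖ := by
  rw [CStarRing.norm_star_mul_self, CStarRing.norm_self_mul_star]

private theorem tr_diag_nonneg {k : ℕ} (X : CStarMatrix (Fin k) (Fin k) ℂ) (hX : 0 ≤ X)
    (a : Fin k) : 0 ≤ (X a a).re := by
  obtain ⟨C, rfl⟩ := tr_sqrt hX
  rw [CStarMatrix.mul_apply, Complex.re_sum]
  refine Finset.sum_nonneg (fun b _ => ?_)
  rw [CStarMatrix.star_apply, Complex.star_def, mul_comm, Complex.mul_conj]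
  simp [Complex.normSq_nonneg]

/-- PIECE TR. The trace is monotone. -/
theorem ftr_mono {m : ℕ} {n : Fin m → ℕ} {x y : FD n} (h : x ≤ y) : ftr x ≤ ftr y := by
  refine Finset.sum_le_sum (fun j _ => Finset.sum_le_sum (fun a _ => ?_))
  have h1 : 0 ≤ y j - x j := sub_nonneg.2 (h j)
  have h2 := tr_diag_nonneg _ h1 a
  rw [CStarMatrix.sub_apply, Complex.sub_re] at h2
  linarith

/-- PIECE TR. -/
theorem ftr_one {m : ℕ} {n : Fin m → ℕ} : ftr (1 : FD n) = ∑ j, (n j : ℝ) := by
  refine Finset.sum_congr rfl (fun j _ => ?_)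
  have : ∀ a : Fin (n j), ((1 : FD n) j a a).re = 1 := by
    intro a
    rw [Pi.one_apply, CStarMatrix.one_apply_eq, Complex.one_re]
  rw [Finset.sum_congr rfl (fun a _ => this a)]
  simp

/-- the diagonal matrix unit -/
private noncomputable def trE {k : ℕ} (a : Fin k) : CStarMatrix (Fin k) (Fin k) ℂ :=
  fun i j => if i = a ∧ j = a then 1 else 0

private theorem trE_star {k : ℕ} (a : Fin k) : star (trE a) = trE a := by
  ext i j
  rw [CStarMatrix.star_apply]
  by_cases h : i = a ∧ j = a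
  · simp [trE, h.1, h.2]
  · have h' : ¬ (j = a ∧ i = a) := fun hc => h ⟨hc.2, hc.1⟩
    simp only [trE, if_neg h, if_neg h', star_zero]

private theorem trE_conj {k : ℕ} (a : Fin k) (X : CStarMatrix (Fin k) (Fin k) ℂ) :
    trE a * X * trE a = X a a • trE a := by
  ext i j
  rw [CStarMatrix.mul_apply, CStarMatrix.smul_apply]
  simp only [CStarMatrix.mul_apply, trE]
  by_cases hi : i = a
  · by_cases hj : j = a
    · simp [hi, hj]
    · simp [hj]
  · simp [hi]

private theorem trE_idem {k : ℕ} (a : Fin k) : trE a * trE a = trE a := by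
  have h := trE_conj a (1 : CStarMatrix (Fin k) (Fin k) ℂ)
  rw [mul_one, CStarMatrix.one_apply_eq, one_smul] at h
  exact h

private theorem trE_sum {k : ℕ} : ∑ a, trE a = (1 : CStarMatrix (Fin k) (Fin k) ℂ) := by
  have hs : ∀ (s : Finset (Fin k)) (i j : Fin k),
      (∑ a ∈ s, trE a) i j = ∑ a ∈ s, (trE a i j : ℂ) := by
    intro s i j
    induction s using Finset.induction_on with
    | empty => simp
    | insert b s hb ih => rw [Finset.sum_insert hb, Finset.sum_insert hb, CStarMatrix.add_apply, ih]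
  ext i j
  rw [hs, CStarMatrix.one_apply]
  by_cases hij : i = j
  · subst hij
    simp [trE]
  · rw [if_neg hij]
    refine Finset.sum_eq_zero (fun a _ => ?_)
    rw [trE, if_neg]
    rintro ⟨rfl, rfl⟩
    exact hij rfl

private theorem trE_norm {k : ℕ} (a : Fin k) : ‖trE a‖ ≤ 1 := by
  have h1 : ‖trE a‖ * ‖trE a‖ = ‖trE a‖ := by
    rw [← CStarRing.norm_star_mul_self, trE_star, trE_idem]
  by_contra hc
  push Not at hc
  nlinarith

private theorem tr_norm_le {k : ℕ} (X : CStarMatrix (Fin k) (Fin k) ℂ) (hX : 0 ≤ X) :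
    ‖X‖ ≤ ∑ a, (X a a).re := by
  obtain ⟨C, hC⟩ := tr_sqrt hX
  have h1 : X = ∑ a, star (trE a * C) * (trE a * C) := by
    have : ∀ a, star (trE a * C) * (trE a * C) = star C * (trE a * C) := by
      intro a
      rw [star_mul, trE_star]
      calc star C * trE a * (trE a * C) = star C * ((trE a * trE a) * C) := by
            simp only [mul_assoc]
        _ = _ := by rw [trE_idem]
    rw [Finset.sum_congr rfl (fun a _ => this a), ← Finset.mul_sum, ← Finset.sum_mul, trE_sum,
      one_mul, hC]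
  have h2 : ∀ a, ‖star (trE a * C) * (trE a * C)‖ ≤ ∑ b, ‖C a b‖ ^ 2 := by
    intro a
    have h20 : ‖star (trE a * C) * (trE a * C)‖ = ‖trE a * C * (star C * trE a)‖ := by
      have h21 : star (trE a * C) = star C * trE a := by rw [star_mul, trE_star]
      rw [← h21]
      exact tr_cs (trE a * C)
    rw [h20]
    have h3 : trE a * C * (star C * trE a) = (C * star C) a a • trE a := by
      rw [← trE_conj]
      simp only [mul_assoc]
    rw [h3, norm_smul]
    have h4 : ‖(C * star C) a a‖ ≤ ∑ b, ‖C a b‖ ^ 2 := by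
      rw [CStarMatrix.mul_apply]
      refine (norm_sum_le _ _).trans (Finset.sum_le_sum (fun b _ => ?_))
      rw [CStarMatrix.star_apply, norm_mul, norm_star, sq]
    calc ‖(C * star C) a a‖ * ‖trE a‖ ≤ ‖(C * star C) a a‖ * 1 :=
          mul_le_mul_of_nonneg_left (trE_norm a) (norm_nonneg _)
      _ = ‖(C * star C) a a‖ := mul_one _
      _ ≤ _ := h4
  have h5 : ∀ b, (X b b).re = ∑ a, ‖C a b‖ ^ 2 := by
    intro b
    rw [hC, CStarMatrix.mul_apply, Complex.re_sum]
    refine Finset.sum_congr rfl (fun a _ => ?_)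
    rw [CStarMatrix.star_apply, Complex.star_def, mul_comm, Complex.mul_conj,
      Complex.normSq_eq_norm_sq, Complex.ofReal_re]
  calc ‖X‖ = ‖∑ a, star (trE a * C) * (trE a * C)‖ := by rw [← h1]
    _ ≤ ∑ a, ‖star (trE a * C) * (trE a * C)‖ := norm_sum_le _ _
    _ ≤ ∑ a, ∑ b, ‖C a b‖ ^ 2 := Finset.sum_le_sum (fun a _ => h2 a)
    _ = ∑ b, ∑ a, ‖C a b‖ ^ 2 := Finset.sum_comm
    _ = ∑ b, (X b b).re := Finset.sum_congr rfl (fun b _ => (h5 b).symm)

/-- PIECE TR. For `x ≥ 0` and a colour `i`, the norm of the part of colour `i` is at most the trace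
of that part (the norm of a positive semidefinite matrix is at most its trace: the norm is the
largest eigenvalue, or use `x ≤ tr(x) • 1`). -/
theorem norm_le_ftr {m : ℕ} {n : Fin m → ℕ} (x : FD n) (hx : 0 ≤ x) : ‖x‖ ≤ ftr x := by
  have hn : ∀ j, 0 ≤ ∑ a, (x j a a).re :=
    fun j => Finset.sum_nonneg (fun a _ => tr_diag_nonneg _ (hx j) a)
  have h0 : 0 ≤ ftr x := Finset.sum_nonneg (fun j _ => hn j)
  rw [pi_norm_le_iff_of_nonneg h0]
  intro j
  refine (tr_norm_le (x j) (hx j)).trans ?_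
  exact Finset.single_le_sum (f := fun j => ∑ a, (x j a a).re) (fun j _ => hn j)
    (Finset.mem_univ j)

variable {B : Type u} [CStarAlgebra B] [PartialOrder B] [StarOrderedRing B]

/-- PIECE TR. `‖φ(x)‖ ≤ tr x` for `x ≥ 0`: split `x = ∑ i, x_i` into its parts of colour `i`;
`‖φ x_i‖ ≤ ‖x_i‖ ≤ tr x_i`. -/
theorem norm_phi_le_ftr {d : ℕ} (s : DecSystem B d) (x : FD s.n) (hx : 0 ≤ x) :
    ‖s.φ x‖ ≤ ftr x := by
  classical
  let y : Fin (d + 1) → FD s.n := fun i j => if s.κ j = i then x j else 0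
  have hy : x = ∑ i, y i := by
    funext j
    rw [Finset.sum_apply]
    simp [y]
  have hc : ∀ i, OfColour s.κ i (y i) := fun i j hj => if_neg hj
  have h0 : ∀ i, 0 ≤ y i := by
    intro i j
    by_cases h : s.κ j = i
    · simp only [y, if_pos h]
      exact hx j
    · simp only [y, if_neg h]
      exact le_refl _
  calc ‖s.φ x‖ = ‖∑ i, s.φ (y i)‖ := by rw [← map_sum, ← hy]
    _ ≤ ∑ i, ‖s.φ (y i)‖ := norm_sum_le _ _
    _ ≤ ∑ i, ftr (y i) :=
        Finset.sum_le_sum (fun i _ => (s.φ_contractive i _ (hc i)).trans (norm_le_ftr _ (h0 i)))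
    _ = ftr (∑ i, y i) := (ftr_sum _ _).symm
    _ = ftr x := by rw [← hy]

end CKE
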