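import Pool.Agent.Lib_MP_e09b77_an.Near
import Pool.Agent.Lib_MP_e09b77_an.Tr

/-!
# The lower bound (piece LOWER)
-/

open scoped CStarAlgebra ComplexOrder

namespace CKE

universe u

variable {N : ℕ} {A : Matrix (Fin N) (Fin N) ℕ} {B : Type u} [CStarAlgebra B]
  [PartialOrder B] [StarOrderedRing B] {S : Fin N → B}

private theorem lower_hd_comm {n : ℕ} (μ ν : Fin n → Fin N) : hd μ ν = hd ν μ := by
  unfold hd
  congr 1
  ext k
  simp only [Finset.mem_filter, Finset.mem_univ, true_and]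
  exact ne_comm

private theorem lower_le_one {M : Type*} [CStarAlgebra M] [PartialOrder M] [StarOrderedRing M]
    (x : M) (hx : 0 ≤ x) (h1 : ‖x‖ ≤ 1) : x ≤ 1 :=
  (CStarAlgebra.norm_le_one_iff_of_nonneg x hx).1 h1

private theorem lower_norm_one {M : Type*} [CStarAlgebra M] : ‖(1 : M)‖ ≤ 1 := by
  rcases subsingleton_or_nontrivial M with hM | hM
  · rw [Subsingleton.elim (1 : M) 0, norm_zero]
    exact zero_le_one
  · exact le_of_eq CStarRing.norm_one

/-- PIECE LOWER. -/
theorem lower (h : CKFamily A S) (hne : ∀ i, S i ≠ 0) {d : ℕ} (s : DecSystem B d) (n : ℕ)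
    (hn : 1 ≤ n) (ε : ℝ) (hε : 0 < ε) (hεN : 4 * N * ε ≤ 1) (D : ℕ) (hD0 : 0 < D)
    (hD : 4 * N * ε * n ≤ D)
    (happ : s.Approx (⋃ j : Fin n, ((theta S)^[(j : ℕ)]) '' (Set.range fun i => S i * star (S i))) ε)
    (l : ℝ) (hl0 : 0 < l) (hl1 : l ≤ 1) :
    ((adm A n).card : ℝ) * l ^ D ≤ 2 * (1 + N * l) ^ n * s.rank := by
  classical
  have happ' : ∀ (j : Fin n) (i : Fin N),
      ‖cpComp s.φ s.ψ ((theta S)^[(j : ℕ)] (S i * star (S i)))
        - (theta S)^[(j : ℕ)] (S i * star (S i))‖ < ε := by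
    intro j i
    rw [cpComp_apply]
    exact happ _ (Set.mem_iUnion.2 ⟨j, Set.mem_image_of_mem _ ⟨i, rfl⟩⟩)
  have hx0 : ∀ ν : Fin n → Fin N, 0 ≤ s.ψ (word S n ν * star (word S n ν)) :=
    fun ν => cp_nonneg s.ψ (mul_star_self_nonneg _)
  have hf0 : ∀ ν : Fin n → Fin N, 0 ≤ ftr (s.ψ (word S n ν * star (word S n ν))) := by
    intro ν
    have := ftr_mono (hx0 ν)
    have h0 : ftr (0 : FD s.n) = 0 := by simp [ftr]
    rw [h0] at this
    exact this
  have h1 : ∀ μ ∈ adm A n, 1 / 2 ≤ ∑ ν : Fin n → Fin N, if hd ν μ < D then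
      ftr (s.ψ (word S n ν * star (word S n ν))) else 0 := by
    intro μ hμ
    have h2 := near_norm h hne (cpComp s.φ s.ψ) n hn ε hε hεN D hD0 hD happ' μ hμ
    refine h2.trans ?_
    rw [← Finset.sum_filter, ← ftr_sum]
    simp only [cpComp_apply]
    rw [← map_sum]
    exact norm_phi_le_ftr s _ (Finset.sum_nonneg (fun ν _ => hx0 ν))
  have h3 : ((adm A n).card : ℝ) / 2 ≤ ∑ ν : Fin n → Fin N,
      ((Finset.univ.filter (fun μ : Fin n → Fin N => hd μ ν < D)).card : ℝ) *
        ftr (s.ψ (word S n ν * star (word S n ν))) := by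
    calc ((adm A n).card : ℝ) / 2 = ∑ μ ∈ adm A n, (1 / 2 : ℝ) := by
          rw [Finset.sum_const, nsmul_eq_mul]; ring
      _ ≤ ∑ μ ∈ adm A n, ∑ ν : Fin n → Fin N, (if hd ν μ < D then
            ftr (s.ψ (word S n ν * star (word S n ν))) else 0) := Finset.sum_le_sum h1
      _ ≤ ∑ μ : Fin n → Fin N, ∑ ν : Fin n → Fin N, (if hd ν μ < D then
            ftr (s.ψ (word S n ν * star (word S n ν))) else 0) := by
          refine Finset.sum_le_sum_of_subset_of_nonneg (Finset.subset_univ _) (fun μ _ _ => ?_)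
          refine Finset.sum_nonneg (fun ν _ => ?_)
          split_ifs
          · exact hf0 ν
          · exact le_refl _
      _ = ∑ ν : Fin n → Fin N, ∑ μ : Fin n → Fin N, (if hd ν μ < D then
            ftr (s.ψ (word S n ν * star (word S n ν))) else 0) := Finset.sum_comm
      _ = _ := by
          refine Finset.sum_congr rfl (fun ν _ => ?_)
          rw [← Finset.sum_filter, Finset.sum_const, nsmul_eq_mul]
          congr 2
          congr 1
          ext μ
          simp only [Finset.mem_filter, Finset.mem_univ, true_and]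
          rw [lower_hd_comm]
  have h4 : ∑ ν : Fin n → Fin N, ftr (s.ψ (word S n ν * star (word S n ν))) ≤ (s.rank : ℝ) := by
    rw [← ftr_sum, ← map_sum, word_sum h n]
    have h5 : s.ψ (1 : B) ≤ 1 :=
      lower_le_one _ (cp_nonneg s.ψ zero_le_one) ((s.ψ_contractive 1).trans lower_norm_one)
    refine (ftr_mono h5).trans ?_
    rw [ftr_one, DecSystem.rank, Nat.cast_sum]
  have hlD : 0 < l ^ D := pow_pos hl0 D
  have h6 : ((adm A n).card : ℝ) / 2 * l ^ D ≤ (1 + N * l) ^ n * s.rank := by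
    calc ((adm A n).card : ℝ) / 2 * l ^ D
        ≤ (∑ ν : Fin n → Fin N,
          ((Finset.univ.filter (fun μ : Fin n → Fin N => hd μ ν < D)).card : ℝ) *
            ftr (s.ψ (word S n ν * star (word S n ν)))) * l ^ D :=
          mul_le_mul_of_nonneg_right h3 hlD.le
      _ = ∑ ν : Fin n → Fin N,
          ((Finset.univ.filter (fun μ : Fin n → Fin N => hd μ ν < D)).card : ℝ) * l ^ D *
            ftr (s.ψ (word S n ν * star (word S n ν))) := by
          rw [Finset.sum_mul]
          exact Finset.sum_congr rfl (fun ν _ => by ring)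
      _ ≤ ∑ ν : Fin n → Fin N, (1 + N * l) ^ n *
            ftr (s.ψ (word S n ν * star (word S n ν))) :=
          Finset.sum_le_sum (fun ν _ =>
            mul_le_mul_of_nonneg_right (ball_card n D l hl0 hl1 ν) (hf0 ν))
      _ = (1 + N * l) ^ n * ∑ ν : Fin n → Fin N,
            ftr (s.ψ (word S n ν * star (word S n ν))) := by rw [Finset.mul_sum]
      _ ≤ (1 + N * l) ^ n * s.rank := mul_le_mul_of_nonneg_left h4 (by positivity)
  nlinarith

end CKE
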