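import Pool.Agent.Lib_MP_e09b77_an.Defs

/-!
# The generators of the universal algebra do not vanish (piece NONZ)
-/

namespace CKE

universe u v

section nonz

open scoped InnerProductSpace

/-- The Hilbert space of square summable families. -/
private abbrev NonzH (α : Type u) : Type u := lp (fun _ : α => ℂ) 2

private theorem nonz_two : ((2 : ENNReal)).toReal = 2 := by simp

/-- composition with an injection -/
private noncomputable def nonzPull {α : Type u} {β : Type v} (g : α ↪ β) :
    NonzH β →L[ℂ] NonzH α :=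
  LinearMap.mkContinuous
    { toFun := fun ξ => ⟨fun x => ξ (g x), memℓp_gen' (C := ‖ξ‖ ^ (2 : ENNReal).toReal)
        (fun s => by
          have h := lp.sum_rpow_le_norm_rpow (p := 2) (by simp) ξ (s.map g)
          rw [Finset.sum_map] at h
          exact h)⟩
      map_add' := fun ξ η => by
        ext x
        rfl
      map_smul' := fun c ξ => by
        ext x
        rfl } 1 (fun ξ => by
        rw [one_mul]
        refine lp.norm_le_of_forall_sum_le (p := 2) (by simp) (norm_nonneg _) (fun s => ?_)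
        have h := lp.sum_rpow_le_norm_rpow (p := 2) (by simp) ξ (s.map g)
        rw [Finset.sum_map] at h
        exact h)

private theorem nonzPull_apply {α : Type u} {β : Type v} (g : α ↪ β) (ξ : NonzH β) (x : α) :
    nonzPull g ξ x = ξ (g x) := rfl

private theorem nonzPull_single_mem {α : Type u} {β : Type v} [DecidableEq α] [DecidableEq β]
    (g : α ↪ β) (x : α) (a : ℂ) :
    nonzPull g (lp.single 2 (g x) a) = lp.single 2 x a := by
  ext z
  rw [nonzPull_apply]
  by_cases hz : z = x
  · subst hz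
    rw [lp.single_apply_self, lp.single_apply_self]
  · rw [lp.single_apply_ne _ _ _ hz, lp.single_apply_ne _ _ _ (fun hc => hz (g.injective hc))]

private theorem nonzPull_single_notMem {α : Type u} {β : Type v} [DecidableEq β]
    (g : α ↪ β) (y : β) (hy : ∀ x, g x ≠ y) (a : ℂ) :
    nonzPull g (lp.single 2 y a) = 0 := by
  ext z
  rw [nonzPull_apply, lp.single_apply_ne _ _ _ (hy z)]
  rfl

private theorem nonz_apply {α : Type u} [DecidableEq α] (ξ : NonzH α) (x : α) :
    ξ x = ⟪lp.single 2 x (1 : ℂ), ξ⟫_ℂ := by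
  rw [lp.inner_single_left]
  simp

private theorem nonz_adj_mem {α : Type u} {β : Type v} (g : α ↪ β) (ξ : NonzH α) (x : α) :
    (ContinuousLinearMap.adjoint (nonzPull g) ξ) (g x) = ξ x := by
  classical
  rw [nonz_apply, ContinuousLinearMap.adjoint_inner_right, nonzPull_single_mem, ← nonz_apply]

private theorem nonz_adj_notMem {α : Type u} {β : Type v} (g : α ↪ β) (ξ : NonzH α) (y : β)
    (hy : ∀ x, g x ≠ y) :
    (ContinuousLinearMap.adjoint (nonzPull g) ξ) y = 0 := by
  classical
  rw [nonz_apply, ContinuousLinearMap.adjoint_inner_right, nonzPull_single_notMem _ _ hy,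
    inner_zero_left]

private theorem nonz_coisom {α : Type u} {β : Type v} (g : α ↪ β) :
    (nonzPull g).comp (ContinuousLinearMap.adjoint (nonzPull g)) = ContinuousLinearMap.id ℂ _ := by
  ext ξ x
  exact nonz_adj_mem g ξ x

/-- The operator `W_r* W_h`. -/
private noncomputable def nonzT {α : Type u} {β : Type v} (r h : α ↪ β) : NonzH β →L[ℂ] NonzH β :=
  (ContinuousLinearMap.adjoint (nonzPull r)).comp (nonzPull h)

private theorem nonzT_star {α : Type u} {β : Type v} (r h : α ↪ β) :
    star (nonzT r h) = nonzT h r := by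
  rw [ContinuousLinearMap.star_eq_adjoint, nonzT, ContinuousLinearMap.adjoint_comp,
    ContinuousLinearMap.adjoint_adjoint]
  rfl

private theorem nonzT_mul {α : Type u} {β : Type v} (r h k : α ↪ β) :
    nonzT r h * nonzT h k = nonzT r k := by
  rw [nonzT, nonzT, nonzT, ContinuousLinearMap.mul_def]
  have := nonz_coisom h
  calc ((ContinuousLinearMap.adjoint (nonzPull r)).comp (nonzPull h)).comp
        ((ContinuousLinearMap.adjoint (nonzPull h)).comp (nonzPull k))
      = (ContinuousLinearMap.adjoint (nonzPull r)).comp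
        (((nonzPull h).comp (ContinuousLinearMap.adjoint (nonzPull h))).comp (nonzPull k)) := by
        rfl
    _ = _ := by rw [this]; rfl

private theorem nonzT_mem {α : Type u} {β : Type v} (r : α ↪ β) (ξ : NonzH β) (y : β)
    (hy : ∃ x, r x = y) : nonzT r r ξ y = ξ y := by
  obtain ⟨x, rfl⟩ := hy
  rw [nonzT, ContinuousLinearMap.comp_apply, nonz_adj_mem]
  rfl

private theorem nonzT_notMem {α : Type u} {β : Type v} (r : α ↪ β) (ξ : NonzH β) (y : β)
    (hy : ¬ ∃ x, r x = y) : nonzT r r ξ y = 0 := by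
  rw [nonzT, ContinuousLinearMap.comp_apply, nonz_adj_notMem]
  exact fun x hx => hy ⟨x, hx⟩

private theorem nonz_inj {N : ℕ} (A : Matrix (Fin N) (Fin N) ℕ) (i : Fin N)
    (hrow : ∃ j, A i j = 1) :
    ∃ h : ℕ ↪ ULift.{u} (ℕ × Fin N), ∀ y, (∃ x, h x = y) ↔ A i y.down.2 = 1 := by
  obtain ⟨j, hj⟩ := hrow
  have hinf : Infinite {y : ULift.{u} (ℕ × Fin N) // A i y.down.2 = 1} := by
    refine Infinite.of_injective (fun k : ℕ => ⟨ULift.up (k, j), hj⟩) (fun k l hkl => ?_)
    have := congrArg (fun z : {y : ULift.{u} (ℕ × Fin N) // A i y.down.2 = 1} => z.1.down.1) hkl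
    exact this
  obtain ⟨e⟩ := nonempty_equiv_of_countable (α := ℕ)
    (β := {y : ULift.{u} (ℕ × Fin N) // A i y.down.2 = 1})
  refine ⟨e.toEmbedding.trans (Function.Embedding.subtype _), fun y => ⟨?_, fun hy => ?_⟩⟩
  · rintro ⟨x, rfl⟩
    exact (e x).2
  · refine ⟨e.symm ⟨y, hy⟩, ?_⟩
    simp

end nonz

/-- PIECE NONZ. There is a `C*`-algebra (bounded operators on `ℓ²(ι)`, `ι = ULift (ℕ × Fin N)`) with
a Cuntz–Krieger family of nonzero elements, if no row of `A` vanishes.
Proof. Let `ι = ℕ × Fin N` and for each `i` choose a bijection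
`e i : ℕ × {j // A i j = 1} ≃ ℕ`. Put `S i δ_{(k, j)} = δ_{(e i (k, j), i)}` if `A i j = 1` and `0`
otherwise. For a partial injection `f` of `ι` the operator `(U_f ξ)(y) = ξ(f⁻¹ y)` (or `0`) on
`lp (fun _ : ι => ℂ) 2` is bounded by `1`, `U_f* = U_{f⁻¹}`, `U_f U_g = U_{f ∘ g}`. -/
theorem exists_family {N : ℕ} (A : Matrix (Fin N) (Fin N) ℕ)
    (hA : ∀ i j, A i j = 0 ∨ A i j = 1) (hrow : ∀ i, ∃ j, A i j = 1) :
    ∃ (C : Type u) (_ : CStarAlgebra C) (T : Fin N → C), CKFamily A T ∧ ∀ i, T i ≠ 0 := by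
  classical
  choose h hh using fun i => nonz_inj.{u} A i (hrow i)
  let r : Fin N → (ℕ ↪ ULift.{u} (ℕ × Fin N)) := fun i =>
    ⟨fun k => ULift.up (k, i), fun k l hkl => by
      have := congrArg (fun z : ULift.{u} (ℕ × Fin N) => z.down.1) hkl
      exact this⟩
  have hr : ∀ i y, (∃ x, r i x = y) ↔ y.down.2 = i := by
    intro i y
    constructor
    · rintro ⟨x, rfl⟩
      rfl
    · rintro rfl
      exact ⟨y.down.1, rfl⟩
  have hTT : ∀ i, nonzT (r i) (h i) * star (nonzT (r i) (h i)) = nonzT (r i) (r i) := by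
    intro i
    rw [nonzT_star, nonzT_mul]
  have hTT' : ∀ i, star (nonzT (r i) (h i)) * nonzT (r i) (h i) = nonzT (h i) (h i) := by
    intro i
    rw [nonzT_star, nonzT_mul]
  have hrr : ∀ i ξ y, nonzT (r i) (r i) ξ y = if y.down.2 = i then ξ y else 0 := by
    intro i ξ y
    split_ifs with hy
    · exact nonzT_mem _ _ _ ((hr i y).2 hy)
    · exact nonzT_notMem _ _ _ (fun hc => hy ((hr i y).1 hc))
  refine ⟨NonzH (ULift.{u} (ℕ × Fin N)) →L[ℂ] NonzH (ULift.{u} (ℕ × Fin N)), inferInstance,
    fun i => nonzT (r i) (h i), ⟨fun i => ?_, ?_, fun i => ?_⟩, fun i hc => ?_⟩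
  · rw [hTT, nonzT_mul]
  · simp only [hTT]
    ext ξ y
    rw [_root_.sum_apply, lp.coeFn_sum, Finset.sum_apply]
    simp only [hrr]
    simp
  · simp only [hTT, hTT']
    ext ξ y
    rw [_root_.sum_apply, lp.coeFn_sum, Finset.sum_apply]
    have h1 : ∀ j, ((A i j • nonzT (r j) (r j)) ξ) y
        = if y.down.2 = j then (A i j : ℂ) * ξ y else 0 := by
      intro j
      have : ((A i j • nonzT (r j) (r j)) ξ) y = A i j • (nonzT (r j) (r j) ξ y) := rfl
      rw [this, hrr, nsmul_eq_mul]
      split_ifs <;> simp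
    rw [Finset.sum_congr rfl (fun j _ => h1 j)]
    rw [Finset.sum_ite_eq]
    simp only [Finset.mem_univ, if_true]
    rcases hA i y.down.2 with h0 | h1
    · rw [nonzT_notMem _ _ _ (fun hc => by
        have := (hh i y).1 hc
        omega), h0]
      simp
    · rw [nonzT_mem _ _ _ ((hh i y).2 h1), h1]
      simp
  · have h1 := hTT i
    have h2 : nonzT (r i) (r i) = 0 := by
      rw [← h1]
      simp only at hc
      rw [hc, zero_mul]
    have h3 := hrr i (lp.single 2 (ULift.up (0, i)) 1) (ULift.up (0, i))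
    rw [h2, if_pos rfl, lp.single_apply_self] at h3
    exact zero_ne_one h3

/-- The generators of the universal algebra do not vanish. -/
theorem IsCuntzKrieger.ne_zero {N : ℕ} {A : Matrix (Fin N) (Fin N) ℕ}
    (hA : ∀ i j, A i j = 0 ∨ A i j = 1) (hrow : ∀ i, ∃ j, A i j = 1) {B : Type u}
    [CStarAlgebra B] {S : Fin N → B} (hS : IsCuntzKrieger A S) (i : Fin N) : S i ≠ 0 := by
  obtain ⟨C, _, T, hT, hne⟩ := exists_family.{u} A hA hrow
  obtain ⟨π, hπ⟩ := hS.universal C T hT
  intro h
  apply hne i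
  rw [← hπ i, h, map_zero]

end CKE
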