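import Pool.Agent.Lib_MP_e09b77_an.Upper
import Pool.Agent.Lib_MP_e09b77_an.Lower
import Pool.Agent.Lib_MP_e09b77_an.GrowthB
import Pool.Agent.Lib_MP_e09b77_an.NonZero

/-!
# `ht_nuc(θ_A) = log r(A)` (piece FINAL)
-/

open scoped CStarAlgebra ComplexOrder
open Filter Topology

namespace CKE

universe u

private theorem fin_log_nat {k : ℕ} (hk : 0 < k) :
    ENNReal.log ((k : ℕ) : ENNReal) = ((Real.log (k : ℝ) : ℝ) : EReal) := by
  rw [ENNReal.log_pos_real (by exact_mod_cast hk.ne') (ENNReal.natCast_ne_top _)]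
  simp

private theorem fin_div_nat_mono {a b : EReal} (h : a ≤ b) (n : ℕ) :
    a / (n : EReal) ≤ b / (n : EReal) :=
  EReal.div_le_div_right_of_nonneg (by exact_mod_cast Nat.zero_le n) h

private theorem fin_coe_div (x : ℝ) (n : ℕ) :
    ((x : ℝ) : EReal) / (n : EReal) = ((x / (n : ℝ) : ℝ) : EReal) := by
  rw [EReal.coe_div]
  rfl

/-- real limit used in the upper bound -/
private theorem fin_lim_upper (c : ℕ → ℝ) (ρ : ℝ) (hc : ∀ n, 0 < c n)
    (hlim : Tendsto (fun n : ℕ => Real.log (c n) / (n : ℝ)) atTop (𝓝 ρ)) (K : ℝ) (hK : 0 < K)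
    (L : ℕ) :
    Tendsto (fun n : ℕ => Real.log (K * c (n + L)) / (n : ℝ)) atTop (𝓝 ρ) := by
  have h1 : Tendsto (fun n : ℕ => Real.log (c (n + L)) / ((n + L : ℕ) : ℝ)) atTop (𝓝 ρ) :=
    hlim.comp (tendsto_add_atTop_nat L)
  have h2 : Tendsto (fun n : ℕ => Real.log K / (n : ℝ)) atTop (𝓝 0) :=
    tendsto_const_div_atTop_nhds_zero_nat _
  have h3 : Tendsto (fun n : ℕ => 1 + (L : ℝ) / (n : ℝ)) atTop (𝓝 (1 + 0)) :=
    tendsto_const_nhds.add (tendsto_const_div_atTop_nhds_zero_nat _)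
  have h4 := h2.add (h1.mul h3)
  have h5 : (0 : ℝ) + ρ * (1 + 0) = ρ := by ring
  rw [h5] at h4
  refine h4.congr' ?_
  filter_upwards [eventually_ge_atTop 1] with n hn
  have hn0 : (0 : ℝ) < (n : ℝ) := by exact_mod_cast hn
  have hnL : (0 : ℝ) < ((n + L : ℕ) : ℝ) := by
    have : 0 < n + L := by omega
    exact_mod_cast this
  rw [Real.log_mul hK.ne' (hc _).ne', add_div]
  congr 1
  push_cast at hnL ⊢
  field_simp

private theorem fin_upper {N : ℕ} (hN : 0 < N) (A : Matrix (Fin N) (Fin N) ℕ)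
    (hA : ∀ i j, A i j = 0 ∨ A i j = 1) (hrow : ∀ i, ∃ j, A i j = 1) {B : Type u}
    [CStarAlgebra B] [PartialOrder B] [StarOrderedRing B] (S : Fin N → B)
    (hS : CKFamily A S)
    (hgen : (StarAlgebra.adjoin ℂ (Set.range S)).topologicalClosure = ⊤)
    (d : ℕ) (hd : NucDimLE B d) (ρ : ℝ)
    (hlim : Tendsto (fun n : ℕ => Real.log ((adm A n).card : ℝ) / (n : ℝ)) atTop (𝓝 ρ)) :
    htNuc d (theta S) ≤ (ρ : EReal) := by
  refine iSup_le fun F => iSup_le fun ε => iSup_le fun hε => ?_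
  obtain ⟨K, L, hK⟩ := upper hS hA hgen d hd F ε hε
  have hc : ∀ n, (0 : ℝ) < ((adm A n).card : ℝ) := fun n => by
    exact_mod_cast adm_card_pos A hN hrow n
  have h1 := fin_lim_upper (fun n => ((adm A n).card : ℝ)) ρ hc hlim ((K : ℝ) + 1)
    (by positivity) L
  have h2 : Tendsto (fun n : ℕ =>
      ((Real.log (((K : ℝ) + 1) * ((adm A (n + L)).card : ℝ)) / (n : ℝ) : ℝ) : EReal)) atTop
      (𝓝 ((ρ : ℝ) : EReal)) := (continuous_coe_real_ereal.tendsto _).comp h1
  rw [← h2.limsup_eq]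
  refine limsup_le_limsup (Eventually.of_forall fun n => ?_)
  show ENNReal.log ((rnuc d (⋃ j : Fin n, ((theta S)^[(j : ℕ)]) '' (F : Set B)) ε : ℕ∞) : ENNReal)
          / (n : EReal) ≤
      ((Real.log (((K : ℝ) + 1) * ((adm A (n + L)).card : ℝ)) / (n : ℝ) : ℝ) : EReal)
  rw [← fin_coe_div]
  refine fin_div_nat_mono ?_ n
  have hpos : 0 < (K + 1) * (adm A (n + L)).card :=
    Nat.mul_pos (Nat.succ_pos K) (adm_card_pos A hN hrow _)
  have h3 := fin_log_nat hpos
  have h4 : (((K + 1) * (adm A (n + L)).card : ℕ) : ℝ)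
      = ((K : ℝ) + 1) * ((adm A (n + L)).card : ℝ) := by push_cast; ring
  rw [h4] at h3
  rw [← h3]
  refine ENNReal.log_monotone ?_
  have h5 : rnuc d (⋃ j : Fin n, ((theta S)^[(j : ℕ)]) '' (F : Set B)) ε
      ≤ (((K + 1) * (adm A (n + L)).card : ℕ) : ℕ∞) := by
    refine (hK n).trans ?_
    exact_mod_cast Nat.mul_le_mul_right _ (Nat.le_succ K)
  have h6 := ENat.toENNReal_le.2 h5
  simpa using h6

private theorem fin_lower_one {N : ℕ} (hN : 0 < N) (A : Matrix (Fin N) (Fin N) ℕ)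
    (hrow : ∀ i, ∃ j, A i j = 1) {B : Type u}
    [CStarAlgebra B] [PartialOrder B] [StarOrderedRing B] (S : Fin N → B)
    (hS : CKFamily A S) (hne : ∀ i, S i ≠ 0) (d : ℕ) (ρ : ℝ)
    (hlim : Tendsto (fun n : ℕ => Real.log ((adm A n).card : ℝ) / (n : ℝ)) atTop (𝓝 ρ))
    (ε : ℝ) (hε : 0 < ε) (hεN : 4 * N * ε ≤ 1) (l : ℝ) (hl0 : 0 < l) (hl1 : l ≤ 1) :
    ((ρ + 4 * N * ε * Real.log l - Real.log (1 + N * l) : ℝ) : EReal) ≤ htNuc d (theta S) := by
  classical
  have hlog : Real.log l ≤ 0 := Real.log_nonpos hl0.le hl1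
  have hN0 : (0 : ℝ) < N := by exact_mod_cast hN
  have h1l : (0 : ℝ) < 1 + N * l := by positivity
  refine le_trans ?_ (le_iSup_of_le (Finset.univ.image fun i => S i * star (S i))
    (le_iSup_of_le ε (le_iSup_of_le hε le_rfl)))
  have h1 : Tendsto (fun n : ℕ => Real.log ((adm A n).card : ℝ) / (n : ℝ)
      + (4 * N * ε * Real.log l - Real.log (1 + N * l))
      + (2 * Real.log l - Real.log 2) / (n : ℝ)) atTop
      (𝓝 (ρ + (4 * N * ε * Real.log l - Real.log (1 + N * l)) + 0)) :=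
    (hlim.add tendsto_const_nhds).add (tendsto_const_div_atTop_nhds_zero_nat _)
  have h1' : ρ + (4 * N * ε * Real.log l - Real.log (1 + N * l)) + 0
      = ρ + 4 * N * ε * Real.log l - Real.log (1 + N * l) := by ring
  rw [h1'] at h1
  have h2 := (continuous_coe_real_ereal.tendsto _).comp h1
  rw [← h2.limsup_eq]
  refine limsup_le_limsup ?_
  filter_upwards [eventually_ge_atTop 1] with n hn
  have hn0 : (0 : ℝ) < (n : ℝ) := by exact_mod_cast hn
  have hcpos : (0 : ℝ) < ((adm A n).card : ℝ) := by exact_mod_cast adm_card_pos A hN hrow n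
  set D : ℕ := ⌈4 * N * ε * n⌉₊ + 1 with hD
  have hD0 : 0 < D := Nat.succ_pos _
  have hDge : 4 * N * ε * n ≤ (D : ℝ) := by
    have := Nat.le_ceil (4 * N * ε * (n : ℝ))
    rw [hD]
    push_cast
    linarith
  have hDle : (D : ℝ) ≤ 4 * N * ε * n + 2 := by
    have := Nat.ceil_lt_add_one (a := 4 * N * ε * (n : ℝ)) (by positivity)
    rw [hD]
    push_cast
    linarith
  set x : ℝ := ((adm A n).card : ℝ) * l ^ D / (2 * (1 + N * l) ^ n) with hx
  have hx0 : 0 < x := by positivity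
  have hxlog : Real.log ((adm A n).card : ℝ) + (4 * N * ε * n + 2) * Real.log l - Real.log 2
      - n * Real.log (1 + N * l) ≤ Real.log x := by
    rw [hx, Real.log_div (by positivity) (by positivity), Real.log_mul (by positivity)
      (by positivity), Real.log_mul (by positivity) (by positivity), Real.log_pow, Real.log_pow]
    have : (4 * N * ε * n + 2) * Real.log l ≤ (D : ℝ) * Real.log l :=
      mul_le_mul_of_nonpos_right hDle hlog
    linarith
  show (((Real.log ((adm A n).card : ℝ) / (n : ℝ)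
      + (4 * N * ε * Real.log l - Real.log (1 + N * l))
      + (2 * Real.log l - Real.log 2) / (n : ℝ) : ℝ)) : EReal) ≤
    ENNReal.log ((rnuc d (⋃ j : Fin n, ((theta S)^[(j : ℕ)]) ''
      ((Finset.univ.image fun i => S i * star (S i) : Finset B) : Set B)) ε : ℕ∞) : ENNReal)
          / (n : EReal)
  have h3 : ENNReal.ofReal x ≤ ((rnuc d (⋃ j : Fin n, ((theta S)^[(j : ℕ)]) ''
      ((Finset.univ.image fun i => S i * star (S i) : Finset B) : Set B)) ε : ℕ∞) : ENNReal) := by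
    have h4 : ((⌈x⌉₊ : ℕ) : ℕ∞) ≤ rnuc d (⋃ j : Fin n, ((theta S)^[(j : ℕ)]) ''
      ((Finset.univ.image fun i => S i * star (S i) : Finset B) : Set B)) ε := by
      refine le_iInf fun s => le_iInf fun hs => ?_
      have hs' : s.Approx (⋃ j : Fin n, ((theta S)^[(j : ℕ)]) ''
          (Set.range fun i => S i * star (S i))) ε := by
        have : ((Finset.univ.image fun i => S i * star (S i) : Finset B) : Set B)
            = Set.range fun i => S i * star (S i) := by
          simp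
        rw [this] at hs
        exact hs
      have h5 := lower hS hne s n hn ε hε hεN D hD0 hDge hs' l hl0 hl1
      have h6 : x ≤ (s.rank : ℝ) := by
        rw [hx, div_le_iff₀ (by positivity)]
        linarith
      exact_mod_cast Nat.ceil_le.2 h6
    have h7 := ENat.toENNReal_le.2 h4
    refine le_trans ?_ h7
    rw [ENat.toENNReal_coe]
    calc ENNReal.ofReal x ≤ ENNReal.ofReal (⌈x⌉₊ : ℝ) := ENNReal.ofReal_le_ofReal (Nat.le_ceil x)
      _ = ((⌈x⌉₊ : ℕ) : ENNReal) := ENNReal.ofReal_natCast _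
  have h8 := ENNReal.log_monotone h3
  rw [ENNReal.log_ofReal_of_pos hx0] at h8
  refine le_trans ?_ (fin_div_nat_mono h8 n)
  rw [fin_coe_div]
  refine EReal.coe_le_coe_iff.2 ?_
  rw [le_div_iff₀ hn0]
  refine le_trans (le_of_eq ?_) hxlog
  field_simp
  ring

/-- The entropy for every C*-algebra generated by a Cuntz–Krieger family of nonzero elements. -/
theorem htNuc_theta {N : ℕ} (hN : 0 < N) (A : Matrix (Fin N) (Fin N) ℕ)
    (hA : ∀ i j, A i j = 0 ∨ A i j = 1) (hrow : ∀ i, ∃ j, A i j = 1) {B : Type u}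
    [CStarAlgebra B] [PartialOrder B] [StarOrderedRing B] (S : Fin N → B)
    (hS : CKFamily A S) (hne : ∀ i, S i ≠ 0)
    (hgen : (StarAlgebra.adjoin ℂ (Set.range S)).topologicalClosure = ⊤)
    (d : ℕ) (hd : NucDimLE B d) :
    htNuc d (theta S) = ENNReal.log (spectralRadius ℂ (A.map (Nat.cast : ℕ → ℂ))) := by
  obtain ⟨ρ, -, hρ, hlim⟩ := growth_real A hN hA hrow
  rw [hρ]
  refine le_antisymm (fin_upper hN A hA hrow S hS hgen d hd ρ hlim) ?_
  by_contra hcon
  rw [not_le] at hcon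
  obtain ⟨q, hq1, hq2⟩ := EReal.lt_iff_exists_real_btwn.1 hcon
  have hqρ : q < ρ := EReal.coe_lt_coe_iff.1 hq2
  set δ : ℝ := ρ - q with hδ
  have hδ0 : 0 < δ := by linarith
  have hN0 : (0 : ℝ) < N := by exact_mod_cast hN
  -- the parameter `l`
  set l : ℝ := min 1 (δ / (2 * N)) with hl
  have hl0 : 0 < l := lt_min one_pos (by positivity)
  have hl1 : l ≤ 1 := min_le_left _ _
  have hl2 : (N : ℝ) * l ≤ δ / 2 := by
    have : l ≤ δ / (2 * N) := min_le_right _ _
    calc (N : ℝ) * l ≤ N * (δ / (2 * N)) := mul_le_mul_of_nonneg_left this hN0.le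
      _ = δ / 2 := by field_simp
  have hl3 : Real.log (1 + N * l) ≤ δ / 2 := by
    have := Real.log_le_sub_one_of_pos (show (0 : ℝ) < 1 + N * l by positivity)
    linarith
  -- the parameter `ε`
  have hlog : Real.log l ≤ 0 := Real.log_nonpos hl0.le hl1
  set ε : ℝ := min (1 / (4 * N)) (δ / (2 * (4 * N * (1 - Real.log l)))) with hε
  have h1log : 0 < 1 - Real.log l := by linarith
  have hε0 : 0 < ε := lt_min (by positivity) (by positivity)
  have hε1 : 4 * N * ε ≤ 1 := by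
    have : ε ≤ 1 / (4 * N) := min_le_left _ _
    calc 4 * N * ε ≤ 4 * N * (1 / (4 * N)) := mul_le_mul_of_nonneg_left this (by positivity)
      _ = 1 := by field_simp
  have hε2 : 4 * N * ε * (1 - Real.log l) ≤ δ / 2 := by
    have : ε ≤ δ / (2 * (4 * N * (1 - Real.log l))) := min_le_right _ _
    calc 4 * N * ε * (1 - Real.log l) = (4 * N * (1 - Real.log l)) * ε := by ring
      _ ≤ (4 * N * (1 - Real.log l)) * (δ / (2 * (4 * N * (1 - Real.log l)))) :=
          mul_le_mul_of_nonneg_left this (by positivity)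
      _ = δ / 2 := by field_simp
  have hfin := fin_lower_one hN A hrow S hS hne d ρ hlim ε hε0 hε1 l hl0 hl1
  have h9 : q ≤ ρ + 4 * N * ε * Real.log l - Real.log (1 + N * l) := by
    have h10 : 4 * N * ε * (1 - Real.log l) = 4 * N * ε - 4 * N * ε * Real.log l := by ring
    have h11 : 0 < 4 * N * ε := by positivity
    linarith
  have h12 : (q : EReal) ≤ htNuc d (theta S) := (EReal.coe_le_coe_iff.2 h9).trans hfin
  exact absurd hq1 (not_lt.2 h12)

end CKE
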