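import Pool.Agent.Lib_MP_e09b77_an.Final

/-!
# The converse: if the nuclear dimension exceeds `d` then the entropy is infinite
-/

open scoped CStarAlgebra ComplexOrder
open Filter Topology

namespace CKE

universe u

/-- If `dim_nuc B ≤ d` fails then the coloured entropy with `d + 1` colours of every map is `⊤`. -/
theorem htNuc_eq_top {B : Type u} [CStarAlgebra B] [PartialOrder B] [StarOrderedRing B]
    (d : ℕ) (θ : B → B) (hd : ¬ NucDimLE B d) : htNuc d θ = ⊤ := by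
  unfold NucDimLE at hd
  push Not at hd
  obtain ⟨G, ε, hε, hno⟩ := hd
  refine top_le_iff.1 ?_
  refine le_trans ?_ (le_iSup_of_le G (le_iSup_of_le ε (le_iSup_of_le hε le_rfl)))
  have h1 : Tendsto (fun _ : ℕ => (⊤ : EReal)) atTop (𝓝 ⊤) := tendsto_const_nhds
  rw [← h1.limsup_eq]
  refine limsup_le_limsup ?_
  filter_upwards [eventually_ge_atTop 1] with n hn
  have h2 : rnuc d (⋃ j : Fin n, (θ^[(j : ℕ)]) '' (G : Set B)) ε = ⊤ := by
    refine top_le_iff.1 (le_iInf fun s => le_iInf fun hs => ?_)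
    refine absurd (fun b hb => hs b ?_) (hno s)
    refine Set.mem_iUnion.2 ⟨⟨0, hn⟩, ?_⟩
    simpa using hb
  have h3 : ENNReal.log ((rnuc d (⋃ j : Fin n, (θ^[(j : ℕ)]) '' (G : Set B)) ε : ℕ∞) : ENNReal)
      = ⊤ := by
    rw [h2]
    simp
  show (⊤ : EReal) ≤ ENNReal.log ((rnuc d (⋃ j : Fin n, (θ^[(j : ℕ)]) '' (G : Set B)) ε : ℕ∞) :
    ENNReal) / (n : EReal)
  rw [h3, EReal.top_div_of_pos_ne_top (by exact_mod_cast hn) (EReal.natCast_ne_top n)]

/-- The entropy of `θ_A` with `d + 1` colours is `log r(A)` iff `dim_nuc 𝒪_A ≤ d`. -/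
theorem htNuc_theta_iff {N : ℕ} (hN : 0 < N) (A : Matrix (Fin N) (Fin N) ℕ)
    (hA : ∀ i j, A i j = 0 ∨ A i j = 1) (hrow : ∀ i, ∃ j, A i j = 1) {B : Type u}
    [CStarAlgebra B] [PartialOrder B] [StarOrderedRing B] (S : Fin N → B)
    (hS : CKFamily A S) (hne : ∀ i, S i ≠ 0)
    (hgen : (StarAlgebra.adjoin ℂ (Set.range S)).topologicalClosure = ⊤) (d : ℕ) :
    htNuc d (theta S) = ENNReal.log (spectralRadius ℂ (A.map (Nat.cast : ℕ → ℂ))) ↔
      NucDimLE B d := by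
  refine ⟨fun h => ?_, fun hd => htNuc_theta hN A hA hrow S hS hne hgen d hd⟩
  by_contra hd
  rw [htNuc_eq_top d (theta S) hd] at h
  obtain ⟨ρ, -, hρ, -⟩ := growth_real A hN hA hrow
  rw [hρ] at h
  exact EReal.coe_ne_top ρ h.symm

end CKE
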