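import Pool.Agent.Lib_MP_e09b77_an.WordB

/-!
# Number of admissible words (piece GROWTHA)
-/

open Filter Topology

namespace CKE

variable {N : ℕ} (A : Matrix (Fin N) (Fin N) ℕ)

theorem growth_cons {n : ℕ} (i : Fin N) (μ : Fin (n + 1) → Fin N) :
    (Fin.cons i μ : Fin (n + 2) → Fin N) ∈ adm A (n + 2) ↔
      A i (μ 0) = 1 ∧ μ ∈ adm A (n + 1) := by
  rw [mem_adm, mem_adm]
  constructor
  · intro hμ
    constructor
    · have h := hμ 0 (by omega)
      exact h
    · intro k hk
      have h := hμ (k + 1) (by omega)
      exact h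
  · rintro ⟨h0, h1⟩ k hk
    rcases k with _ | k
    · exact h0
    · exact h1 k (by omega)

/-- the number of admissible words which start with `i` -/
theorem growth_count (hA : ∀ i j, A i j = 0 ∨ A i j = 1) (n : ℕ) (i : Fin N) :
    ((adm A (n + 1)).filter fun μ => μ 0 = i).card = ∑ j, (A ^ n) i j := by
  induction n generalizing i with
  | zero =>
    rw [pow_zero]
    have h1 : (adm A (0 + 1)).filter (fun μ => μ 0 = i) = {fun _ => i} := by
      ext μ
      rw [Finset.mem_filter, Finset.mem_singleton]
      constructor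
      · rintro ⟨-, h⟩
        funext k
        have hk : k = 0 := Fin.ext (by have := k.2; simp)
        rw [hk]
        exact h
      · rintro rfl
        exact ⟨mem_adm.2 fun k hk => absurd hk (by omega), rfl⟩
    rw [h1, Finset.card_singleton]
    simp [Matrix.one_apply]
  | succ n ih =>
    have h1 : ((adm A (n + 1 + 1)).filter fun μ => μ 0 = i).card =
        ∑ k, (((adm A (n + 1 + 1)).filter fun μ => μ 0 = i).filter fun μ => μ 1 = k).card := by
      apply Finset.card_eq_sum_card_fiberwise
      intro μ _
      exact Finset.mem_coe.2 (Finset.mem_univ _)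
    have h2 : ∀ k, (((adm A (n + 1 + 1)).filter fun μ => μ 0 = i).filter
        fun μ => μ 1 = k).card = A i k * ((adm A (n + 1)).filter fun μ => μ 0 = k).card := by
      intro k
      rcases hA i k with h0 | h0
      · rw [h0, zero_mul, Finset.card_eq_zero, Finset.eq_empty_iff_forall_notMem]
        intro μ hμ
        rw [Finset.mem_filter, Finset.mem_filter] at hμ
        have h3 := mem_adm.1 hμ.1.1 0 (by omega)
        have h4 : A (μ 0) (μ 1) = 1 := h3
        rw [hμ.1.2, hμ.2, h0] at h4
        exact absurd h4 (by norm_num)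
      · rw [h0, one_mul]
        refine Finset.card_nbij' (fun μ => Fin.tail μ) (fun μ => Fin.cons i μ) ?_ ?_ ?_ ?_
        · intro μ hμ
          rw [Finset.mem_coe, Finset.mem_filter, Finset.mem_filter] at hμ
          rw [Finset.mem_coe, Finset.mem_filter]
          have h3 : (Fin.cons (μ 0) (Fin.tail μ) : Fin (n + 2) → Fin N) ∈ adm A (n + 2) := by
            rw [Fin.cons_self_tail]
            exact hμ.1.1
          exact ⟨((growth_cons A _ _).1 h3).2, hμ.2⟩
        · intro μ hμ
          rw [Finset.mem_coe, Finset.mem_filter] at hμ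
          rw [Finset.mem_coe, Finset.mem_filter, Finset.mem_filter]
          refine ⟨⟨(growth_cons A _ _).2 ⟨?_, hμ.1⟩, rfl⟩, hμ.2⟩
          rw [hμ.2]
          exact h0
        · intro μ hμ
          rw [Finset.mem_coe, Finset.mem_filter, Finset.mem_filter] at hμ
          show (Fin.cons i (Fin.tail μ) : Fin (n + 2) → Fin N) = μ
          rw [← hμ.1.2, Fin.cons_self_tail]
        · intro μ _
          rfl
    rw [h1, Finset.sum_congr rfl fun k _ => h2 k, Finset.sum_congr rfl fun k _ => by rw [ih k],
      pow_succ']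
    simp only [Matrix.mul_apply, Finset.mul_sum]
    rw [Finset.sum_comm]

/-- PIECE GROWTHA. `#adm A (n+1) = ∑ i j, (A^n) i j` for a 0-1 matrix. -/
theorem adm_card (hA : ∀ i j, A i j = 0 ∨ A i j = 1) (n : ℕ) :
    (adm A (n + 1)).card = ∑ i, ∑ j, (A ^ n) i j := by
  have h1 : (adm A (n + 1)).card = ∑ i, ((adm A (n + 1)).filter fun μ => μ 0 = i).card := by
    apply Finset.card_eq_sum_card_fiberwise
    intro μ _
    exact Finset.mem_coe.2 (Finset.mem_univ _)
  rw [h1]
  exact Finset.sum_congr rfl fun i _ => growth_count A hA n i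

/-- PIECE GROWTHA. If no row vanishes there are admissible words of every length. -/
theorem adm_card_pos (hN : 0 < N) (hrow : ∀ i, ∃ j, A i j = 1) (n : ℕ) :
    0 < (adm A n).card := by
  choose next hnext using hrow
  rw [Finset.card_pos]
  refine ⟨fun k => next^[(k : ℕ)] ⟨0, hN⟩, mem_adm.2 fun k hk => ?_⟩
  show A (next^[k] ⟨0, hN⟩) (next^[k + 1] ⟨0, hN⟩) = 1
  rw [Function.iterate_succ_apply']
  exact hnext _

end CKE
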