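import Pool.Agent.Lib_MP_e09b77_an.Rect

/-!
# Kit for completely positive maps (piece KIT)
-/

open scoped CStarAlgebra ComplexOrder

namespace CKE

section Kit

variable {A C D : Type*} [CStarAlgebra A] [PartialOrder A] [StarOrderedRing A]
  [CStarAlgebra C] [PartialOrder C] [StarOrderedRing C]
  [CStarAlgebra D] [PartialOrder D] [StarOrderedRing D]

/-- Composition of completely positive maps. -/
noncomputable def cpComp (g : C →CP D) (f : A →CP C) : A →CP D where
  toLinearMap := g.toLinearMap ∘ₗ f.toLinearMap
  map_cstarMatrix_nonneg' k M hM := by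
    have h1 := f.map_cstarMatrix_nonneg' k M hM
    have h2 := g.map_cstarMatrix_nonneg' k _ h1
    exact h2

@[simp] theorem cpComp_apply (g : C →CP D) (f : A →CP C) (x : A) :
    cpComp g f x = g (f x) := rfl

private theorem kit_sq {A : Type*} [CStarAlgebra A] [PartialOrder A] [StarOrderedRing A] {a : A}
    (h : 0 ≤ a) : ∃ b, a = star b * b := CStarAlgebra.nonneg_iff_eq_star_mul_self.1 h

private theorem kit_sum_apply {ι a b : Type*} {A : Type*} [AddCommMonoid A] (s : Finset ι)
    (g : ι → CStarMatrix a b A) (i : a) (j : b) : (∑ k ∈ s, g k) i j = ∑ k ∈ s, g k i j := by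
  classical
  induction s using Finset.induction_on with
  | empty => rfl
  | insert x s hx ih => rw [Finset.sum_insert hx, Finset.sum_insert hx, CStarMatrix.add_apply, ih]

/-- Sum of a finite family of completely positive maps. -/
noncomputable def cpSum {ι : Type*} (s : Finset ι) (f : ι → (A →CP C)) : A →CP C where
  toLinearMap := ∑ i ∈ s, (f i).toLinearMap
  map_cstarMatrix_nonneg' k M hM := by
    have h1 : M.map (∑ i ∈ s, (f i).toLinearMap : A →ₗ[ℂ] C)
        = ∑ i ∈ s, M.map ((f i).toLinearMap : A →ₗ[ℂ] C) := by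
      ext a b
      rw [kit_sum_apply, CStarMatrix.map_apply, LinearMap.sum_apply]
      rfl
    have h2 : 0 ≤ ∑ i ∈ s, M.map ((f i).toLinearMap : A →ₗ[ℂ] C) :=
      Finset.sum_nonneg fun i _ => (f i).map_cstarMatrix_nonneg' k M hM
    rw [← h1] at h2
    exact h2

@[simp] theorem cpSum_apply {ι : Type*} (s : Finset ι) (f : ι → (A →CP C)) (x : A) :
    cpSum s f x = ∑ i ∈ s, f i x := by
  show (∑ i ∈ s, (f i).toLinearMap : A →ₗ[ℂ] C) x = _
  rw [LinearMap.sum_apply]
  rfl

/-- A (not necessarily unital) star homomorphism as a completely positive map. -/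
noncomputable def cpOfHom (π : A →⋆ₙₐ[ℂ] C) : A →CP C :=
  CompletelyPositiveMapClass.toCompletelyPositiveLinearMap π

@[simp] theorem cpOfHom_apply (π : A →⋆ₙₐ[ℂ] C) (x : A) : cpOfHom π x = π x := rfl

/-- PIECE KIT. Conjugation `x ↦ c x c*`. For `M ≥ 0` in `M_k(A)`, the matrix `M.map (c * · * c*)`
is `D * M * star D` with `D = diag(c, …, c)`; use `conjugate_nonneg'`. -/
noncomputable def cpConj (c : A) : A →CP A where
  toLinearMap := (LinearMap.mulLeft ℂ c) ∘ₗ (LinearMap.mulRight ℂ (star c))
  map_cstarMatrix_nonneg' k M hM := by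
    set D : CStarMatrix (Fin k) (Fin k) A := CStarMatrix.ofMatrix (Matrix.diagonal fun _ => c)
      with hD
    have h1 : M.map ((LinearMap.mulLeft ℂ c) ∘ₗ (LinearMap.mulRight ℂ (star c)) : A →ₗ[ℂ] A)
        = D * M * star D := by
      ext i j
      have hDa : ∀ a b, D a b = if a = b then c else 0 := fun a b => by
        rw [hD, CStarMatrix.ofMatrix_apply, Matrix.diagonal_apply]
      have hDs : ∀ a b, (star D) a b = if b = a then star c else 0 := fun a b => by
        rw [CStarMatrix.star_apply, hDa]
        split_ifs <;> simp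
      rw [CStarMatrix.map_apply, CStarMatrix.mul_apply]
      simp only [CStarMatrix.mul_apply, hDa, hDs, ite_mul, zero_mul, mul_ite, mul_zero,
        Finset.sum_ite_eq, Finset.mem_univ, if_true]
      simp [mul_assoc]
    rw [h1]
    exact star_right_conjugate_nonneg hM D

@[simp] theorem cpConj_apply (c x : A) : cpConj c x = c * (x * star c) := rfl

/-- PIECE KIT. A family of completely positive maps as one map into the product. Positivity in
`M_k(Π j, C j)` is positivity in all components, because
`M_k(Π j, C j) ≃⋆ Π j, M_k(C j)`: an element of the left side is `≥ 0` iff all its components are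
(use `CStarAlgebra.nonneg_iff_eq_star_mul_self` in each component and combine the square roots). -/
noncomputable def cpPi {ι : Type*} [Fintype ι] {C : ι → Type*} [∀ j, CStarAlgebra (C j)]
    [∀ j, PartialOrder (C j)] [∀ j, StarOrderedRing (C j)] (f : ∀ j, A →CP C j) :
    A →CP (∀ j, C j) where
  toLinearMap := LinearMap.pi fun j => (f j).toLinearMap
  map_cstarMatrix_nonneg' k M hM := by
    have h1 : ∀ j, ∃ Y : CStarMatrix (Fin k) (Fin k) (C j),
        M.map ((f j).toLinearMap : A →ₗ[ℂ] C j) = star Y * Y := fun j =>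
      kit_sq ((f j).map_cstarMatrix_nonneg' k M hM)
    choose Y hY using h1
    set Z : CStarMatrix (Fin k) (Fin k) (∀ j, C j) :=
      CStarMatrix.ofMatrix (Matrix.of fun a b => fun j => Y j a b) with hZ
    have h2 : M.map (LinearMap.pi fun j => (f j).toLinearMap : A →ₗ[ℂ] (∀ j, C j))
        = star Z * Z := by
      ext a b j
      rw [CStarMatrix.map_apply, CStarMatrix.mul_apply]
      have h3 := congrFun (congrFun (hY j) a) b
      rw [CStarMatrix.mul_apply] at h3
      rw [Finset.sum_apply]
      exact h3
    rw [h2]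
    exact star_mul_self_nonneg Z

@[simp] theorem cpPi_apply {ι : Type*} [Fintype ι] {C : ι → Type*} [∀ j, CStarAlgebra (C j)]
    [∀ j, PartialOrder (C j)] [∀ j, StarOrderedRing (C j)] (f : ∀ j, A →CP C j) (x : A) (j : ι) :
    cpPi f x j = f j x := rfl

/-- Completely positive maps are positive. -/
theorem cp_nonneg (f : A →CP C) {x : A} (hx : 0 ≤ x) : 0 ≤ f x := map_nonneg f hx

theorem cp_star (f : A →CP C) (x : A) : f (star x) = star (f x) := by
  have h1 : ∀ y : A, IsSelfAdjoint y → IsSelfAdjoint (f y) := by
    intro y hy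
    have h2 := CFC.posPart_sub_negPart y hy
    rw [← h2, map_sub]
    exact (IsSelfAdjoint.of_nonneg (cp_nonneg f (CFC.posPart_nonneg y))).sub
      (IsSelfAdjoint.of_nonneg (cp_nonneg f (CFC.negPart_nonneg y)))
  have h3 := realPart_add_I_smul_imaginaryPart x
  have hr := (h1 _ (realPart x).2).star_eq
  have hi := (h1 _ (imaginaryPart x).2).star_eq
  rw [← h3]
  simp only [star_add, star_smul, map_add, map_smul, (realPart x).2.star_eq,
    (imaginaryPart x).2.star_eq, hr, hi]

end Kit

end CKE
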