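import Pool.Agent.Lib_MP_e09b77_an.Ampl
import Pool.Agent.Lib_MP_e09b77_an.NormLe

/-!
# The maps Γ and Λ (piece LAM)
-/

open scoped CStarAlgebra ComplexOrder

namespace CKE

universe u

variable {B : Type u} [CStarAlgebra B] [PartialOrder B] [StarOrderedRing B]
  {W : Type} [Fintype W] [DecidableEq W]

/-- PIECE LAM. `Γ(x) = (w μ* x w ν)_{μν}`, a (non-unital) star homomorphism if
`∑ w μ w μ* = 1`. -/
noncomputable def Gam (w : W → B) (hw : ∑ μ, w μ * star (w μ) = 1) :
    B →⋆ₙₐ[ℂ] CStarMatrix W W B where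
  toFun x := CStarMatrix.ofMatrix fun μ ν => star (w μ) * x * w ν
  map_smul' c x := by
    refine CStarMatrix.ext fun μ ν => ?_
    change star (w μ) * (c • x) * w ν = c • (star (w μ) * x * w ν)
    rw [mul_smul_comm, smul_mul_assoc]
  map_zero' := by
    refine CStarMatrix.ext fun μ ν => ?_
    change star (w μ) * 0 * w ν = 0
    rw [mul_zero, zero_mul]
  map_add' x y := by
    refine CStarMatrix.ext fun μ ν => ?_
    change star (w μ) * (x + y) * w ν = star (w μ) * x * w ν + star (w μ) * y * w ν
    rw [mul_add, add_mul]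
  map_mul' x y := by
    refine CStarMatrix.ext fun μ ν => ?_
    rw [CStarMatrix.mul_apply]
    change star (w μ) * (x * y) * w ν
      = ∑ σ, (star (w μ) * x * w σ) * (star (w σ) * y * w ν)
    have h1 : ∀ σ, (star (w μ) * x * w σ) * (star (w σ) * y * w ν)
        = (star (w μ) * x) * (w σ * star (w σ)) * (y * w ν) := fun σ => by
      simp only [mul_assoc]
    rw [Finset.sum_congr rfl fun σ _ => h1 σ, ← Finset.sum_mul, ← Finset.mul_sum, hw]
    simp only [mul_assoc, one_mul]
  map_star' x := by
    refine CStarMatrix.ext fun μ ν => ?_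
    change star (w μ) * star x * w ν = star (star (w ν) * x * w μ)
    rw [star_mul, star_mul, star_star, mul_assoc]

theorem Gam_apply (w : W → B) (hw : ∑ μ, w μ * star (w μ) = 1) (x : B) (μ ν : W) :
    Gam w hw x μ ν = star (w μ) * x * w ν := rfl

/-- PIECE LAM. `Λ(X) = ∑ w μ X_{μν} w ν*`. Completely positive: for `M ≥ 0` in `M_k(M_W(B))`,
`M.map Λ = Cᴴ * flat M * C` with the rectangular matrix `C : (k × W) × k`,
`C (a', μ) a = if a' = a then star (w μ) else 0`; use `rect_conj_nonneg`. -/
noncomputable def Lam (w : W → B) : CStarMatrix W W B →CP B where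
  toFun X := ∑ μ, ∑ ν, w μ * X μ ν * star (w ν)
  map_add' X Y := by
    simp only [CStarMatrix.add_apply, mul_add, add_mul, Finset.sum_add_distrib]
  map_smul' c X := by
    simp only [CStarMatrix.smul_apply, mul_smul_comm, smul_mul_assoc, Finset.smul_sum,
      RingHom.id_apply]
  map_cstarMatrix_nonneg' k M hM := by
    have h1 : 0 ≤ flat (Fin k) W B M := map_nonneg (flat (Fin k) W B) hM
    let D : CStarMatrix (Fin k × W) (Fin k) B :=
      CStarMatrix.ofMatrix fun p q => if p.1 = q then star (w p.2) else 0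
    have h2 := rect_conj_nonneg D _ h1
    refine le_of_le_of_eq h2 ?_
    refine CStarMatrix.ext fun a b => ?_
    change (D.conjTranspose * flat (Fin k) W B M * D : CStarMatrix _ _ B) a b
      = ∑ μ, ∑ ν, w μ * M a b μ ν * star (w ν)
    rw [CStarMatrix.mul_apply, Fintype.sum_prod_type, Finset.sum_eq_single b]
    · rw [Finset.sum_comm]
      refine Finset.sum_congr rfl fun s _ => ?_
      rw [CStarMatrix.mul_apply, Fintype.sum_prod_type, Finset.sum_eq_single a]
      · have hD : D (b, s) b = star (w s) := by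
          change (if b = b then star (w s) else 0) = _
          rw [if_pos rfl]
        rw [hD, Finset.sum_mul]
        refine Finset.sum_congr rfl fun t _ => ?_
        congr 1
        congr 1
        change star (if a = a then star (w t) else 0) = _
        rw [if_pos rfl, star_star]
      · intro c _ hc
        refine Finset.sum_eq_zero fun t _ => ?_
        have : D.conjTranspose a (c, t) = 0 := by
          change star (if c = a then star (w t) else 0) = 0
          rw [if_neg hc, star_zero]
        rw [this, zero_mul]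
      · intro h
        exact absurd (Finset.mem_univ _) h
    · intro c _ hc
      refine Finset.sum_eq_zero fun t _ => ?_
      have : D (c, t) b = 0 := by
        change (if c = b then star (w t) else 0) = 0
        rw [if_neg hc]
      rw [this, mul_zero]
    · intro h
      exact absurd (Finset.mem_univ _) h

theorem Lam_apply (w : W → B) (X : CStarMatrix W W B) :
    Lam w X = ∑ μ, ∑ ν, w μ * X μ ν * star (w ν) := rfl

/-- PIECE LAM. -/
theorem lam_gam (w : W → B) (hw : ∑ μ, w μ * star (w μ) = 1) (x : B) :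
    Lam w (Gam w hw x) = x := by
  rw [Lam_apply]
  have h1 : ∀ μ ν, w μ * Gam w hw x μ ν * star (w ν)
      = (w μ * star (w μ)) * (x * (w ν * star (w ν))) := fun μ ν => by
    rw [Gam_apply]
    simp only [mul_assoc]
  rw [Finset.sum_congr rfl fun μ _ => Finset.sum_congr rfl fun ν _ => h1 μ ν]
  rw [← Finset.sum_mul_sum, hw, ← Finset.mul_sum, hw, mul_one, one_mul]

/-- PIECE LAM. -/
theorem lam_mul (w : W → B) (hw : ∑ μ, w μ * star (w μ) = 1) (X Y : CStarMatrix W W B) :
    Lam w X * Lam w Y = Lam w (X * Gam w hw 1 * Y) := by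
  rw [Lam_apply, Lam_apply, Lam_apply, Finset.sum_mul]
  refine Finset.sum_congr rfl fun μ _ => ?_
  have h1 : ∀ ν, (X * Gam w hw 1 * Y) μ ν
      = ∑ τ, ∑ σ, X μ σ * (star (w σ) * w τ) * Y τ ν := fun ν => by
    rw [CStarMatrix.mul_apply]
    refine Finset.sum_congr rfl fun τ _ => ?_
    rw [CStarMatrix.mul_apply, Finset.sum_mul]
    refine Finset.sum_congr rfl fun σ _ => ?_
    rw [Gam_apply, mul_one]
  have h2 : ∀ ν, w μ * (X * Gam w hw 1 * Y) μ ν * star (w ν)
      = ∑ τ, ∑ σ, (w μ * X μ σ * star (w σ)) * (w τ * Y τ ν * star (w ν)) := fun ν => by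
    rw [h1, Finset.mul_sum, Finset.sum_mul]
    refine Finset.sum_congr rfl fun τ _ => ?_
    rw [Finset.mul_sum, Finset.sum_mul]
    refine Finset.sum_congr rfl fun σ _ => ?_
    simp only [mul_assoc]
  rw [Finset.sum_congr rfl fun ν _ => h2 ν, Finset.sum_mul_sum, Finset.sum_comm]
  rw [Finset.sum_comm (s := Finset.univ (α := W)) (t := Finset.univ (α := W))
    (f := fun ν τ => ∑ σ, (w μ * X μ σ * star (w σ)) * (w τ * Y τ ν * star (w ν)))]
  refine Finset.sum_congr rfl fun τ _ => ?_
  rw [Finset.sum_comm]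
  refine Finset.sum_congr rfl fun σ _ => ?_
  rw [Finset.mul_sum]

/-- PIECE LAM. -/
theorem lam_norm (w : W → B) (hw : ∑ μ, w μ * star (w μ) = 1) (X : CStarMatrix W W B) :
    ‖Lam w X‖ ≤ ‖X‖ := by
  refine cp_norm_le (Lam w) ?_ X
  have h1 : Lam w 1 = 1 := by
    rw [Lam_apply]
    refine Eq.trans (Finset.sum_congr rfl fun μ _ => ?_) hw
    rw [Finset.sum_eq_single μ]
    · rw [CStarMatrix.one_apply_eq, mul_one]
    · intro ν _ hν
      rw [CStarMatrix.one_apply_ne (Ne.symm hν), mul_zero, zero_mul]
    · intro h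
      exact absurd (Finset.mem_univ _) h
  rw [h1]
  rcases subsingleton_or_nontrivial B with hB | hB
  · rw [Subsingleton.elim (1 : B) 0, norm_zero]
    exact zero_le_one
  · exact le_of_eq CStarRing.norm_one

end CKE
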