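import Pool.Agent.Lib_MP_e09b77_an.WordC
import Pool.Agent.Lib_MP_e09b77_an.Ball
import Pool.Agent.Lib_MP_e09b77_an.Kit

/-!
# Near words (piece NEAR)
-/

open scoped CStarAlgebra ComplexOrder

namespace CKE

universe u

variable {N : ℕ} {A : Matrix (Fin N) (Fin N) ℕ} {B : Type u} [CStarAlgebra B]
  [PartialOrder B] [StarOrderedRing B] {S : Fin N → B}

private theorem near_conj_le {X p : B} {r : ℝ} (hX : IsSelfAdjoint X) (hr : ‖X‖ ≤ r)
    (hp : star p = p) (hpp : p * p = p) : p * X * p ≤ r • p := by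
  have h1 : X ≤ algebraMap ℝ B ‖X‖ := IsSelfAdjoint.le_algebraMap_norm_self hX
  have h2 : X ≤ r • (1 : B) := h1.trans (by
    rw [Algebra.algebraMap_eq_smul_one]
    exact smul_le_smul_of_nonneg_right hr zero_le_one)
  have h3 := star_left_conjugate_le_conjugate h2 p
  rw [hp] at h3
  calc p * X * p ≤ p * (r • 1) * p := h3
    _ = r • p := by rw [mul_smul_comm, mul_one, smul_mul_assoc, hpp]

/-- PIECE NEAR. For an admissible word `μ`, the sum of `Φ(S_ν S_ν*)` (`Φ = φ ψ`) over the words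
`ν` at Hamming distance `< D` from `μ` has norm at least `1/2`.
Proof. `p = S_μ S_μ*`, a nonzero projection. For `i ≠ μ j`,
`p Φ(θ^j(S i (S i)*)) p ≤ p θ^j(S i (S i)*) p + ε p = ε p` (`theta_iterate_proj`, `word_orth`).
Hence `∑_ν hd ν μ • p Φ(S_ν S_ν*) p = ∑_j ∑_{i ≠ μ j} p Φ(θ^j(S i (S i)*)) p ≤ n N ε p`, so
`D • ∑_{ν far} p Φ(S_ν S_ν*) p ≤ n N ε p ≤ (D/4) p`. And
`∑_ν p Φ(S_ν S_ν*) p = p Φ(1) p ≥ (1 - N ε) p ≥ (3/4) p` (`Φ(1) = ∑_i Φ(S i (S i)*)`, `j = 0`).
So `∑_{ν near} p Φ(S_ν S_ν*) p ≥ (1/2) p` and the norm of the left side is `≥ 1/2`.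
(`n ≥ 1`; if `D = 0` the assumption forces `ε = 0` or treat it the same way: `hD : 4 N ε n ≤ D`
with `0 < D`.) -/
theorem near_norm (h : CKFamily A S) (hne : ∀ i, S i ≠ 0) (Φ : B →CP B) (n : ℕ) (hn : 1 ≤ n)
    (ε : ℝ) (hε : 0 < ε) (hεN : 4 * N * ε ≤ 1) (D : ℕ) (hD0 : 0 < D) (hD : 4 * N * ε * n ≤ D)
    (happ : ∀ (j : Fin n) (i : Fin N),
      ‖Φ ((theta S)^[(j : ℕ)] (S i * star (S i))) - (theta S)^[(j : ℕ)] (S i * star (S i))‖ < ε)
    (μ : Fin n → Fin N) (hμ : μ ∈ adm A n) :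
    1 / 2 ≤ ‖∑ ν ∈ Finset.univ.filter (fun ν => hd ν μ < D),
      Φ (word S n ν * star (word S n ν))‖ := by
  classical
  set P : (Fin n → Fin N) → B := fun ν => word S n ν * star (word S n ν) with hP
  have hPs : ∀ ν, star (P ν) = P ν := fun ν => by
    simp only [hP, star_mul, star_star]
  have hP0 : ∀ ν, 0 ≤ P ν := fun ν => mul_star_self_nonneg _
  have hPo : ∀ ν ν', ν ≠ ν' → P ν * P ν' = 0 := by
    intro ν ν' hne
    simp only [hP]
    calc word S n ν * star (word S n ν) * (word S n ν' * star (word S n ν'))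
        = word S n ν * (star (word S n ν) * word S n ν') * star (word S n ν') := by
          noncomm_ring
      _ = 0 := by rw [word_orth h n hne]; simp
  have hsum : ∑ ν, P ν = 1 := word_sum h n
  have hPP : P μ * P μ = P μ := by
    have h1 : P μ * ∑ ν, P ν = P μ := by rw [hsum, mul_one]
    rw [Finset.mul_sum, Finset.sum_eq_single μ (fun ν _ hν => hPo μ ν (Ne.symm hν))
      (fun hν => absurd (Finset.mem_univ μ) hν)] at h1
    exact h1
  have hPne : P μ ≠ 0 := by
    obtain ⟨m, rfl⟩ : ∃ m, n = m + 1 := ⟨n - 1, by omega⟩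
    intro h0
    exact word_ne_zero h hne m hμ ((CStarRing.mul_star_self_eq_zero_iff _).mp h0)
  set p := P μ with hp
  have hpn : ‖p‖ = 1 := by
    have h1 : ‖p‖ * ‖p‖ = ‖p‖ := by
      have h2 := CStarRing.norm_star_mul_self (x := p)
      rw [hPs μ, hPP] at h2
      exact h2.symm
    have h3 : ‖p‖ ≠ 0 := norm_ne_zero_iff.mpr hPne
    exact mul_right_cancel₀ h3 (by rw [h1, one_mul])
  set Q : (Fin n → Fin N) → B := fun ν => p * Φ (P ν) * p with hQ
  have hQ0 : ∀ ν, 0 ≤ Q ν := by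
    intro ν
    have h1 := star_left_conjugate_nonneg (cp_nonneg Φ (hP0 ν)) p
    rwa [hPs μ] at h1
  have hΦs : ∀ x, IsSelfAdjoint x → IsSelfAdjoint (Φ x) := fun x hx => by
    rw [isSelfAdjoint_iff, ← cp_star, hx.star_eq]
  -- (a)
  have ha : ∀ (j : Fin n) (i : Fin N), i ≠ μ j →
      ∑ ν, (if ν j = i then Q ν else 0) ≤ ε • p := by
    intro j i hij
    have hθ := theta_iterate_proj h n j i
    set θ := (theta S)^[(j : ℕ)] (S i * star (S i)) with hθd
    have hθs : IsSelfAdjoint θ := by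
      rw [hθ, isSelfAdjoint_iff, star_sum]
      refine Finset.sum_congr rfl fun ν _ => ?_
      split_ifs
      · exact hPs ν
      · exact star_zero _
    have h1 := near_conj_le ((hΦs θ hθs).sub hθs) (happ j i).le (hPs μ) hPP
    have h2 : p * (Φ θ - θ) * p = ∑ ν, (if ν j = i then Q ν else 0) := by
      have e1 : p * θ * p = 0 := by
        rw [hθ, Finset.mul_sum, Finset.sum_mul]
        refine Finset.sum_eq_zero fun ν _ => ?_
        split_ifs with hc
        · have hne' : μ ≠ ν := by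
            intro hcon
            rw [← hcon] at hc
            exact hij hc.symm
          have := hPo μ ν hne'
          rw [← hp] at this
          change p * P ν * p = 0
          rw [this, zero_mul]
        · simp
      rw [mul_sub, sub_mul, e1, sub_zero, hθ, map_sum, Finset.mul_sum, Finset.sum_mul]
      refine Finset.sum_congr rfl fun ν _ => ?_
      split_ifs
      · rfl
      · simp
    rw [← hp] at h1
    rw [← h2]
    exact h1
  -- (b)
  have hp0 : 0 ≤ p := hP0 μ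
  have hb : ∑ ν, (hd ν μ : ℝ) • Q ν ≤ ((n : ℝ) * N * ε) • p := by
    have e1 : ∀ ν, (hd ν μ : ℝ) • Q ν =
        ∑ j : Fin n, ∑ i : Fin N, (if i ≠ μ j then (if ν j = i then Q ν else 0) else 0) := by
      intro ν
      have e2 : ∀ j : Fin n, ∑ i : Fin N, (if i ≠ μ j then (if ν j = i then Q ν else 0) else 0) =
          if ν j ≠ μ j then Q ν else 0 := by
        intro j
        rw [Finset.sum_eq_single (ν j)]
        · simp
        · intro i _ hi
          split_ifs with h1 h2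
          · exact absurd h2.symm hi
          · rfl
          · rfl
        · intro h1
          exact absurd (Finset.mem_univ _) h1
      rw [Finset.sum_congr rfl fun j _ => e2 j, ← Finset.sum_filter, Finset.sum_const, hd,
        Nat.cast_smul_eq_nsmul]
    calc ∑ ν, (hd ν μ : ℝ) • Q ν
        = ∑ ν, ∑ j : Fin n, ∑ i : Fin N,
            (if i ≠ μ j then (if ν j = i then Q ν else 0) else 0) :=
          Finset.sum_congr rfl fun ν _ => e1 ν
      _ = ∑ j : Fin n, ∑ i : Fin N, ∑ ν,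
            (if i ≠ μ j then (if ν j = i then Q ν else 0) else 0) := by
          rw [Finset.sum_comm]
          refine Finset.sum_congr rfl fun j _ => ?_
          rw [Finset.sum_comm]
      _ ≤ ∑ _j : Fin n, ∑ _i : Fin N, ε • p := by
          refine Finset.sum_le_sum fun j _ => Finset.sum_le_sum fun i _ => ?_
          by_cases hij : i = μ j
          · simp only [hij, ne_eq, not_true_eq_false, if_false, Finset.sum_const_zero]
            exact smul_nonneg hε.le hp0
          · simp only [ne_eq, hij, not_false_eq_true, if_true]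
            exact ha j i hij
      _ = ((n : ℝ) * N * ε) • p := by
          simp only [Finset.sum_const, Finset.card_univ, Fintype.card_fin]
          rw [← Nat.cast_smul_eq_nsmul ℝ, ← Nat.cast_smul_eq_nsmul ℝ, smul_smul, smul_smul]
  -- (c)
  have hDr : (0 : ℝ) < D := by exact_mod_cast hD0
  have hc : ∑ ν ∈ Finset.univ.filter (fun ν => ¬ hd ν μ < D), Q ν ≤ (1 / 4 : ℝ) • p := by
    have h1 : (D : ℝ) • ∑ ν ∈ Finset.univ.filter (fun ν => ¬ hd ν μ < D), Q ν ≤
        ((D : ℝ) / 4) • p := by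
      calc (D : ℝ) • ∑ ν ∈ Finset.univ.filter (fun ν => ¬ hd ν μ < D), Q ν
          = ∑ ν ∈ Finset.univ.filter (fun ν => ¬ hd ν μ < D), (D : ℝ) • Q ν := Finset.smul_sum
        _ ≤ ∑ ν ∈ Finset.univ.filter (fun ν => ¬ hd ν μ < D), (hd ν μ : ℝ) • Q ν := by
            refine Finset.sum_le_sum fun ν hν => ?_
            rw [Finset.mem_filter, not_lt] at hν
            exact smul_le_smul_of_nonneg_right (by exact_mod_cast hν.2) (hQ0 ν)
        _ ≤ ∑ ν, (hd ν μ : ℝ) • Q ν :=
            Finset.sum_le_sum_of_subset_of_nonneg (Finset.filter_subset _ _)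
              fun ν _ _ => smul_nonneg (by positivity) (hQ0 ν)
        _ ≤ ((n : ℝ) * N * ε) • p := hb
        _ ≤ ((D : ℝ) / 4) • p := by
            refine smul_le_smul_of_nonneg_right ?_ hp0
            linarith
    have h2 := smul_le_smul_of_nonneg_left h1 (inv_nonneg.mpr hDr.le)
    rw [smul_smul, smul_smul, inv_mul_cancel₀ hDr.ne', one_smul] at h2
    have h3 : (D : ℝ)⁻¹ * ((D : ℝ) / 4) = 1 / 4 := by field_simp
    rwa [h3] at h2
  -- (d)
  have hd1 : ‖1 - Φ 1‖ ≤ 1 / 4 := by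
    have e1 : 1 - Φ 1 = ∑ i, (S i * star (S i) - Φ (S i * star (S i))) := by
      rw [Finset.sum_sub_distrib, h.sum_one, ← map_sum, h.sum_one]
    rw [e1]
    calc ‖∑ i, (S i * star (S i) - Φ (S i * star (S i)))‖
        ≤ ∑ i, ‖S i * star (S i) - Φ (S i * star (S i))‖ := norm_sum_le _ _
      _ ≤ ∑ _i : Fin N, ε := by
          refine Finset.sum_le_sum fun i _ => ?_
          have h1 := happ ⟨0, hn⟩ i
          simp only [Function.iterate_zero, id_eq] at h1
          rw [norm_sub_rev]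
          exact h1.le
      _ = N * ε := by simp
      _ ≤ 1 / 4 := by linarith
  have h1s : IsSelfAdjoint (1 - Φ 1) := (IsSelfAdjoint.one B).sub (hΦs 1 (IsSelfAdjoint.one B))
  have hdd := near_conj_le h1s hd1 (hPs μ) hPP
  rw [← hp] at hdd
  have hQsum : ∑ ν, Q ν = p * Φ 1 * p := by
    simp only [hQ]
    rw [← Finset.sum_mul, ← Finset.mul_sum, ← map_sum, hsum]
  have hdd2 : p - ∑ ν, Q ν ≤ (1 / 4 : ℝ) • p := by
    rw [hQsum]
    have e : p * (1 - Φ 1) * p = p - p * Φ 1 * p := by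
      rw [mul_sub, sub_mul, mul_one, hPP]
    rwa [e] at hdd
  -- (e)
  have hsplit : ∑ ν, Q ν = ∑ ν ∈ Finset.univ.filter (fun ν => hd ν μ < D), Q ν +
      ∑ ν ∈ Finset.univ.filter (fun ν => ¬ hd ν μ < D), Q ν :=
    (Finset.sum_filter_add_sum_filter_not Finset.univ _ _).symm
  have he : (1 / 2 : ℝ) • p ≤ ∑ ν ∈ Finset.univ.filter (fun ν => hd ν μ < D), Q ν := by
    have h1 := add_le_add hc hdd2
    rw [hsplit] at h1
    have h2 : (1 / 4 : ℝ) • p + (1 / 4 : ℝ) • p = p - (1 / 2 : ℝ) • p := by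
      rw [eq_sub_iff_add_eq, ← add_smul, ← add_smul]
      norm_num
    rw [h2] at h1
    set X := ∑ ν ∈ Finset.univ.filter (fun ν => hd ν μ < D), Q ν
    set Y := ∑ ν ∈ Finset.univ.filter (fun ν => ¬ hd ν μ < D), Q ν
    have h3 : Y + (p - (X + Y)) = p - X := by abel
    rw [h3] at h1
    exact (sub_le_sub_iff_left p).mp h1
  -- (f)
  have hf := CStarAlgebra.norm_le_norm_of_nonneg_of_le
    (smul_nonneg (by norm_num : (0 : ℝ) ≤ 1 / 2) hp0) he
  rw [norm_smul, hpn, mul_one] at hf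
  have hg : ∑ ν ∈ Finset.univ.filter (fun ν => hd ν μ < D), Q ν =
      p * (∑ ν ∈ Finset.univ.filter (fun ν => hd ν μ < D), Φ (P ν)) * p := by
    simp only [hQ]
    rw [← Finset.sum_mul, ← Finset.mul_sum]
  rw [hg] at hf
  have hk : ‖p * (∑ ν ∈ Finset.univ.filter (fun ν => hd ν μ < D), Φ (P ν)) * p‖ ≤
      ‖∑ ν ∈ Finset.univ.filter (fun ν => hd ν μ < D), Φ (P ν)‖ := by
    calc _ ≤ ‖p * (∑ ν ∈ Finset.univ.filter (fun ν => hd ν μ < D), Φ (P ν))‖ * ‖p‖ :=
          norm_mul_le _ _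
      _ ≤ ‖p‖ * ‖∑ ν ∈ Finset.univ.filter (fun ν => hd ν μ < D), Φ (P ν)‖ * ‖p‖ :=
          mul_le_mul_of_nonneg_right (norm_mul_le _ _) (norm_nonneg _)
      _ = _ := by rw [hpn, one_mul, mul_one]
  have hl : (1 / 2 : ℝ) = ‖(1 / 2 : ℝ)‖ := by norm_num
  calc (1 / 2 : ℝ) = ‖(1 / 2 : ℝ)‖ := hl
    _ ≤ _ := hf.trans hk

end CKE
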