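import Pool.Agent.Lib_MP_e09b77_an.OZA

/-!
# Order zero maps: multiplicativity (piece OZB)
-/

open scoped CStarAlgebra ComplexOrder ComplexStarModule

namespace CKE

section

variable {F M : Type*} [CStarAlgebra F] [PartialOrder F] [StarOrderedRing F]
  [CStarAlgebra M] [PartialOrder M] [StarOrderedRing M]

private theorem ozb_sqrt {R : Type*} [NonUnitalCStarAlgebra R] [PartialOrder R] [StarOrderedRing R]
    (x : R) (hx : 0 ≤ x) : ∃ y, x = star y * y :=
  CStarAlgebra.nonneg_iff_eq_star_mul_self.mp hx

private theorem ozb_II {R : Type*} [CStarAlgebra R] (a b : R) :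
    (a - Complex.I • b) * (a + Complex.I • b) + (a + Complex.I • b) * (a - Complex.I • b) =
      (a * a + a * a) + (b * b + b * b) := by
  simp only [sub_mul, mul_add, mul_sub, add_mul, smul_mul_smul_comm, Complex.I_mul_I,
    neg_smul, one_smul]
  abel_nf

/-- the quadratic form of a nonnegative `2 × 2` matrix -/
private theorem ozb_quad (G : CStarMatrix (Fin 2) (Fin 2) M) (hG : 0 ≤ G) (v0 v1 : M) :
    0 ≤ star v0 * G 0 0 * v0 + star v0 * G 0 1 * v1 + star v1 * G 1 0 * v0 +
      star v1 * G 1 1 * v1 := by
  obtain ⟨Y, hY⟩ := ozb_sqrt G hG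
  have hent : ∀ i j, G i j = ∑ k, star (Y k i) * Y k j := by
    intro i j
    rw [hY, CStarMatrix.mul_apply]
    refine Finset.sum_congr rfl fun k _ => ?_
    rw [CStarMatrix.star_apply]
  have h : star v0 * G 0 0 * v0 + star v0 * G 0 1 * v1 + star v1 * G 1 0 * v0 +
      star v1 * G 1 1 * v1 =
      ∑ k, star (Y k 0 * v0 + Y k 1 * v1) * (Y k 0 * v0 + Y k 1 * v1) := by
    simp only [hent, Fin.sum_univ_two, star_add, star_mul]
    noncomm_ring
  rw [h]
  exact Finset.sum_nonneg fun k _ => star_mul_self_nonneg _

/-- the positive matrix `(φ 1, φ x; φ x*, φ (x* x))` and its quadratic form -/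
private theorem ozb_form (φ : F →CP M) (x : F) (v0 v1 : M) :
    0 ≤ star v0 * φ 1 * v0 + star v0 * φ x * v1 + star v1 * φ (star x) * v0 +
      star v1 * φ (star x * x) * v1 := by
  set R : CStarMatrix (Fin 1) (Fin 2) F := CStarMatrix.ofMatrix !![1, x] with hR
  have h1 := rect_nonneg R
  have h2 := CompletelyPositiveMap.map_cstarMatrix_nonneg φ _ h1
  have h3 := ozb_quad _ h2 v0 v1
  have e00 : (R.conjTranspose * R : CStarMatrix (Fin 2) (Fin 2) F) 0 0 = 1 := by
    rw [CStarMatrix.mul_apply]
    simp [hR, CStarMatrix.conjTranspose_apply]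
  have e01 : (R.conjTranspose * R : CStarMatrix (Fin 2) (Fin 2) F) 0 1 = x := by
    rw [CStarMatrix.mul_apply]
    simp [hR, CStarMatrix.conjTranspose_apply]
  have e10 : (R.conjTranspose * R : CStarMatrix (Fin 2) (Fin 2) F) 1 0 = star x := by
    rw [CStarMatrix.mul_apply]
    simp [hR, CStarMatrix.conjTranspose_apply]
  have e11 : (R.conjTranspose * R : CStarMatrix (Fin 2) (Fin 2) F) 1 1 = star x * x := by
    rw [CStarMatrix.mul_apply]
    simp [hR, CStarMatrix.conjTranspose_apply]
  simp only [CStarMatrix.map_apply, e00, e01, e10, e11] at h3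
  exact h3

/-- step (2) -/
private theorem ozb_step2 (hF : SpanProj F) (φ : F →CP M) (h : OrderZero φ) (x : F) :
    0 ≤ φ 1 * (φ 1 * φ (star x * x) - star (φ x) * φ x) := by
  have hh : star (φ 1) = φ 1 := by rw [← cp_star, star_one]
  have hs : φ (star x) = star (φ x) := cp_star φ x
  have c1 := (oz_comm hF φ h x).eq
  have c2 := (oz_comm hF φ h (star x)).eq
  have c3 := (oz_comm hF φ h (star x * x)).eq
  rw [hs] at c2
  have h1 := ozb_form φ x (-φ x) (φ 1)
  rw [hs, hh, star_neg] at h1
  set g := φ 1
  set a := φ x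
  set b := φ (star x * x)
  have e : -star a * g * -a + -star a * a * g + g * star a * -a + g * b * g =
      g * (g * b - star a * a) := by
    have e1 : star a * g * a = g * star a * a := by rw [c2]
    have e2 : star a * a * g = g * star a * a := by
      rw [mul_assoc, ← c1, ← mul_assoc, ← c2]
    have e3 : g * b * g = g * (g * b) := by rw [mul_assoc, c3]
    calc -star a * g * -a + -star a * a * g + g * star a * -a + g * b * g
        = star a * g * a - star a * a * g - g * star a * a + g * b * g := by noncomm_ring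
      _ = g * (g * b) - g * star a * a := by rw [e1, e2, e3]; noncomm_ring
      _ = g * (g * b - star a * a) := by noncomm_ring
  rwa [e] at h1

/-- step (1) -/
private theorem ozb_step1 (hF : SpanProj F) (φ : F →CP M) (h : OrderZero φ) (x : F) :
    (φ 1 * φ (star x * x) - star (φ x) * φ x) + (φ 1 * φ (x * star x) - φ x * star (φ x)) = 0 := by
  set u : F := (ℜ x : F) with hu
  set v : F := (ℑ x : F) with hv
  have hus : IsSelfAdjoint u := (ℜ x).2
  have hvs : IsSelfAdjoint v := (ℑ x).2
  have hx : x = u + Complex.I • v := (realPart_add_I_smul_imaginaryPart x).symm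
  have q1 := oz_sq hF φ h u hus
  have q2 := oz_sq hF φ h v hvs
  have su : star (φ u) = φ u := by rw [← cp_star, hus.star_eq]
  have sv : star (φ v) = φ v := by rw [← cp_star, hvs.star_eq]
  have hsx : star x = u - Complex.I • v := by
    rw [hx, star_add, star_smul, hus.star_eq, hvs.star_eq]
    simp [sub_eq_add_neg]
  have hφx : φ x = φ u + Complex.I • φ v := by
    conv_lhs => rw [hx]
    rw [map_add, map_smul]
  have hφs : star (φ x) = φ u - Complex.I • φ v := by
    rw [← cp_star, hsx, map_sub, map_smul]
  have e1 : φ (star x * x) + φ (x * star x) = (φ (u * u) + φ (u * u)) + (φ (v * v) + φ (v * v)) := by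
    rw [← map_add, hsx]
    have : (u - Complex.I • v) * x + x * (u - Complex.I • v) =
        (u * u + u * u) + (v * v + v * v) := by
      conv_lhs => rw [hx]
      exact ozb_II u v
    rw [this, map_add, map_add, map_add]
  have e2 : star (φ x) * φ x + φ x * star (φ x) =
      (φ u * φ u + φ u * φ u) + (φ v * φ v + φ v * φ v) := by
    rw [hφs, hφx]
    exact ozb_II _ _
  have e3 : φ 1 * (φ (star x * x) + φ (x * star x)) = star (φ x) * φ x + φ x * star (φ x) := by
    rw [e1, e2, q1, q2]
    noncomm_ring
  calc _ = φ 1 * (φ (star x * x) + φ (x * star x)) -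
        (star (φ x) * φ x + φ x * star (φ x)) := by noncomm_ring
    _ = 0 := by rw [e3, sub_self]

/-- PIECE OZB. `star (φ x) * φ x = φ 1 * φ (star x * x)` for all `x`.
Proof. Write `h = φ 1 ≥ 0`, `a = φ x`, `D₁ = h * φ (star x * x) - star a * a`,
`D₂ = h * φ (x * star x) - a * star a`.
(1) `D₁ + D₂ = 0`: with `x = u + I v`, `u, v` self-adjoint, one has
`star x * x + x * star x = 2 (u² + v²)`, `star a * a + a * star a = 2 ((φ u)² + (φ v)²)`, use `oz_sq`.
(2) `h * D₁ ≥ 0` and `h * D₂ ≥ 0`: the matrix `!![1, x; star x, star x * x] = Rᴴ R`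
(`R = [1, x]`) is `≥ 0`, so `G = !![h, a; star a, φ (star x * x)] ≥ 0`, and with the column
`v = (-a, h)ᵀ`, `0 ≤ vᴴ G v = star a * h * a - star a * a * h - h * star a * a
+ h * φ (star x * x) * h = h * D₁` by commutation (`oz_comm`). The same for `star x`.
(3) Hence `h * D₁ = 0` (it is `≥ 0` and `≤ 0`), `D₁` is self-adjoint and commutes with `h`.
(4) For real `t > 0` take the column `v = (-t • (a * D₁), D₁)ᵀ`: since `h * D₁ = 0`,
`0 ≤ vᴴ G v = -2 t • (D₁ * star a * a * D₁) + D₁ * φ (star x * x) * D₁`. Dividing by `t → ∞`,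
`D₁ * star a * a * D₁ ≤ 0`, so `a * D₁ = 0`. Then
`D₁ * D₁ = (h * φ (star x * x) - star a * a) * D₁ = φ (star x * x) * (h * D₁) - star a * (a * D₁)
= 0`, so `D₁ = 0` (`D₁` self-adjoint). -/
theorem oz_star_mul_self (hF : SpanProj F) (φ : F →CP M) (h : OrderZero φ) (x : F) :
    star (φ x) * φ x = φ 1 * φ (star x * x) := by
  have s1 := ozb_step2 hF φ h x
  have s2 := ozb_step2 hF φ h (star x)
  have s3 := ozb_step1 hF φ h x
  have hs : φ (star x) = star (φ x) := cp_star φ x
  rw [star_star, hs, star_star] at s2
  have c1 := (oz_comm hF φ h x).eq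
  have c2 := (oz_comm hF φ h (star x)).eq
  have c3 := (oz_comm hF φ h (star x * x)).eq
  rw [hs] at c2
  have hh : star (φ 1) = φ 1 := by rw [← cp_star, star_one]
  have hb : star (φ (star x * x)) = φ (star x * x) := by
    rw [← cp_star, star_mul, star_star]
  have hform := ozb_form φ x
  rw [hs] at hform
  set g := φ 1
  set a := φ x
  set b := φ (star x * x)
  set D := g * b - star a * a with hD
  set D2 := g * φ (x * star x) - a * star a
  have hD2 : D2 = -D := by
    rw [eq_neg_iff_add_eq_zero, add_comm]; exact s3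
  have hgD : g * D = 0 := by
    apply le_antisymm _ s1
    rw [hD2, mul_neg] at s2
    exact neg_nonneg.mp s2
  have hDs : star D = D := by
    rw [hD, star_sub, star_mul, star_mul, star_star, hh, hb, c3]
  have hDg : D * g = 0 := by
    have := congrArg star hgD
    rwa [star_mul, star_zero, hh, hDs] at this
  -- step 4
  have haD : a * D = 0 := by
    have key : ∀ t : ℝ, 0 < t → (2 * t) * ‖star (a * D) * (a * D)‖ ≤ ‖star D * b * D‖ := by
      intro t ht
      have h1 := hform (-((t : ℂ) • (a * D))) D
      have e : star (-((t : ℂ) • (a * D))) * g * (-((t : ℂ) • (a * D))) +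
          star (-((t : ℂ) • (a * D))) * a * D + star D * star a * (-((t : ℂ) • (a * D))) +
          star D * b * D = star D * b * D - ((2 * t : ℝ) : ℂ) • (star (a * D) * (a * D)) := by
        have e1 : star (a * D) * g * (a * D) = 0 := by
          calc star (a * D) * g * (a * D) = D * (star a * g) * (a * D) := by
                rw [star_mul, hDs]; noncomm_ring
            _ = D * (g * star a) * (a * D) := by rw [c2]
            _ = (D * g) * (star a * (a * D)) := by noncomm_ring
            _ = 0 := by rw [hDg, zero_mul]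
        have e2 : star (a * D) * a * D = star (a * D) * (a * D) := by rw [mul_assoc]
        have e3 : star D * star a * (a * D) = star (a * D) * (a * D) := by rw [star_mul]
        rw [star_neg, star_smul]
        have e4 : (star (t : ℂ)) = (t : ℂ) := by simp
        rw [e4]
        have e5 : -((t : ℂ) • star (a * D)) * g * -((t : ℂ) • (a * D)) =
            ((t : ℂ) * t) • (star (a * D) * g * (a * D)) := by
          rw [neg_mul, neg_mul_neg, smul_mul_assoc, smul_mul_smul_comm]
        have e6 : -((t : ℂ) • star (a * D)) * a * D = -((t : ℂ) • (star (a * D) * (a * D))) := by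
          rw [neg_mul, neg_mul, smul_mul_assoc, smul_mul_assoc, e2]
        have e7 : star D * star a * -((t : ℂ) • (a * D)) =
            -((t : ℂ) • (star (a * D) * (a * D))) := by
          rw [mul_neg, mul_smul_comm, e3]
        rw [e5, e1, e6, e7, smul_zero]
        push_cast
        rw [mul_smul, two_smul]
        abel
      rw [e] at h1
      have h2 : ((2 * t : ℝ) : ℂ) • (star (a * D) * (a * D)) ≤ star D * b * D := sub_nonneg.mp h1
      have h3 : 0 ≤ ((2 * t : ℝ) : ℂ) • (star (a * D) * (a * D)) := by
        apply smul_nonneg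
        · rw [Complex.zero_le_real]; positivity
        · exact star_mul_self_nonneg _
      have h4 := CStarAlgebra.norm_le_norm_of_nonneg_of_le h3 h2
      rwa [norm_smul, Complex.norm_real, Real.norm_eq_abs, abs_of_pos (by positivity)] at h4
    have hz : ‖star (a * D) * (a * D)‖ = 0 := by
      by_contra hne
      have hpos : 0 < ‖star (a * D) * (a * D)‖ := lt_of_le_of_ne (norm_nonneg _) (Ne.symm hne)
      set P := ‖star (a * D) * (a * D)‖
      have h1 := key ((‖star D * b * D‖ + 1) / P) (by positivity)
      have h2 : 2 * ((‖star D * b * D‖ + 1) / P) * P = 2 * (‖star D * b * D‖ + 1) := by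
        field_simp
      rw [h2] at h1
      have := norm_nonneg (star D * b * D)
      linarith
    exact (CStarRing.star_mul_self_eq_zero_iff _).mp (norm_eq_zero.mp hz)
  have hDD : star D * D = 0 := by
    rw [hDs]
    calc D * D = (g * b - star a * a) * D := by rw [← hD]
      _ = b * (g * D) - star a * (a * D) := by rw [c3]; noncomm_ring
      _ = 0 := by rw [hgD, haD]; simp
  have hD0 : D = 0 := (CStarRing.star_mul_self_eq_zero_iff _).mp hDD
  rw [hD, sub_eq_zero] at hD0
  exact hD0.symm

end

end CKE
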