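import Pool.Agent.Lib_MP_e09b77_an.Defs

/-!
# Rectangular matrices (piece RECT)
-/

open scoped CStarAlgebra ComplexOrder

namespace CKE

section Rect

private theorem rect_root {B : Type*} [CStarAlgebra B] [PartialOrder B] [StarOrderedRing B]
    {x : B} (hx : 0 ≤ x) : ∃ y, x = star y * y :=
  CStarAlgebra.nonneg_iff_eq_star_mul_self.mp hx

variable {M : Type*} [CStarAlgebra M] [PartialOrder M] [StarOrderedRing M]

omit [PartialOrder M] [StarOrderedRing M] in
private theorem rect_sum_apply {ι b c : Type*} [Fintype ι]
    (f : ι → CStarMatrix b c M) (i : b) (j : c) :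
    (∑ k, f k) i j = ∑ k, f k i j := by
  classical
  let ev : CStarMatrix b c M →+ M :=
    { toFun := fun X => X i j
      map_zero' := rfl
      map_add' := fun _ _ => rfl }
  exact map_sum ev f Finset.univ

/-- PIECE RECT. `Cᴴ * C ≥ 0` for a rectangular matrix `C` over a `C*`-algebra.
Proof: if `b` is empty this is trivial (`Subsingleton`). Otherwise fix `b₀ : b`; for `i : a` let
`R i : CStarMatrix b b M` be the square matrix whose row `b₀` is the row `i` of `C`, all other rows
are zero. Then `star (R i) * R i` has entries `star (C i β) * C i β'`, so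
`Cᴴ * C = ∑ i, star (R i) * R i`, a sum of nonnegative elements. -/
theorem rect_nonneg {a b : Type*} [Fintype a] [Fintype b] [DecidableEq b]
    (C : CStarMatrix a b M) : 0 ≤ (C.conjTranspose * C : CStarMatrix b b M) := by
  rcases isEmpty_or_nonempty b with hb | ⟨⟨b₀⟩⟩
  · exact le_of_eq (CStarMatrix.ext fun i => isEmptyElim i)
  · let R : a → CStarMatrix b b M := fun i =>
      CStarMatrix.ofMatrix (fun β γ => if β = b₀ then C i γ else 0)
    have hR : ∀ i β γ, R i β γ = if β = b₀ then C i γ else 0 := fun _ _ _ => rfl
    have h : (C.conjTranspose * C : CStarMatrix b b M) = ∑ i, star (R i) * R i := by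
      ext β γ
      rw [rect_sum_apply, CStarMatrix.mul_apply]
      refine Finset.sum_congr rfl fun i _ => ?_
      rw [CStarMatrix.mul_apply, CStarMatrix.conjTranspose_apply,
        Finset.sum_eq_single b₀]
      · rw [CStarMatrix.star_apply, hR, hR, if_pos rfl, if_pos rfl]
      · intro k _ hk
        rw [hR i k γ, if_neg hk, mul_zero]
      · intro h
        exact absurd (Finset.mem_univ _) h
    rw [h]
    exact Finset.sum_nonneg fun i _ => star_mul_self_nonneg _

omit [PartialOrder M] [StarOrderedRing M] in
private theorem rect_mul_assoc {a b c d : Type*} [Fintype b] [Fintype c]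
    (X : CStarMatrix a b M) (Y : CStarMatrix b c M) (Z : CStarMatrix c d M) :
    X * Y * Z = X * (Y * Z) :=
  Matrix.mul_assoc (X : Matrix a b M) (Y : Matrix b c M) (Z : Matrix c d M)

/-- PIECE RECT. `Cᴴ * X * C ≥ 0` for `X ≥ 0`: write `X = star Y * Y`
(`CStarAlgebra.nonneg_iff_eq_star_mul_self`) and use `rect_nonneg` for `Y * C`. -/
theorem rect_conj_nonneg {a b : Type*} [Fintype a] [DecidableEq a] [Fintype b] [DecidableEq b]
    (C : CStarMatrix a b M) (X : CStarMatrix a a M) (hX : 0 ≤ X) :
    0 ≤ (C.conjTranspose * X * C : CStarMatrix b b M) := by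
  obtain ⟨Y, hY⟩ := rect_root hX
  have h := rect_nonneg (M := M) (Y * C : CStarMatrix a b M)
  have e : ((Y * C : CStarMatrix a b M).conjTranspose : CStarMatrix b a M)
      = C.conjTranspose * (star Y : CStarMatrix a a M) := by
    exact Matrix.conjTranspose_mul (Y : Matrix a a M) (C : Matrix a b M)
  rw [e] at h
  have e2 : (C.conjTranspose * X * C : CStarMatrix b b M)
      = C.conjTranspose * (star Y : CStarMatrix a a M) * (Y * C : CStarMatrix a b M) := by
    rw [hY, rect_mul_assoc, rect_mul_assoc, rect_mul_assoc]
  rw [e2]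
  exact h

end Rect

end CKE
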