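import Pool.Agent.Lib_MP_e09b77_an.Defs

/-!
# Rørdam lemma (piece ROOT)
-/

open scoped CStarAlgebra ComplexOrder

namespace CKE

section Root

variable {M : Type*} [CStarAlgebra M] [PartialOrder M] [StarOrderedRing M]

open Filter Topology

private lemma root_star_sqrt (a : M) : star (CFC.sqrt a) = CFC.sqrt a :=
  (IsSelfAdjoint.of_nonneg (CFC.sqrt_nonneg a)).star_eq

omit [PartialOrder M] [StarOrderedRing M] in
private lemma root_norm_one : ‖(1 : M)‖ ≤ 1 := by
  rcases subsingleton_or_nontrivial M with h | h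
  · rw [Subsingleton.elim (1 : M) 0, norm_zero]
    exact zero_le_one
  · exact CStarRing.norm_one.le

private lemma root_norm (y x : M) : ‖y * x‖ = ‖CFC.sqrt (star y * y) * x‖ := by
  have hz : 0 ≤ star y * y := star_mul_self_nonneg y
  have h1 : ‖y * x‖ * ‖y * x‖ =
      ‖CFC.sqrt (star y * y) * x‖ * ‖CFC.sqrt (star y * y) * x‖ := by
    rw [← CStarRing.norm_star_mul_self, ← CStarRing.norm_star_mul_self]
    have h2 : star (y * x) * (y * x) = star x * (star y * y) * x := by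
      rw [star_mul]; simp only [mul_assoc]
    have h3 : star (CFC.sqrt (star y * y) * x) * (CFC.sqrt (star y * y) * x) =
        star x * (CFC.sqrt (star y * y) * CFC.sqrt (star y * y)) * x := by
      rw [star_mul, root_star_sqrt]; simp only [mul_assoc]
    rw [h2, h3, CFC.sqrt_mul_sqrt_self _ hz]
  exact (mul_self_inj_of_nonneg (norm_nonneg _) (norm_nonneg _)).1 h1

private lemma root_conj (K c z : M) (hK : star K = K) (hc : 0 ≤ c) (hz : c ≤ z) :
    ‖K * CFC.sqrt c‖ * ‖K * CFC.sqrt c‖ ≤ ‖K * z * K‖ := by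
  rw [← CStarRing.norm_self_mul_star, star_mul, root_star_sqrt, hK]
  have h1 : K * CFC.sqrt c * (CFC.sqrt c * K) = K * (CFC.sqrt c * CFC.sqrt c) * K := by
    simp only [mul_assoc]
  rw [h1, CFC.sqrt_mul_sqrt_self _ hc]
  have h2 : star K * c * K ≤ star K * z * K := star_left_conjugate_le_conjugate hz K
  have h3 : 0 ≤ star K * c * K := star_left_conjugate_nonneg hc K
  rw [hK] at h2 h3
  exact CStarAlgebra.norm_le_norm_of_nonneg_of_le h3 h2

private lemma root_sqrt_cfc (z : M) (hz : 0 ≤ z) : CFC.sqrt z = cfc (fun t : ℝ => √t) z := by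
  have hb : 0 ≤ cfc (fun t : ℝ => √t) z := cfc_nonneg fun x _ => Real.sqrt_nonneg x
  refine CFC.sqrt_unique ?_ hb
  rw [← cfc_mul (fun t : ℝ => √t) (fun t : ℝ => √t) z (by fun_prop) (by fun_prop)]
  have h1 : cfc (fun t : ℝ => √t * √t) z = cfc (fun t : ℝ => t) z := by
    apply cfc_congr
    intro t ht
    exact Real.mul_self_sqrt (spectrum_nonneg_of_nonneg hz ht)
  rw [h1]
  exact cfc_id' ℝ z

/-- the regularised inverse square root -/
private noncomputable def rg (ε t : ℝ) : ℝ := (√(max t 0 + ε))⁻¹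

private lemma rg_cont {ε : ℝ} (hε : 0 < ε) : Continuous (rg ε) := by
  unfold rg
  refine Continuous.inv₀ (by fun_prop) fun t => ?_
  have : 0 < max t 0 + ε := by positivity
  exact (Real.sqrt_pos.2 this).ne'

private lemma rg_nonneg (ε t : ℝ) : 0 ≤ rg ε t := by unfold rg; positivity

private lemma rg_sq {ε t : ℝ} (hε : 0 < ε) (ht : 0 ≤ t) : rg ε t * rg ε t = (t + ε)⁻¹ := by
  unfold rg
  rw [max_eq_left ht, ← mul_inv, Real.mul_self_sqrt (by linarith)]

private lemma rg_mul {ε t : ℝ} (hε : 0 < ε) (ht : 0 ≤ t) :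
    √t - √ε ≤ t * rg ε t ∧ t * rg ε t ≤ √t := by
  unfold rg
  rw [max_eq_left ht]
  have h0 : 0 < √(t + ε) := Real.sqrt_pos.2 (by linarith)
  have h1 : √t * √t = t := Real.mul_self_sqrt ht
  have h2 : √ε * √ε = ε := Real.mul_self_sqrt hε.le
  have h3 : √(t + ε) * √(t + ε) = t + ε := Real.mul_self_sqrt (by linarith)
  have h4 := Real.sqrt_nonneg t
  have h5 := Real.sqrt_nonneg ε
  have h6 : √t ≤ √(t + ε) := Real.sqrt_le_sqrt (by linarith)
  have h7 : √(t + ε) ≤ √t + √ε := by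
    nlinarith [mul_nonneg h4 h5]
  rw [← div_eq_mul_inv]
  constructor
  · rw [le_div_iff₀ h0]
    nlinarith [mul_nonneg h4 h5]
  · rw [div_le_iff₀ h0]
    nlinarith

private lemma root_spec {z : M} (hz : 0 ≤ z) {t : ℝ} (ht : t ∈ spectrum ℝ z) : 0 ≤ t :=
  spectrum_nonneg_of_nonneg hz ht

private lemma root_cauchy (y c : M) (hc : 0 ≤ c) (h1 : c ≤ star y * y) {ε ε' m : ℝ} (hε : 0 < ε)
    (hε' : 0 < ε') (hm : ε ≤ m) (hm' : ε' ≤ m) :
    ‖y * cfc (rg ε) (star y * y) * CFC.sqrt c - y * cfc (rg ε') (star y * y) * CFC.sqrt c‖ ≤ √m := by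
  have hz : 0 ≤ star y * y := star_mul_self_nonneg y
  have hcont := rg_cont hε
  have hcont' := rg_cont hε'
  set z := star y * y with hzdef
  have h2 : y * cfc (rg ε) z * CFC.sqrt c - y * cfc (rg ε') z * CFC.sqrt c =
      y * ((cfc (rg ε) z - cfc (rg ε') z) * CFC.sqrt c) := by
    noncomm_ring
  have h3 : CFC.sqrt z * ((cfc (rg ε) z - cfc (rg ε') z) * CFC.sqrt c) =
      cfc (fun t => √t * (rg ε t - rg ε' t)) z * CFC.sqrt c := by
    rw [← mul_assoc, root_sqrt_cfc z hz, ← cfc_sub (rg ε) (rg ε') z (by fun_prop) (by fun_prop),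
      ← cfc_mul (fun t : ℝ => √t) (fun t => rg ε t - rg ε' t) z (by fun_prop) (by fun_prop)]
  rw [h2, root_norm, ← hzdef, h3]
  set K : M := cfc (fun t => √t * (rg ε t - rg ε' t)) z with hKdef
  have hK : star K = K := (cfc_predicate (fun t => √t * (rg ε t - rg ε' t)) z).star_eq
  have h4 := root_conj K c z hK hc h1
  have h5 : K * z * K = cfc (fun t => (√t * (rg ε t - rg ε' t)) * t * (√t * (rg ε t - rg ε' t))) z := by
    rw [cfc_mul (fun t => (√t * (rg ε t - rg ε' t)) * t) (fun t => √t * (rg ε t - rg ε' t)) z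
      (by fun_prop) (by fun_prop), cfc_mul (fun t => √t * (rg ε t - rg ε' t)) (fun t => t) z
      (by fun_prop) (by fun_prop), cfc_id' ℝ z]
  have h6 : ‖K * z * K‖ ≤ m := by
    rw [h5]
    refine norm_cfc_le (by linarith) fun t ht => ?_
    have ht0 := root_spec hz ht
    have e1 := Real.mul_self_sqrt ht0
    have e2 : (√t * (rg ε t - rg ε' t)) * t * (√t * (rg ε t - rg ε' t)) =
        (t * rg ε t - t * rg ε' t) ^ 2 := by
      linear_combination (t * (rg ε t - rg ε' t) ^ 2) * e1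
    obtain ⟨a1, a2⟩ := rg_mul hε ht0
    obtain ⟨b1, b2⟩ := rg_mul hε' ht0
    have e3 := Real.mul_self_sqrt hε.le
    have e4 := Real.mul_self_sqrt hε'.le
    have e5 := Real.sqrt_nonneg ε
    have e6 := Real.sqrt_nonneg ε'
    rw [e2, Real.norm_eq_abs, abs_of_nonneg (sq_nonneg _)]
    rcases le_total (t * rg ε t) (t * rg ε' t) with h | h
    · have h7 := pow_le_pow_left₀ (sub_nonneg.2 h)
        (by linarith : t * rg ε' t - t * rg ε t ≤ √ε) 2
      have h8 : (t * rg ε t - t * rg ε' t) ^ 2 = (t * rg ε' t - t * rg ε t) ^ 2 := by ring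
      rw [h8]
      exact h7.trans (by rw [sq, e3]; exact hm)
    · have h7 := pow_le_pow_left₀ (sub_nonneg.2 h)
        (by linarith : t * rg ε t - t * rg ε' t ≤ √ε') 2
      exact h7.trans (by rw [sq, e4]; exact hm')
  apply Real.le_sqrt_of_sq_le
  rw [sq]
  exact h4.trans h6

private lemma root_mod (y c : M) (hc : 0 ≤ c) (h1 : c ≤ star y * y) {ε : ℝ} (hε : 0 < ε) :
    ‖star (y * cfc (rg ε) (star y * y) * CFC.sqrt c) * (y * cfc (rg ε) (star y * y) * CFC.sqrt c) -
      c‖ ≤ ε := by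
  have hz : 0 ≤ star y * y := star_mul_self_nonneg y
  have hcont := rg_cont hε
  have h2 : star (y * cfc (rg ε) (star y * y) * CFC.sqrt c) *
      (y * cfc (rg ε) (star y * y) * CFC.sqrt c) =
      CFC.sqrt c * (cfc (rg ε) (star y * y) * (star y * y) * cfc (rg ε) (star y * y)) * CFC.sqrt c := by
    rw [star_mul, star_mul, root_star_sqrt,
      (cfc_predicate (rg ε) (star y * y) : IsSelfAdjoint _).star_eq]
    simp only [mul_assoc]
  rw [h2]
  set z := star y * y with hzdef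
  have h3 : cfc (rg ε) z * z * cfc (rg ε) z = cfc (fun t => rg ε t * t * rg ε t) z := by
    rw [cfc_mul (fun t => rg ε t * t) (rg ε) z (by fun_prop) (by fun_prop),
      cfc_mul (rg ε) (fun t => t) z (by fun_prop) (by fun_prop), cfc_id' ℝ z]
  have hr : Continuous fun t => √(1 - rg ε t * t * rg ε t) := by fun_prop
  set R : M := cfc (fun t => √(1 - rg ε t * t * rg ε t)) z with hRdef
  have hR : star R = R := (cfc_predicate (fun t => √(1 - rg ε t * t * rg ε t)) z :
    IsSelfAdjoint _).star_eq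
  have hval : ∀ t ∈ spectrum ℝ z, 1 - rg ε t * t * rg ε t = ε / (t + ε) := by
    intro t ht
    have ht0 := root_spec hz ht
    have e1 := rg_sq hε ht0
    have e2 : rg ε t * t * rg ε t = t * (t + ε)⁻¹ := by
      linear_combination t * e1
    have e3 : t + ε ≠ 0 := by positivity
    rw [e2]
    field_simp
    ring
  have h4 : R * R = 1 - cfc (fun t => rg ε t * t * rg ε t) z := by
    rw [hRdef, ← cfc_mul _ _ z (by fun_prop) (by fun_prop)]
    have h5 : cfc (fun t => √(1 - rg ε t * t * rg ε t) * √(1 - rg ε t * t * rg ε t)) z =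
        cfc (fun t => 1 - rg ε t * t * rg ε t) z := by
      apply cfc_congr
      intro t ht
      refine Real.mul_self_sqrt ?_
      rw [hval t ht]
      have ht0 := root_spec hz ht
      positivity
    rw [h5, cfc_sub (fun _ => (1 : ℝ)) (fun t => rg ε t * t * rg ε t) z (by fun_prop) (by fun_prop),
      cfc_const_one ℝ z]
  have h6 : CFC.sqrt c * (cfc (rg ε) z * z * cfc (rg ε) z) * CFC.sqrt c - c =
      -(star (R * CFC.sqrt c) * (R * CFC.sqrt c)) := by
    have h7 : star (R * CFC.sqrt c) * (R * CFC.sqrt c) = CFC.sqrt c * (R * R) * CFC.sqrt c := by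
      rw [star_mul, root_star_sqrt, hR]
      simp only [mul_assoc]
    rw [h7, h4, h3]
    have h8 := CFC.sqrt_mul_sqrt_self c hc
    rw [mul_sub, sub_mul, mul_one, h8]
    abel
  rw [h6, norm_neg, CStarRing.norm_star_mul_self]
  refine (root_conj R c z hR hc h1).trans ?_
  have h9 : R * z * R = cfc (fun t => √(1 - rg ε t * t * rg ε t) * t * √(1 - rg ε t * t * rg ε t)) z := by
    rw [cfc_mul (fun t => √(1 - rg ε t * t * rg ε t) * t) (fun t => √(1 - rg ε t * t * rg ε t)) z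
      (by fun_prop) (by fun_prop), cfc_mul (fun t => √(1 - rg ε t * t * rg ε t)) (fun t => t) z
      (by fun_prop) (by fun_prop), cfc_id' ℝ z]
  rw [h9]
  refine norm_cfc_le hε.le fun t ht => ?_
  have ht0 := root_spec hz ht
  have e1 : √(1 - rg ε t * t * rg ε t) * √(1 - rg ε t * t * rg ε t) = ε / (t + ε) := by
    rw [Real.mul_self_sqrt, hval t ht]
    rw [hval t ht]
    positivity
  have e2 : √(1 - rg ε t * t * rg ε t) * t * √(1 - rg ε t * t * rg ε t) = t * (ε / (t + ε)) := by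
    linear_combination t * e1
  rw [e2, Real.norm_eq_abs, abs_of_nonneg (by positivity), mul_div_assoc', div_le_iff₀ (by positivity)]
  nlinarith

private lemma root_dist (y c : M) (hc : 0 ≤ c) (h1 : c ≤ star y * y) (δ : ℝ) (hδ : 0 ≤ δ)
    (h2 : star y * y ≤ c + (δ : ℂ) • (1 : M)) {ε : ℝ} (hε : 0 < ε) :
    ‖y * cfc (rg ε) (star y * y) * CFC.sqrt c - y‖ ≤ √δ + √ε := by
  have hz : 0 ≤ star y * y := star_mul_self_nonneg y
  have hcont := rg_cont hε
  have h3 : y * cfc (rg ε) (star y * y) * CFC.sqrt c - y =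
      y * (cfc (rg ε) (star y * y) * CFC.sqrt c - 1) := by
    rw [mul_sub, mul_one, mul_assoc]
  rw [h3, root_norm]
  set z := star y * y with hzdef
  have h4 : CFC.sqrt z * (cfc (rg ε) z * CFC.sqrt c - 1) =
      CFC.sqrt z * cfc (rg ε) z * (CFC.sqrt c - CFC.sqrt z) +
        (CFC.sqrt z * cfc (rg ε) z * CFC.sqrt z - CFC.sqrt z) := by
    noncomm_ring
  have h5 : CFC.sqrt z * cfc (rg ε) z = cfc (fun t => √t * rg ε t) z := by
    rw [root_sqrt_cfc z hz, ← cfc_mul (fun t : ℝ => √t) (rg ε) z (by fun_prop) (by fun_prop)]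
  have h6 : CFC.sqrt z * cfc (rg ε) z * CFC.sqrt z - CFC.sqrt z =
      cfc (fun t => √t * rg ε t * √t - √t) z := by
    rw [h5, root_sqrt_cfc z hz, ← cfc_mul (fun t => √t * rg ε t) (fun t : ℝ => √t) z (by fun_prop)
      (by fun_prop), ← cfc_sub (fun t => √t * rg ε t * √t) (fun t : ℝ => √t) z (by fun_prop)
      (by fun_prop)]
  have n1 : ‖CFC.sqrt z * cfc (rg ε) z‖ ≤ 1 := by
    rw [h5]
    refine norm_cfc_le zero_le_one fun t ht => ?_
    have ht0 := root_spec hz ht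
    have e1 := rg_sq hε ht0
    have e2 := Real.mul_self_sqrt ht0
    have e3 : 0 ≤ √t * rg ε t := mul_nonneg (Real.sqrt_nonneg t) (rg_nonneg ε t)
    rw [Real.norm_eq_abs, abs_of_nonneg e3]
    have e4 : (√t * rg ε t) * (√t * rg ε t) = t * (t + ε)⁻¹ := by
      linear_combination (rg ε t * rg ε t) * e2 + t * e1
    have e5 : t * (t + ε)⁻¹ ≤ 1 := by
      rw [← div_eq_mul_inv, div_le_one (by positivity)]
      linarith
    nlinarith
  have n2 : ‖CFC.sqrt z * cfc (rg ε) z * CFC.sqrt z - CFC.sqrt z‖ ≤ √ε := by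
    rw [h6]
    refine norm_cfc_le (Real.sqrt_nonneg ε) fun t ht => ?_
    have ht0 := root_spec hz ht
    have e2 := Real.mul_self_sqrt ht0
    obtain ⟨a1, a2⟩ := rg_mul hε ht0
    have e4 : √t * rg ε t * √t - √t = t * rg ε t - √t := by
      linear_combination (rg ε t) * e2
    rw [e4, Real.norm_eq_abs, abs_le]
    constructor
    · linarith
    · linarith [Real.sqrt_nonneg ε]
  have n3 : ‖CFC.sqrt c - CFC.sqrt z‖ ≤ √δ := by
    have hsc := CFC.sqrt_nonneg c
    have hone : (0 : M) ≤ 1 := zero_le_one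
    have hd1 : (0 : M) ≤ ((√δ : ℝ) : ℂ) • (1 : M) := smul_nonneg (by exact_mod_cast Real.sqrt_nonneg δ) hone
    have h7 : c ≤ z := h1
    have h8 : CFC.sqrt c ≤ CFC.sqrt z := CFC.sqrt_le_sqrt _ _ h7
    have h9 : z ≤ (CFC.sqrt c + ((√δ : ℝ) : ℂ) • (1 : M)) * (CFC.sqrt c + ((√δ : ℝ) : ℂ) • (1 : M)) := by
      refine h2.trans ?_
      have e1 : (CFC.sqrt c + ((√δ : ℝ) : ℂ) • (1 : M)) * (CFC.sqrt c + ((√δ : ℝ) : ℂ) • (1 : M)) =
          (c + (δ : ℂ) • (1 : M)) + ((2 * √δ : ℝ) : ℂ) • CFC.sqrt c := by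
        have e2 := CFC.sqrt_mul_sqrt_self c hc
        have e3 : (((√δ : ℝ) : ℂ)) * (((√δ : ℝ) : ℂ)) = (δ : ℂ) := by
          rw [← Complex.ofReal_mul, Real.mul_self_sqrt hδ]
        rw [add_mul, mul_add, mul_add, e2, smul_mul_smul_comm, e3, mul_one, smul_mul_assoc, one_mul,
          mul_smul_comm, mul_one]
        have e4 : ((2 * √δ : ℝ) : ℂ) • CFC.sqrt c = ((√δ : ℝ) : ℂ) • CFC.sqrt c + ((√δ : ℝ) : ℂ) • CFC.sqrt c := by
          rw [← add_smul]
          congr 1
          push_cast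
          ring
        rw [e4]
        abel
      rw [e1]
      exact le_add_of_nonneg_right (smul_nonneg (by
        have : (0 : ℝ) ≤ 2 * √δ := by positivity
        exact_mod_cast this) hsc)
    have h10 : CFC.sqrt z ≤ CFC.sqrt c + ((√δ : ℝ) : ℂ) • (1 : M) := by
      have := CFC.sqrt_le_sqrt _ _ h9
      rwa [CFC.sqrt_mul_self _ (add_nonneg hsc hd1)] at this
    have h11 : 0 ≤ CFC.sqrt z - CFC.sqrt c := sub_nonneg.2 h8
    have h12 : CFC.sqrt z - CFC.sqrt c ≤ ((√δ : ℝ) : ℂ) • (1 : M) := by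
      rw [sub_le_iff_le_add, add_comm]
      exact h10
    have h13 := CStarAlgebra.norm_le_norm_of_nonneg_of_le h11 h12
    rw [norm_sub_rev]
    refine h13.trans ?_
    rw [norm_smul, Complex.norm_real, Real.norm_eq_abs, abs_of_nonneg (Real.sqrt_nonneg δ)]
    have := root_norm_one (M := M)
    have h14 := Real.sqrt_nonneg δ
    nlinarith
  rw [h4]
  refine (norm_add_le _ _).trans (add_le_add ?_ n2)
  refine (norm_mul_le _ _).trans ?_
  have := norm_nonneg (CFC.sqrt c - CFC.sqrt z)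
  nlinarith

/-- PIECE ROOT (Rørdam). Let `0 ≤ c ≤ y* y ≤ c + δ`. Then there is `u` with `u* u = c`,
`u` in the closure of `y M` (here: `P u = u` whenever `P y = y`) and `‖u - y‖ ≤ √δ`.
Proof. Put `z = y* y`, `g_n(t) = (t + 1/(n+1))^(-1/2)` and `s_n = y * g_n(z) * √c`
(continuous functional calculus on `z ≥ 0`).
* Cauchy: `‖s_n - s_m‖² = ‖√c (g_n - g_m)(z) z (g_n - g_m)(z) √c‖ = ‖k(z) √c‖²` with
`k(t) = √t (g_n - g_m)(t)`, and `‖k(z) √c‖² = ‖k(z) c k(z)‖ ≤ ‖k(z) z k(z)‖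
= sup t² (g_n - g_m)(t)²`, and `t g_n(t)` is within `√(1/(n+1))` of `√t` for `t ≥ 0`.
* `u = lim s_n`. `s_n* s_n = √c (z/(z + 1/(n+1))) √c`, and
`c - s_n* s_n = √c ((1/(n+1)) (z + 1/(n+1))⁻¹) √c` has norm
`‖r c r‖ ≤ ‖r z r‖ ≤ 1/(n+1)` with `r = ((1/(n+1)) (z + 1/(n+1))⁻¹)^(1/2)`. So `u* u = c`.
* `‖s_n - y‖² = ‖√c - …‖`: `‖s_n - y‖ = ‖√z (g_n(z) √c - 1)‖ ≤ ‖√z g_n(z)‖ ‖√c - √z‖ +
‖√z (g_n(z) √z - 1)‖ ≤ ‖√c - √z‖ + √(1/(n+1))` (use `‖y x‖ = ‖√z x‖`), and `√c ≤ √z ≤
√(c + δ) ≤ √c + √δ` (operator monotonicity of the square root, `CFC.sqrt_le_sqrt` or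
`CFC.monotone_sqrt`), so `‖√z - √c‖ ≤ √δ`. -/
theorem rordam (y c : M) (hc : 0 ≤ c) (h1 : c ≤ star y * y) (δ : ℝ) (hδ : 0 ≤ δ)
    (h2 : star y * y ≤ c + (δ : ℂ) • (1 : M)) :
    ∃ u : M, star u * u = c ∧ (∀ P : M, P * y = y → P * u = u) ∧ ‖u - y‖ ≤ √δ := by
  set s : ℕ → M := fun n => y * cfc (rg (1 / ((n : ℝ) + 1))) (star y * y) * CFC.sqrt c with hs
  have hpos : ∀ n : ℕ, (0 : ℝ) < 1 / ((n : ℝ) + 1) := fun n => by positivity
  have hlim : Tendsto (fun n : ℕ => 1 / ((n : ℝ) + 1)) atTop (𝓝 0) :=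
    tendsto_one_div_add_atTop_nhds_zero_nat
  have hlims : Tendsto (fun n : ℕ => √(1 / ((n : ℝ) + 1))) atTop (𝓝 0) := by
    have h0 := (Real.continuous_sqrt.tendsto 0).comp hlim
    rw [Real.sqrt_zero] at h0
    exact h0
  have hC : CauchySeq s := by
    refine cauchySeq_of_le_tendsto_0 (fun n : ℕ => √(1 / ((n : ℝ) + 1))) ?_ hlims
    intro n m k hn hm
    rw [dist_eq_norm]
    refine root_cauchy y c hc h1 (hpos n) (hpos m) ?_ ?_
    · exact one_div_le_one_div_of_le (by positivity) (by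
        have : (k : ℝ) ≤ n := by exact_mod_cast hn
        linarith)
    · exact one_div_le_one_div_of_le (by positivity) (by
        have : (k : ℝ) ≤ m := by exact_mod_cast hm
        linarith)
  obtain ⟨u, hu⟩ := cauchySeq_tendsto_of_complete hC
  refine ⟨u, ?_, ?_, ?_⟩
  · have t1 : Tendsto (fun n => star (s n) * s n) atTop (𝓝 (star u * u)) := hu.star.mul hu
    have t2 : Tendsto (fun n => star (s n) * s n) atTop (𝓝 c) := by
      rw [tendsto_iff_norm_sub_tendsto_zero]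
      exact squeeze_zero (fun n => norm_nonneg _) (fun n => root_mod y c hc h1 (hpos n)) hlim
    exact tendsto_nhds_unique t1 t2
  · intro P hP
    have t1 : Tendsto (fun n => P * s n) atTop (𝓝 (P * u)) := hu.const_mul P
    have t2 : (fun n => P * s n) = s := by
      funext n
      simp only [hs]
      rw [← mul_assoc, ← mul_assoc, hP]
    rw [t2] at t1
    exact tendsto_nhds_unique t1 hu
  · have t1 : Tendsto (fun n => ‖s n - y‖) atTop (𝓝 ‖u - y‖) := (hu.sub_const y).norm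
    have t2 : Tendsto (fun n : ℕ => √δ + √(1 / ((n : ℝ) + 1))) atTop (𝓝 (√δ + 0)) :=
      hlims.const_add _
    rw [add_zero] at t2
    exact le_of_tendsto_of_tendsto' t1 t2 fun n => root_dist y c hc h1 δ hδ h2 (hpos n)

end Root

end CKE
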