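import Pool.Agent.Lib_MP_e09b77_an.Root

/-!
# Rørdam lemma for a corner (piece ROOTCUT)
-/

open scoped CStarAlgebra ComplexOrder

namespace CKE

section Root

variable {M : Type*} [CStarAlgebra M] [PartialOrder M] [StarOrderedRing M]

private noncomputable def rq (η t : ℝ) : ℝ := max (t - 2 * η) 0 / max (t - η) η

private lemma rq_cont {η : ℝ} (hη : 0 < η) : Continuous (rq η) := by
  unfold rq
  refine Continuous.div (by fun_prop) (by fun_prop) fun t => ?_
  exact (lt_of_lt_of_le hη (le_max_right _ _)).ne'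

private lemma rq_nonneg {η : ℝ} (hη : 0 < η) (t : ℝ) : 0 ≤ rq η t := by
  unfold rq
  exact div_nonneg (le_max_right _ _) (hη.le.trans (le_max_right _ _))

private lemma rq_le_one {η : ℝ} (hη : 0 < η) (t : ℝ) : rq η t ≤ 1 := by
  unfold rq
  rw [div_le_one (lt_of_lt_of_le hη (le_max_right _ _))]
  exact max_le_max (by linarith) hη.le

private lemma rq_mul {η : ℝ} (hη : 0 < η) (t : ℝ) : rq η t * (t - η) = max (t - 2 * η) 0 := by
  unfold rq
  rcases le_or_gt (2 * η) t with h | h
  · rw [max_eq_left (by linarith : (0 : ℝ) ≤ t - 2 * η), max_eq_left (by linarith : η ≤ t - η)]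
    exact div_mul_cancel₀ _ (by linarith : (0 : ℝ) < t - η).ne'
  · rw [max_eq_right (by linarith : t - 2 * η ≤ 0)]
    simp

private lemma rq_dist {η t : ℝ} (hη : 0 < η) (ht : 0 ≤ t) : √t * (1 - √(rq η t)) ≤ 2 * √η := by
  have hq0 := rq_nonneg hη t
  have hq1 := rq_le_one hη t
  have h1 : rq η t ≤ √(rq η t) := by
    have h2 := Real.mul_self_sqrt hq0
    have h3 : √(rq η t) ≤ 1 := Real.sqrt_le_one.2 hq1
    nlinarith [Real.sqrt_nonneg (rq η t)]
  have h0 := Real.sqrt_nonneg t
  have e1 := Real.mul_self_sqrt ht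
  have e2 := Real.mul_self_sqrt hη.le
  have e3 := Real.sqrt_pos.2 hη
  rcases le_or_gt t (2 * η) with h | h
  · have h2 : √t ≤ 2 * √η := by
      rw [Real.sqrt_le_iff]
      exact ⟨by positivity, by nlinarith⟩
    have h3 : 1 - √(rq η t) ≤ 1 := by linarith [Real.sqrt_nonneg (rq η t)]
    nlinarith
  · have h2 : 1 - √(rq η t) ≤ 1 - rq η t := by linarith
    have h3 : 1 - rq η t = η / (t - η) := by
      unfold rq
      rw [max_eq_left (by linarith : (0 : ℝ) ≤ t - 2 * η), max_eq_left (by linarith : η ≤ t - η)]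
      have : (t - η) ≠ 0 := by linarith
      field_simp
      ring
    have h4 : √t * (1 - √(rq η t)) ≤ √t * (η / (t - η)) := by
      rw [← h3]
      exact mul_le_mul_of_nonneg_left h2 h0
    refine h4.trans ?_
    rw [mul_div_assoc', div_le_iff₀ (by linarith)]
    have h5 : √η ≤ √t := Real.sqrt_le_sqrt (by linarith)
    nlinarith [mul_le_mul_of_nonneg_left h5 e3.le, mul_nonneg e3.le h0]

omit [PartialOrder M] [StarOrderedRing M] in
private lemma rc_alg (r : ℝ) : algebraMap ℝ M r = (r : ℂ) • (1 : M) := by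
  rw [Algebra.algebraMap_eq_smul_one]
  exact (Complex.coe_smul r (1 : M)).symm

omit [PartialOrder M] [StarOrderedRing M] in
private lemma rc_norm_one : ‖(1 : M)‖ ≤ 1 := by
  rcases subsingleton_or_nontrivial M with h | h
  · rw [Subsingleton.elim (1 : M) 0, norm_zero]
    exact zero_le_one
  · exact CStarRing.norm_one.le

/-- PIECE ROOT2. Let `0 ≤ h ≤ 1`, `P` a projection with `(1 - P) h (1 - P) ≤ η`, `0 < η ≤ 1`.
There is `u` with `u* u = f(h)`, `f(t) = max (t - 2η) 0`, `P u = u` and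
`‖u - √h‖ ≤ 4 √η`.
Proof. `q(t) = max (t - 2η) 0 / max (t - η) η` (continuous, `0 ≤ q ≤ 1` on `[0, 1]`,
`q(t) (t - η) = f(t)`), `e = √q`, `y = P √h e(h)`, `c = f(h) = e(h) (h - η) e(h)`.
`√h (1 - P) √h ≤ η` since its norm is `‖(1 - P) √h‖² = ‖(1 - P) h (1 - P)‖ ≤ η`.
So `y* y - c = e(h) (η - √h (1 - P) √h) e(h) ∈ [0, η]`. Apply `rordam` with `δ = η`:
`‖u - y‖ ≤ √η`. Next `‖y - √h e(h)‖ ≤ ‖(1 - P) √h‖ ≤ √η` and
`‖√h e(h) - √h‖ = sup √t (1 - e(t)) ≤ sup √t (1 - q(t)) ≤ √(2η)`
(for `t ≤ 2η` trivial; for `t ≥ 2η`, `1 - q(t) = η/(t - η) ≤ 2η/t`). -/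
theorem root_cut (h P : M) (h0 : 0 ≤ h) (h1 : h ≤ 1) (hP : P * P = P) (hPs : star P = P)
    (η : ℝ) (hη : 0 < η) (hη1 : η ≤ 1)
    (hc : (1 - P) * h * (1 - P) ≤ (η : ℂ) • (1 : M)) :
    ∃ u : M, star u * u = cfc (fun t : ℝ => max (t - 2 * η) 0) h ∧ P * u = u ∧
      ‖u - cfc (fun t : ℝ => √t) h‖ ≤ 4 * √η := by
  have hqc := rq_cont hη
  have hspec : ∀ t ∈ spectrum ℝ h, 0 ≤ t := fun t ht => spectrum_nonneg_of_nonneg h0 ht
  set S : M := cfc (fun t : ℝ => √t) h with hS
  set E : M := cfc (fun t : ℝ => √(rq η t)) h with hE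
  have hSs : star S = S := (cfc_predicate (fun t : ℝ => √t) h : IsSelfAdjoint _).star_eq
  have hEs : star E = E := (cfc_predicate (fun t : ℝ => √(rq η t)) h : IsSelfAdjoint _).star_eq
  have hSS : S * S = h := by
    rw [hS, ← cfc_mul (fun t : ℝ => √t) (fun t : ℝ => √t) h (by fun_prop) (by fun_prop)]
    have h2 : cfc (fun t : ℝ => √t * √t) h = cfc (fun t : ℝ => t) h := by
      apply cfc_congr
      intro t ht
      exact Real.mul_self_sqrt (hspec t ht)
    rw [h2]
    exact cfc_id' ℝ h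
  have hQs : star (1 - P) = 1 - P := by rw [star_sub, star_one, hPs]
  have hQ : (1 - P) * (1 - P) = 1 - P := by
    rw [mul_sub, sub_mul, sub_mul, hP]
    simp
  have hηM : (0 : M) ≤ (η : ℂ) • (1 : M) := smul_nonneg (by exact_mod_cast hη.le) zero_le_one
  have hηn : ‖(η : ℂ) • (1 : M)‖ ≤ η := by
    rw [norm_smul, Complex.norm_real, Real.norm_eq_abs, abs_of_pos hη]
    have := rc_norm_one (M := M)
    nlinarith
  -- norm of (1 - P) S
  have hn1 : ‖(1 - P) * S‖ * ‖(1 - P) * S‖ ≤ η := by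
    rw [← CStarRing.norm_self_mul_star, star_mul, hSs, hQs]
    have e1 : (1 - P) * S * (S * (1 - P)) = (1 - P) * h * (1 - P) := by
      rw [← hSS]; simp only [mul_assoc]
    rw [e1]
    have e2 : 0 ≤ (1 - P) * h * (1 - P) := by
      have := star_left_conjugate_nonneg h0 (1 - P)
      rwa [hQs] at this
    exact (CStarAlgebra.norm_le_norm_of_nonneg_of_le e2 hc).trans hηn
  have hn2 : ‖(1 - P) * S‖ ≤ √η := by
    apply Real.le_sqrt_of_sq_le
    rw [sq]
    exact hn1
  have hB : S * (1 - P) * S ≤ (η : ℂ) • (1 : M) := by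
    have e0 : S * (1 - P) * S = star ((1 - P) * S) * ((1 - P) * S) := by
      rw [star_mul, hSs, hQs]
      calc S * (1 - P) * S = S * ((1 - P) * (1 - P)) * S := by rw [hQ]
        _ = S * (1 - P) * ((1 - P) * S) := by simp only [mul_assoc]
    rw [e0]
    have e1 : IsSelfAdjoint (star ((1 - P) * S) * ((1 - P) * S)) := IsSelfAdjoint.star_mul_self _
    refine (e1.le_algebraMap_norm_self).trans ?_
    rw [← rc_alg]
    refine algebraMap_mono M ?_
    rw [CStarRing.norm_star_mul_self]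
    exact hn1
  have hEE : E * E = cfc (fun t : ℝ => rq η t) h := by
    rw [hE, ← cfc_mul (fun t : ℝ => √(rq η t)) (fun t : ℝ => √(rq η t)) h (by fun_prop) (by fun_prop)]
    apply cfc_congr
    intro t _
    exact Real.mul_self_sqrt (rq_nonneg hη t)
  have hEE1 : E * E ≤ 1 := by
    rw [hEE]
    exact cfc_le_one _ _ fun t _ => rq_le_one hη t
  have hfc : cfc (fun t : ℝ => max (t - 2 * η) 0) h = E * (h - (η : ℂ) • (1 : M)) * E := by
    have e1 : h - (η : ℂ) • (1 : M) = cfc (fun t : ℝ => t - η) h := by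
      rw [cfc_sub (fun t : ℝ => t) (fun _ => η) h (by fun_prop) (by fun_prop), cfc_id' ℝ h,
        cfc_const η h, rc_alg]
    rw [e1, hE, ← cfc_mul (fun t : ℝ => √(rq η t)) (fun t : ℝ => t - η) h (by fun_prop) (by fun_prop),
      ← cfc_mul (fun t : ℝ => √(rq η t) * (t - η)) (fun t : ℝ => √(rq η t)) h (by fun_prop) (by fun_prop)]
    apply cfc_congr
    intro t _
    have e2 := Real.mul_self_sqrt (rq_nonneg hη t)
    have e3 := rq_mul hη t
    show max (t - 2 * η) 0 = √(rq η t) * (t - η) * √(rq η t)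
    rw [← e3]
    linear_combination (-(t - η)) * e2
  set y : M := P * (S * E) with hy
  have hyy : star y * y = E * (S * P * S) * E := by
    rw [hy, star_mul, star_mul, hPs, hSs, hEs]
    calc E * S * P * (P * (S * E)) = E * S * (P * P) * (S * E) := by simp only [mul_assoc]
      _ = E * (S * P * S) * E := by rw [hP]; simp only [mul_assoc]
  have hdiff : star y * y - cfc (fun t : ℝ => max (t - 2 * η) 0) h =
      star E * ((η : ℂ) • (1 : M) - S * (1 - P) * S) * E := by
    rw [hyy, hfc, hEs, ← sub_mul, ← mul_sub]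
    congr 2
    rw [← hSS]
    noncomm_ring
  have hpos : 0 ≤ star E * ((η : ℂ) • (1 : M) - S * (1 - P) * S) * E :=
    star_left_conjugate_nonneg (sub_nonneg.2 hB) E
  have hc0 : 0 ≤ cfc (fun t : ℝ => max (t - 2 * η) 0) h := cfc_nonneg fun t _ => le_max_right _ _
  have hle : cfc (fun t : ℝ => max (t - 2 * η) 0) h ≤ star y * y := by
    rw [← sub_nonneg, hdiff]
    exact hpos
  have hB0 : 0 ≤ S * (1 - P) * S := by
    have e0 : S * (1 - P) * S = star ((1 - P) * S) * ((1 - P) * S) := by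
      rw [star_mul, hSs, hQs]
      calc S * (1 - P) * S = S * ((1 - P) * (1 - P)) * S := by rw [hQ]
        _ = S * (1 - P) * ((1 - P) * S) := by simp only [mul_assoc]
    rw [e0]
    exact star_mul_self_nonneg _
  have hle2 : star y * y ≤ cfc (fun t : ℝ => max (t - 2 * η) 0) h + (η : ℂ) • (1 : M) := by
    rw [← sub_le_iff_le_add', hdiff]
    have e1 : star E * ((η : ℂ) • (1 : M) - S * (1 - P) * S) * E ≤
        star E * ((η : ℂ) • (1 : M)) * E :=
      star_left_conjugate_le_conjugate (sub_le_self _ hB0) E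
    refine e1.trans ?_
    rw [hEs, mul_smul_comm, mul_one, smul_mul_assoc]
    exact smul_le_smul_of_nonneg_left hEE1 (by exact_mod_cast hη.le)
  obtain ⟨u, hu1, hu2, hu3⟩ := rordam y _ hc0 hle η hη.le hle2
  refine ⟨u, hu1, hu2 P ?_, ?_⟩
  · rw [hy, ← mul_assoc, hP]
  · have n1 : ‖E‖ ≤ 1 := by
      refine norm_cfc_le zero_le_one fun t _ => ?_
      rw [Real.norm_eq_abs, abs_of_nonneg (Real.sqrt_nonneg _)]
      exact Real.sqrt_le_one.2 (rq_le_one hη t)
    have n2 : ‖y - S * E‖ ≤ √η := by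
      have e1 : y - S * E = -(((1 - P) * S) * E) := by
        rw [hy]
        noncomm_ring
      rw [e1, norm_neg]
      refine (norm_mul_le _ _).trans ?_
      have := norm_nonneg E
      have h5 := Real.sqrt_nonneg η
      nlinarith [norm_nonneg ((1 - P) * S)]
    have n3 : ‖S * E - S‖ ≤ 2 * √η := by
      have e1 : S * E - S = cfc (fun t : ℝ => √t * √(rq η t) - √t) h := by
        rw [hS, hE, cfc_sub (fun t : ℝ => √t * √(rq η t)) (fun t : ℝ => √t) h (by fun_prop)
          (by fun_prop), cfc_mul (fun t : ℝ => √t) (fun t : ℝ => √(rq η t)) h (by fun_prop)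
          (by fun_prop)]
      rw [e1]
      refine norm_cfc_le (by positivity) fun t ht => ?_
      have ht0 := hspec t ht
      have e2 := rq_dist hη ht0
      have e3 : √t * √(rq η t) - √t = -(√t * (1 - √(rq η t))) := by ring
      have e4 : √(rq η t) ≤ 1 := Real.sqrt_le_one.2 (rq_le_one hη t)
      rw [e3, norm_neg, Real.norm_eq_abs, abs_of_nonneg (mul_nonneg (Real.sqrt_nonneg _) (by linarith))]
      exact e2
    have e5 : u - S = (u - y) + (y - S * E) + (S * E - S) := by abel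
    rw [e5]
    refine (norm_add₃_le).trans ?_
    linarith

end Root

end CKE
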