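import Pool.Agent.Lib_MP_e09b77_an.Kit

/-!
# Spectral decompositions (piece SD)
-/

open scoped CStarAlgebra ComplexOrder

namespace CKE

/-- Every self-adjoint element is a real combination of pairwise orthogonal projections with
sum `1`. -/
def SpanProj (F : Type*) [CStarAlgebra F] [PartialOrder F] [StarOrderedRing F] : Prop :=
  ∀ x : F, IsSelfAdjoint x → ∃ (K : Type) (_ : Fintype K) (q : K → F) (c : K → ℝ),
    (∀ k, 0 ≤ q k) ∧ (∀ k, q k * q k = q k) ∧ (∀ k l, k ≠ l → q k * q l = 0) ∧
    ∑ k, q k = 1 ∧ x = ∑ k, (c k : ℂ) • q k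

private theorem sd_matrix {r : ℕ} (X : Matrix (Fin r) (Fin r) ℂ) (hX : X.IsHermitian) :
    ∃ (q : Fin r → Matrix (Fin r) (Fin r) ℂ) (c : Fin r → ℝ),
      (∀ a, star (q a) = q a) ∧ (∀ a, q a * q a = q a) ∧ (∀ a b, a ≠ b → q a * q b = 0) ∧
      ∑ a, q a = 1 ∧ X = ∑ a, (c a : ℂ) • q a := by
  set U : Matrix (Fin r) (Fin r) ℂ := (hX.eigenvectorUnitary : Matrix (Fin r) (Fin r) ℂ) with hU
  have hUU : star U * U = 1 := Unitary.coe_star_mul_self hX.eigenvectorUnitary
  have hUU' : U * star U = 1 := Unitary.coe_mul_star_self hX.eigenvectorUnitary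
  have hmul : ∀ a b, (U * Matrix.single a a 1 * star U) * (U * Matrix.single b b 1 * star U) =
      U * (Matrix.single a a 1 * Matrix.single b b 1) * star U := by
    intro a b
    calc (U * Matrix.single a a 1 * star U) * (U * Matrix.single b b 1 * star U)
        = U * Matrix.single a a 1 * (star U * U) * Matrix.single b b 1 * star U := by
          simp only [Matrix.mul_assoc]
      _ = _ := by rw [hUU]; simp only [Matrix.mul_assoc, Matrix.mul_one, Matrix.one_mul]
  refine ⟨fun a => U * Matrix.single a a 1 * star U, hX.eigenvalues, fun a => ?_, fun a => ?_,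
    fun a b hab => ?_, ?_, ?_⟩
  · rw [star_mul, star_mul, star_star, Matrix.star_eq_conjTranspose (Matrix.single a a (1 : ℂ)),
      Matrix.conjTranspose_single, star_one]
    exact (Matrix.mul_assoc _ _ _).symm
  · change (U * Matrix.single a a 1 * star U) * (U * Matrix.single a a 1 * star U) = _
    rw [hmul, Matrix.single_mul_single_same, one_mul]
  · change (U * Matrix.single a a 1 * star U) * (U * Matrix.single b b 1 * star U) = _
    rw [hmul, Matrix.single_mul_single_of_ne _ _ _ _ hab, Matrix.mul_zero, Matrix.zero_mul]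
  · rw [← Finset.sum_mul, ← Finset.mul_sum]
    have : ∑ a : Fin r, Matrix.single a a (1 : ℂ) = 1 := by
      ext i j
      rw [Matrix.sum_apply]
      simp [Matrix.single_apply, Matrix.one_apply, Finset.sum_ite_eq, ite_and]
    rw [this, Matrix.mul_one, hUU']
  · have h1 := hX.spectral_theorem
    rw [Unitary.conjStarAlgAut_apply] at h1
    have h2 : Matrix.diagonal ((RCLike.ofReal : ℝ → ℂ) ∘ hX.eigenvalues) =
        ∑ a, (hX.eigenvalues a : ℂ) • Matrix.single a a (1 : ℂ) := by
      ext i j
      rw [Matrix.sum_apply]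
      simp [Matrix.single_apply, Matrix.diagonal_apply, Finset.sum_ite_eq, ite_and]
    rw [h2] at h1
    conv_lhs => rw [h1]
    rw [Finset.mul_sum, Finset.sum_mul]
    refine Finset.sum_congr rfl fun a _ => ?_
    simp only [Matrix.mul_smul, Matrix.smul_mul]
    rfl

private theorem sd_block {r : ℕ} (X : CStarMatrix (Fin r) (Fin r) ℂ) (hX : IsSelfAdjoint X) :
    ∃ (q : Fin r → CStarMatrix (Fin r) (Fin r) ℂ) (c : Fin r → ℝ),
      (∀ a, star (q a) = q a) ∧ (∀ a, q a * q a = q a) ∧ (∀ a b, a ≠ b → q a * q b = 0) ∧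
      ∑ a, q a = 1 ∧ X = ∑ a, (c a : ℂ) • q a :=
  sd_matrix X hX

/-- PIECE SD. The algebras `⨁ j, M_{n j}(ℂ)` have the property `SpanProj`.
Proof: take `K = Σ j, Fin (n j)`. For each `j` the block `x j` is a Hermitian matrix
(`Matrix.IsHermitian`), with eigenvalues `λ_{j,a}` and orthonormal eigenvectors `v_{j,a}`
(`Matrix.IsHermitian.spectral_theorem`, `eigenvectorUnitary`). Let
`q (j, a) = Pi.single j (v_{j,a} v_{j,a}ᴴ)`; e.g. `q (j,a) = Pi.single j (U * single a a 1 * star U)`
with `U` the eigenvector unitary. -/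
theorem spanProj_FD {m : ℕ} (n : Fin m → ℕ) : SpanProj (FD n) := by
  intro x hx
  have hxj : ∀ j, IsSelfAdjoint (x j) := fun j => congrFun hx j
  choose qq cc h1 h2 h3 h4 h5 using fun j => sd_block (x j) (hxj j)
  refine ⟨Σ j : Fin m, Fin (n j), inferInstance, fun k => Pi.single k.1 (qq k.1 k.2),
    fun k => cc k.1 k.2, fun k => ?_, fun k => ?_, fun k l hkl => ?_, ?_, ?_⟩
  · rw [Pi.single_nonneg]
    have : qq k.1 k.2 = star (qq k.1 k.2) * qq k.1 k.2 := by rw [h1, h2]
    rw [this]
    exact star_mul_self_nonneg _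
  · rw [← Pi.single_mul, h2]
  · obtain ⟨j, a⟩ := k
    obtain ⟨j', b⟩ := l
    by_cases hj : j = j'
    · subst hj
      have hab : a ≠ b := fun h => hkl (by rw [h])
      simp only
      rw [← Pi.single_mul, h3 j a b hab, Pi.single_zero]
    · funext i
      simp only [Pi.mul_apply, Pi.zero_apply]
      by_cases hi : i = j
      · subst hi
        rw [Pi.single_eq_of_ne (M := fun j => CStarMatrix (Fin (n j)) (Fin (n j)) ℂ) hj, mul_zero]
      · rw [Pi.single_eq_of_ne (M := fun j => CStarMatrix (Fin (n j)) (Fin (n j)) ℂ) hi, zero_mul]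
  · rw [Fintype.sum_sigma]
    funext i
    rw [Finset.sum_apply, Finset.sum_eq_single i]
    · simp only [Finset.sum_apply, Pi.single_eq_same]
      exact h4 i
    · intro j _ hj
      rw [Finset.sum_apply]
      refine Finset.sum_eq_zero fun a _ => ?_
      exact Pi.single_eq_of_ne (Ne.symm hj) _
    · intro hi
      exact absurd (Finset.mem_univ i) hi
  · rw [Fintype.sum_sigma]
    funext i
    rw [Finset.sum_apply, Finset.sum_eq_single i]
    · simp only [Finset.sum_apply, Pi.smul_apply, Pi.single_eq_same]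
      exact h5 i
    · intro j _ hj
      rw [Finset.sum_apply]
      refine Finset.sum_eq_zero fun a _ => ?_
      rw [Pi.smul_apply]
      have e := Pi.single_eq_of_ne (M := fun j => CStarMatrix (Fin (n j)) (Fin (n j)) ℂ)
        (Ne.symm hj) (qq j a)
      change (cc j a : ℂ) • (Pi.single j (qq j a) : FD n) i = 0
      rw [e, smul_zero]
    · intro hi
      exact absurd (Finset.mem_univ i) hi

end CKE
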