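import Pool.Agent.Lib_MP_e09b77_an.WordC

/-!
# The operators T_n (piece TTA)
-/

open scoped CStarAlgebra ComplexOrder

namespace CKE

universe u

variable {N : ℕ} {A : Matrix (Fin N) (Fin N) ℕ} {B : Type u} [CStarAlgebra B]
  [PartialOrder B] [StarOrderedRing B] {S : Fin N → B}

/-- `T_n(x) = ∑_{μ ν} S_μ T(S_μ* x S_ν) S_ν*`. -/
noncomputable def TT (S : Fin N → B) (n : ℕ) (T : B →ₗ[ℂ] B) (x : B) : B :=
  ∑ μ : Fin n → Fin N, ∑ ν : Fin n → Fin N,
    word S n μ * T (star (word S n μ) * x * word S n ν) * star (word S n ν)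

omit [PartialOrder B] [StarOrderedRing B] in
private theorem tta_sum (a b : ℕ) (f : (Fin (a + b) → Fin N) → B) :
    ∑ μ, f μ = ∑ κ : Fin a → Fin N, ∑ σ : Fin b → Fin N, f (Fin.append κ σ) := by
  rw [← Fintype.sum_prod_type']
  exact (Fintype.sum_equiv (Fin.appendEquiv a b) _ _ (fun _ => rfl)).symm

/-- PIECE TTA. Splitting: `T_{a+b}(x) = ∑_{κ κ'} S_κ T_b(S_κ* x S_κ') S_κ'*`, sums over words of
length `a`. Use `word_append` and `Fin.appendEquiv` (or `Fin.append` bijection). -/
theorem TT_add (S : Fin N → B) (a b : ℕ) (T : B →ₗ[ℂ] B) (x : B) :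
    TT S (a + b) T x = ∑ κ : Fin a → Fin N, ∑ κ' : Fin a → Fin N,
      word S a κ * TT S b T (star (word S a κ) * x * word S a κ') * star (word S a κ') := by
  unfold TT
  rw [tta_sum]
  refine Finset.sum_congr rfl fun κ _ => ?_
  have h1 : ∀ σ : Fin b → Fin N,
      (∑ ν : Fin (a + b) → Fin N,
        word S (a + b) (Fin.append κ σ) *
          T (star (word S (a + b) (Fin.append κ σ)) * x * word S (a + b) ν) *
          star (word S (a + b) ν))
      = ∑ κ' : Fin a → Fin N, ∑ σ' : Fin b → Fin N,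
        word S a κ * (word S b σ *
          T (star (word S b σ) * (star (word S a κ) * x * word S a κ') * word S b σ') *
          star (word S b σ')) * star (word S a κ') := by
    intro σ
    rw [tta_sum]
    refine Finset.sum_congr rfl fun κ' _ => Finset.sum_congr rfl fun σ' _ => ?_
    rw [word_append, word_append, star_mul, star_mul]
    simp only [mul_assoc]
  rw [Finset.sum_congr rfl fun σ _ => h1 σ, Finset.sum_comm]
  refine Finset.sum_congr rfl fun κ' _ => ?_
  rw [Finset.mul_sum, Finset.sum_mul]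
  refine Finset.sum_congr rfl fun σ _ => ?_
  rw [Finset.mul_sum, Finset.sum_mul]

/-- PIECE TTA. The sum over all words equals the sum over admissible words. -/
theorem TT_eq_adm (h : CKFamily A S) (hA : ∀ i j, A i j = 0 ∨ A i j = 1) (n : ℕ)
    (T : B →ₗ[ℂ] B) (x : B) :
    TT S n T x = ∑ μ : {μ : Fin n → Fin N // μ ∈ adm A n},
      ∑ ν : {μ : Fin n → Fin N // μ ∈ adm A n},
        word S n μ.1 * T (star (word S n μ.1) * x * word S n ν.1) * star (word S n ν.1) := by
  have key : ∀ f : (Fin n → Fin N) → B, (∀ μ, μ ∉ adm A n → f μ = 0) →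
      ∑ μ, f μ = ∑ μ : {μ : Fin n → Fin N // μ ∈ adm A n}, f μ.1 := by
    intro f hf
    rw [Finset.sum_coe_sort (adm A n) f]
    exact (Finset.sum_subset (Finset.subset_univ _) fun μ _ hμ => hf μ hμ).symm
  unfold TT
  rw [key]
  · refine Finset.sum_congr rfl fun μ _ => ?_
    rw [key]
    intro ν hν
    rw [word_eq_zero h hA n hν, star_zero, mul_zero]
  · intro μ hμ
    refine Finset.sum_eq_zero fun ν _ => ?_
    rw [word_eq_zero h hA n hμ, zero_mul, zero_mul]

end CKE
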