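import Pool.Agent.Lib_MP_e09b77_an.TTA
import Pool.Agent.Lib_MP_e09b77_an.Diag

/-!
# T_n on a word (piece TTB)
-/

open scoped CStarAlgebra ComplexOrder

namespace CKE

universe u

/-- A sum over words of length `p + q` splits. -/
private theorem ttb_sum_split {N : ℕ} {B : Type u} [CStarAlgebra B] (S : Fin N → B)
    {M : Type*} [AddCommMonoid M] (r p q : ℕ) (h : r = p + q) (f : B → M) :
    ∑ ν : Fin r → Fin N, f (word S r ν)
      = ∑ ν₁ : Fin p → Fin N, ∑ ν₂ : Fin q → Fin N, f (word S p ν₁ * word S q ν₂) := by
  subst h
  rw [← Fintype.sum_prod_type' (f := fun (ν₁ : Fin p → Fin N) (ν₂ : Fin q → Fin N) =>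
    f (word S p ν₁ * word S q ν₂))]
  refine (Fintype.sum_equiv (Fin.appendEquiv p q) _ _ ?_).symm
  intro x
  have : Fin.appendEquiv p q x = Fin.append x.1 x.2 := rfl
  rw [this, word_append]

private theorem ttb_append_right {N p q : ℕ} (α : Fin p → Fin N) {μ ν : Fin q → Fin N}
    (h : Fin.append α μ = Fin.append α ν) : μ = ν := by
  funext i
  have := congrFun h (Fin.natAdd p i)
  simpa using this

private theorem ttb_append_left {N p q : ℕ} (α : Fin q → Fin N) {μ ν : Fin p → Fin N}
    (h : Fin.append μ α = Fin.append ν α) : μ = ν := by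
  funext i
  have := congrFun h (Fin.castAdd q i)
  simpa using this

variable {N : ℕ} {A : Matrix (Fin N) (Fin N) ℕ} {B : Type u} [CStarAlgebra B]
  [PartialOrder B] [StarOrderedRing B] {S : Fin N → B}

omit [PartialOrder B] [StarOrderedRing B] in
private theorem ttb_absorb (h : CKFamily A S) (hA : ∀ i j, A i j = 0 ∨ A i j = 1)
    (n : ℕ) (hn : 1 ≤ n) (α : Fin n → Fin N) (m : ℕ) (μ : Fin (m + 1) → Fin N) :
    star (word S n α) * word S n α * word S (m + 1) μ = word S (m + 1) μ ∨
      word S n α * word S (m + 1) μ = 0 := by
  obtain ⟨n, rfl⟩ : ∃ k, n = k + 1 := ⟨n - 1, by omega⟩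
  by_cases hα : α ∈ adm A (n + 1)
  · have h1 := star_word_mul_word h n hα
    have h2 : star (word S (n + 1) α) * word S (n + 1) α * word S (m + 1) μ
        = A (α (Fin.last n)) (μ 0) • word S (m + 1) μ := by
      rw [h1, word_succ, ← mul_assoc, ck_mul h, smul_mul_assoc]
    rcases hA (α (Fin.last n)) (μ 0) with h3 | h3
    · right
      rw [h3, zero_smul] at h2
      rw [← CStarRing.star_mul_self_eq_zero_iff]
      rw [star_mul, mul_assoc, ← mul_assoc (star (word S (n + 1) α)), h2, mul_zero]
    · left
      rw [h2, h3, one_smul]
  · right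
    rw [word_eq_zero h hA _ hα, zero_mul]

omit [PartialOrder B] [StarOrderedRing B] in
private theorem ttb_term (h : CKFamily A S) (hA : ∀ i j, A i j = 0 ∨ A i j = 1)
    (T : B →ₗ[ℂ] B) (a b g s : ℕ) (ha : 1 ≤ a) (hb : 1 ≤ b)
    (α κ : Fin a → Fin N) (β κ' : Fin b → Fin N) (μ σ : Fin (s + 1) → Fin N)
    (γ : Fin g → Fin N) :
    word S a κ * word S (s + 1) μ
        * T (star (word S a κ * word S (s + 1) μ) * (word S a α * star (word S b β))
          * (word S b κ' * (word S (s + 1) σ * word S g γ)))
        * star (word S b κ' * (word S (s + 1) σ * word S g γ))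
      = if κ = α then (if κ' = β then (if σ = μ then
          word S a α * word S (s + 1) μ * T (star (word S (s + 1) μ) * word S (s + 1) μ
            * word S g γ) * star (word S b β * (word S (s + 1) μ * word S g γ))
          else 0) else 0) else 0 := by
  by_cases h1 : κ = α
  swap
  · rw [if_neg h1]
    have : star (word S a κ * word S (s + 1) μ) * (word S a α * star (word S b β)) = 0 := by
      rw [star_mul, mul_assoc, ← mul_assoc (star (word S a κ)), word_orth h a h1, zero_mul,
        mul_zero]
    rw [this, zero_mul, map_zero, mul_zero, zero_mul]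
  rw [if_pos h1]
  by_cases h2 : κ' = β
  swap
  · rw [if_neg h2]
    have : (word S a α * star (word S b β))
          * (word S b κ' * (word S (s + 1) σ * word S g γ)) = 0 := by
      rw [mul_assoc, ← mul_assoc (star (word S b β)), word_orth h b (Ne.symm h2), zero_mul,
        mul_zero]
    rw [mul_assoc (star (word S a κ * word S (s + 1) μ)), this, mul_zero, map_zero, mul_zero,
      zero_mul]
  rw [if_pos h2]
  subst h1 h2
  rcases ttb_absorb h hA a ha κ s μ with h3 | h3
  swap
  · rw [h3]
    simp
  rcases ttb_absorb h hA b hb κ' s σ with h4 | h4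
  swap
  · have h5 : word S b κ' * (word S (s + 1) σ * word S g γ) = 0 := by
      rw [← mul_assoc, h4, zero_mul]
    rw [h5]
    split_ifs with h6
    · subst h6
      rw [h5]
      simp
    · simp
  have h3' : star (word S (s + 1) μ) * (star (word S a κ) * word S a κ)
      = star (word S (s + 1) μ) := by
    have := congrArg star h3
    rw [star_mul, star_mul, star_star] at this
    exact this
  have h5 : star (word S a κ * word S (s + 1) μ) * (word S a κ * star (word S b κ'))
          * (word S b κ' * (word S (s + 1) σ * word S g γ))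
      = star (word S (s + 1) μ) * word S (s + 1) σ * word S g γ := by
    calc star (word S a κ * word S (s + 1) μ) * (word S a κ * star (word S b κ'))
          * (word S b κ' * (word S (s + 1) σ * word S g γ))
        = (star (word S (s + 1) μ) * (star (word S a κ) * word S a κ))
          * (star (word S b κ') * word S b κ' * word S (s + 1) σ) * word S g γ := by
          rw [star_mul]; simp only [mul_assoc]
      _ = _ := by rw [h3', h4]
  rw [h5]
  split_ifs with h6
  · subst h6
    rfl
  · rw [word_orth h _ (Ne.symm h6), zero_mul, map_zero, mul_zero, zero_mul]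

/-- PIECE TTB. Let `a = b + g`, `b ≥ 1`, `r ≥ a + 1`,
`x = S_α S_β*`, `|α| = a`, `|β| = b`. Then
`T_r(x) = ∑_{|γ| = g} ∑_{|μ'| = r - a} S_α S_μ' T(S_μ'* S_μ' S_γ) S_γ* S_μ'* S_β*`.
(`S_μ* S_α ≠ 0` only for `μ = α μ'`, and then it equals `S_μ'*` times a projection that is absorbed:
`S_μ* S_α = S_μ'* S_α* S_α = S_μ'*` if `α μ'` is admissible and both sides give zero contribution
otherwise, because `S_α S_μ' = 0`.)
Each inner sum has norm at most `max ‖T(S_μ'* S_μ' S_γ)‖ ≤ δ` by `orth_norm_le` applied to the words
`S_{α μ'}`, `S_{β μ' γ}` (the factor `S_γ*` on the right: the words `S_β S_μ' S_γ`, for fixed `γ`,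
have orthogonal ranges). `S_μ'* S_μ' = (S t)* S t` with `t` the last letter of `μ'`
(or `S_μ' = 0`). -/
theorem TT_word_le (h : CKFamily A S) (hA : ∀ i j, A i j = 0 ∨ A i j = 1)
    (T : B →ₗ[ℂ] B) (δ : ℝ) (hδ : 0 ≤ δ) (b g r : ℕ) (hb : 1 ≤ b) (hr : b + g < r)
    (α : Fin (b + g) → Fin N) (β : Fin b → Fin N)
    (hT : ∀ (t : Fin N) (γ : Fin g → Fin N), ‖T (star (S t) * S t * word S g γ)‖ ≤ δ) :
    ‖TT S r T (word S (b + g) α * star (word S b β))‖ ≤ (N : ℝ) ^ g * δ := by
  obtain ⟨s, rfl⟩ : ∃ s, r = (b + g) + (s + 1) := ⟨r - (b + g) - 1, by omega⟩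
  have key : TT S ((b + g) + (s + 1)) T (word S (b + g) α * star (word S b β))
      = ∑ γ : Fin g → Fin N, ∑ μ : Fin (s + 1) → Fin N,
        (word S (b + g) α * word S (s + 1) μ)
          * T (star (word S (s + 1) μ) * word S (s + 1) μ * word S g γ)
          * star (word S b β * (word S (s + 1) μ * word S g γ)) := by
    unfold TT
    rw [ttb_sum_split S ((b + g) + (s + 1)) (b + g) (s + 1) rfl (fun u =>
      ∑ ν : Fin ((b + g) + (s + 1)) → Fin N,
        u * T (star u * (word S (b + g) α * star (word S b β))
          * word S ((b + g) + (s + 1)) ν) * star (word S ((b + g) + (s + 1)) ν))]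
    have h1 : ∀ (κ : Fin (b + g) → Fin N) (μ : Fin (s + 1) → Fin N),
        (∑ ν : Fin ((b + g) + (s + 1)) → Fin N,
          (word S (b + g) κ * word S (s + 1) μ)
            * T (star (word S (b + g) κ * word S (s + 1) μ)
              * (word S (b + g) α * star (word S b β))
            * word S ((b + g) + (s + 1)) ν) * star (word S ((b + g) + (s + 1)) ν))
        = if κ = α then ∑ γ : Fin g → Fin N,
            (word S (b + g) α * word S (s + 1) μ)
            * T (star (word S (s + 1) μ) * word S (s + 1) μ * word S g γ)
            * star (word S b β * (word S (s + 1) μ * word S g γ)) else 0 := by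
      intro κ μ
      rw [ttb_sum_split S ((b + g) + (s + 1)) b ((s + 1) + g) (by omega) (fun v =>
        (word S (b + g) κ * word S (s + 1) μ)
            * T (star (word S (b + g) κ * word S (s + 1) μ)
              * (word S (b + g) α * star (word S b β)) * v) * star v)]
      have h2 : ∀ κ' : Fin b → Fin N, (∑ ν : Fin ((s + 1) + g) → Fin N,
          (word S (b + g) κ * word S (s + 1) μ)
            * T (star (word S (b + g) κ * word S (s + 1) μ)
              * (word S (b + g) α * star (word S b β)) * (word S b κ' * word S ((s + 1) + g) ν))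
            * star (word S b κ' * word S ((s + 1) + g) ν))
          = if κ' = β then (if κ = α then ∑ γ : Fin g → Fin N,
            (word S (b + g) α * word S (s + 1) μ)
            * T (star (word S (s + 1) μ) * word S (s + 1) μ * word S g γ)
            * star (word S b β * (word S (s + 1) μ * word S g γ)) else 0) else 0 := by
        intro κ'
        rw [ttb_sum_split S ((s + 1) + g) (s + 1) g rfl (fun v =>
          (word S (b + g) κ * word S (s + 1) μ)
            * T (star (word S (b + g) κ * word S (s + 1) μ)
              * (word S (b + g) α * star (word S b β)) * (word S b κ' * v))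
            * star (word S b κ' * v))]
        rw [Finset.sum_comm]
        simp only [ttb_term h hA T (b + g) b g s (by omega) hb]
        by_cases h3 : κ = α
        · by_cases h4 : κ' = β
          · simp only [h3, h4, if_true]
            refine Finset.sum_congr rfl fun γ _ => ?_
            rw [Finset.sum_ite_eq' Finset.univ μ, if_pos (Finset.mem_univ _)]
          · simp only [h4, if_false, ite_self, Finset.sum_const_zero]
        · simp only [h3, if_false, ite_self, Finset.sum_const_zero]
      simp only [h2]
      rw [Finset.sum_ite_eq' Finset.univ β, if_pos (Finset.mem_univ _)]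
    simp only [h1]
    rw [Finset.sum_comm]
    have h5 : ∀ μ : Fin (s + 1) → Fin N, (∑ κ : Fin (b + g) → Fin N,
        if κ = α then ∑ γ : Fin g → Fin N,
            (word S (b + g) α * word S (s + 1) μ)
            * T (star (word S (s + 1) μ) * word S (s + 1) μ * word S g γ)
            * star (word S b β * (word S (s + 1) μ * word S g γ)) else 0)
        = ∑ γ : Fin g → Fin N,
            (word S (b + g) α * word S (s + 1) μ)
            * T (star (word S (s + 1) μ) * word S (s + 1) μ * word S g γ)
            * star (word S b β * (word S (s + 1) μ * word S g γ)) := by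
      intro μ
      rw [Finset.sum_ite_eq' Finset.univ α, if_pos (Finset.mem_univ _)]
    simp only [h5]
    rw [Finset.sum_comm]
  rw [key]
  refine (norm_sum_le _ _).trans ?_
  have hγ : ∀ γ : Fin g → Fin N, ‖∑ μ : Fin (s + 1) → Fin N,
        (word S (b + g) α * word S (s + 1) μ)
          * T (star (word S (s + 1) μ) * word S (s + 1) μ * word S g γ)
          * star (word S b β * (word S (s + 1) μ * word S g γ))‖ ≤ δ := by
    intro γ
    refine orth_norm_le (fun μ : Fin (s + 1) → Fin N => word S (b + g) α * word S (s + 1) μ)
      (fun μ => word S b β * (word S (s + 1) μ * word S g γ))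
      (fun μ => T (star (word S (s + 1) μ) * word S (s + 1) μ * word S g γ)) δ hδ
      ?_ ?_ ?_ ?_ ?_
    · intro μ ν hμν
      rw [← word_append, ← word_append]
      exact word_orth h _ fun he => hμν (ttb_append_right α he)
    · intro μ
      rw [← word_append]
      exact word_norm_le h _ _
    · intro μ ν hμν
      rw [← word_append, ← word_append, ← word_append, ← word_append]
      exact word_orth h _ fun he => hμν (ttb_append_left γ (ttb_append_right β he))
    · intro μ
      rw [← word_append, ← word_append]
      exact word_norm_le h _ _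
    · intro μ
      by_cases hμ : μ ∈ adm A (s + 1)
      · rw [star_word_mul_word h s hμ]
        exact hT _ _
      · rw [word_eq_zero h hA _ hμ]
        simpa using hδ
  refine (Finset.sum_le_sum fun γ _ => hγ γ).trans ?_
  rw [Finset.sum_const, nsmul_eq_mul]
  simp

end CKE
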