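import Pool.Agent.Lib_MP_e09b77_an.TTB

/-!
# T_n on θ^j of a word (piece TTC)
-/

open scoped CStarAlgebra ComplexOrder

namespace CKE

universe u

variable {N : ℕ} {A : Matrix (Fin N) (Fin N) ℕ} {B : Type u} [CStarAlgebra B]
  [PartialOrder B] [StarOrderedRing B] {S : Fin N → B}

omit [PartialOrder B] [StarOrderedRing B] in
private theorem ttc_absorb (h : CKFamily A S) (hA : ∀ i j, A i j = 0 ∨ A i j = 1)
    (j : ℕ) (κ : Fin j → Fin N) (a : ℕ) (ha : 1 ≤ a) (α : Fin a → Fin N) :
    star (word S j κ) * word S j κ * word S a α = word S a α ∨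
      star (word S j κ) * word S j κ * word S a α = 0 := by
  rcases j with _ | n
  · left
    rw [word_zero, star_one, one_mul, one_mul]
  obtain ⟨m, rfl⟩ : ∃ k, a = k + 1 := ⟨a - 1, by omega⟩
  by_cases hκ : κ ∈ adm A (n + 1)
  · have h1 := star_word_mul_word h n hκ
    have h2 : star (word S (n + 1) κ) * word S (n + 1) κ * word S (m + 1) α
        = A (κ (Fin.last n)) (α 0) • word S (m + 1) α := by
      rw [h1, word_succ, ← mul_assoc, ck_mul h, smul_mul_assoc]
    rcases hA (κ (Fin.last n)) (α 0) with h3 | h3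
    · right
      rw [h2, h3, zero_smul]
    · left
      rw [h2, h3, one_smul]
  · right
    rw [word_eq_zero h hA _ hκ, mul_zero, zero_mul]

omit [PartialOrder B] [StarOrderedRing B] in
private theorem ttc_star (n : ℕ) (T : B →ₗ[ℂ] B) (hTs : ∀ x, T (star x) = star (T x)) (x : B) :
    TT S n T (star x) = star (TT S n T x) := by
  unfold TT
  rw [Finset.sum_comm, star_sum]
  refine Finset.sum_congr rfl fun μ _ => ?_
  rw [star_sum]
  refine Finset.sum_congr rfl fun ν _ => ?_
  rw [star_mul, star_mul, star_star, ← hTs, star_mul, star_mul, star_star]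
  simp only [mul_assoc]

omit [PartialOrder B] [StarOrderedRing B] in
private theorem ttc_zero (n : ℕ) (T : B →ₗ[ℂ] B) : TT S n T 0 = 0 := by
  unfold TT
  simp

private theorem ttc_base (h : CKFamily A S) (hA : ∀ i j, A i j = 0 ∨ A i j = 1)
    (T : B →ₗ[ℂ] B) (hTs : ∀ x, T (star x) = star (T x)) (δ : ℝ) (hδ : 0 ≤ δ)
    (a b : ℕ) (ha : 1 ≤ a) (hb : 1 ≤ b) (α : Fin a → Fin N) (β : Fin b → Fin N) (m : ℕ)
    (hm : max a b < m)
    (hT : ∀ (g : ℕ), g ≤ max a b → ∀ (t : Fin N) (γ : Fin g → Fin N),
      ‖T (star (S t) * S t * word S g γ)‖ ≤ δ) :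
    ‖TT S m T (word S a α * star (word S b β))‖ ≤ (N : ℝ) ^ (max a b) * δ := by
  have hN : (1 : ℝ) ≤ N := by
    have : 0 < N := (α ⟨0, by omega⟩).pos
    exact_mod_cast this
  have hpow : ∀ g, g ≤ max a b → (N : ℝ) ^ g * δ ≤ (N : ℝ) ^ (max a b) * δ := fun g hg =>
    mul_le_mul_of_nonneg_right (pow_le_pow_right₀ hN hg) hδ
  rcases le_total b a with hab | hab
  · obtain ⟨g, rfl⟩ : ∃ g, a = b + g := ⟨a - b, by omega⟩
    have hg : g ≤ max (b + g) b := by omega
    exact (TT_word_le h hA T δ hδ b g m hb (by omega) α β (hT g hg)).trans (hpow g hg)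
  · obtain ⟨g, rfl⟩ : ∃ g, b = a + g := ⟨b - a, by omega⟩
    have hg : g ≤ max a (a + g) := by omega
    have h1 : word S a α * star (word S (a + g) β)
        = star (word S (a + g) β * star (word S a α)) := by
      rw [star_mul, star_star]
    rw [h1, ttc_star m T hTs, norm_star]
    exact (TT_word_le h hA T δ hδ a g m ha (by omega) β α (hT g hg)).trans (hpow g hg)

omit [PartialOrder B] [StarOrderedRing B] in
private theorem ttc_compress (h : CKFamily A S) (j : ℕ) (x : B) (κ κ' : Fin j → Fin N) :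
    star (word S j κ) * ((theta S)^[j] x) * word S j κ'
      = if κ' = κ then star (word S j κ) * word S j κ * x * (star (word S j κ) * word S j κ)
        else 0 := by
  rw [theta_iterate, Finset.mul_sum, Finset.sum_mul, Finset.sum_eq_single κ]
  · split_ifs with hk
    · subst hk
      simp only [mul_assoc]
    · rw [← mul_assoc, ← mul_assoc, mul_assoc _ (star (word S j κ)) (word S j κ'),
        word_orth h j (Ne.symm hk), mul_zero]
  · intro μ _ hμ
    rw [← mul_assoc, ← mul_assoc, word_orth h j (Ne.symm hμ), zero_mul, zero_mul, zero_mul]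
  · intro hκ
    exact absurd (Finset.mem_univ _) hκ

/-- PIECE TTC. For `x = S_α S_β*` with `|α|, |β| ≥ 1` (any lengths) and `j + max |α| |β| < n`:
`T_n(θ^j(x)) = ∑_{|κ| = j} S_κ T_{n-j}(Q_κ x Q_κ) S_κ*`, `Q_κ = S_κ* S_κ`
(`TT_add`, `theta_iterate`, `word_orth`), and `Q_κ S_α S_β* Q_κ` is `x` or `0`
(`ck_mul`; for `j = 0`, `Q_κ = 1`). So the norm is at most `‖T_{n-j}(x)‖` (`orth_norm_le`), which is
bounded by `TT_word_le` if `|β| ≤ |α|`, and by `TT_word_le` applied to `x* = S_β S_α*` if
`|α| < |β|`, since `TT S n T (star x) = star (TT S n T x)` when `T` is `*`-preserving. -/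
theorem TT_theta_le (h : CKFamily A S) (hA : ∀ i j, A i j = 0 ∨ A i j = 1)
    (T : B →ₗ[ℂ] B) (hTs : ∀ x, T (star x) = star (T x)) (δ : ℝ) (hδ : 0 ≤ δ)
    (a b : ℕ) (ha : 1 ≤ a) (hb : 1 ≤ b) (α : Fin a → Fin N) (β : Fin b → Fin N) (j n : ℕ)
    (hn : j + max a b < n)
    (hT : ∀ (g : ℕ), g ≤ max a b → ∀ (t : Fin N) (γ : Fin g → Fin N),
      ‖T (star (S t) * S t * word S g γ)‖ ≤ δ) :
    ‖TT S n T ((theta S)^[j] (word S a α * star (word S b β)))‖
      ≤ (N : ℝ) ^ (max a b) * δ := by
  obtain ⟨m, rfl⟩ : ∃ m, n = j + m := ⟨n - j, by omega⟩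
  have hbase := ttc_base h hA T hTs δ hδ a b ha hb α β m (by omega) hT
  have hK : 0 ≤ (N : ℝ) ^ (max a b) * δ := (norm_nonneg _).trans hbase
  rw [TT_add]
  simp only [ttc_compress h]
  have key : (∑ κ : Fin j → Fin N, ∑ κ' : Fin j → Fin N,
      word S j κ * TT S m T (if κ' = κ then star (word S j κ) * word S j κ
        * (word S a α * star (word S b β)) * (star (word S j κ) * word S j κ) else 0)
        * star (word S j κ'))
      = ∑ κ : Fin j → Fin N, word S j κ * TT S m T (star (word S j κ) * word S j κ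
        * (word S a α * star (word S b β)) * (star (word S j κ) * word S j κ))
        * star (word S j κ) := by
    refine Finset.sum_congr rfl fun κ _ => ?_
    rw [Finset.sum_eq_single κ]
    · rw [if_pos rfl]
    · intro κ' _ hκ'
      rw [if_neg hκ', ttc_zero, mul_zero, zero_mul]
    · intro hκ
      exact absurd (Finset.mem_univ _) hκ
  rw [key]
  refine orth_norm_le (fun κ : Fin j → Fin N => word S j κ) (fun κ => word S j κ)
    (fun κ => TT S m T (star (word S j κ) * word S j κ
        * (word S a α * star (word S b β)) * (star (word S j κ) * word S j κ))) _ hK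
    (fun μ ν hμν => word_orth h j hμν) (fun μ => word_norm_le h j μ)
    (fun μ ν hμν => word_orth h j hμν) (fun μ => word_norm_le h j μ) ?_
  intro κ
  have h1 : star (word S j κ) * word S j κ
        * (word S a α * star (word S b β)) * (star (word S j κ) * word S j κ)
      = (star (word S j κ) * word S j κ * word S a α)
        * star (star (word S j κ) * word S j κ * word S b β) := by
    rw [star_mul, star_mul, star_star]
    simp only [mul_assoc]
  rw [h1]
  rcases ttc_absorb h hA j κ a ha α with h2 | h2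
  · rcases ttc_absorb h hA j κ b hb β with h3 | h3
    · rw [h2, h3]
      exact hbase
    · rw [h3, star_zero, mul_zero, ttc_zero, norm_zero]
      exact hK
  · rw [h2, zero_mul, ttc_zero, norm_zero]
    exact hK

end CKE
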