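import Pool.Agent.Lib_MP_e09b77_an.Corner
import Pool.Agent.Lib_MP_e09b77_an.TTC
import Pool.Agent.Lib_MP_e09b77_an.Dens

/-!
# The upper bound (piece UPPER)
-/

open scoped CStarAlgebra ComplexOrder

namespace CKE

universe u

variable {N : ℕ} {A : Matrix (Fin N) (Fin N) ℕ} {B : Type u} [CStarAlgebra B]
  [PartialOrder B] [StarOrderedRing B] {S : Fin N → B}

theorem TT_add_arg (n : ℕ) (T : B →ₗ[ℂ] B) (x y : B) :
    TT S n T (x + y) = TT S n T x + TT S n T y := by
  simp only [TT, mul_add, add_mul, map_add, Finset.sum_add_distrib]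

theorem TT_smul_arg (n : ℕ) (T : B →ₗ[ℂ] B) (c : ℂ) (x : B) :
    TT S n T (c • x) = c • TT S n T x := by
  simp only [TT, mul_smul_comm, smul_mul_assoc, map_smul, Finset.smul_sum]

theorem TT_sum_arg (n : ℕ) (T : B →ₗ[ℂ] B) {ι : Type*} (s : Finset ι) (x : ι → B) :
    TT S n T (∑ k ∈ s, x k) = ∑ k ∈ s, TT S n T (x k) := by
  classical
  induction s using Finset.induction_on with
  | empty => simp [TT]
  | insert a t ha ih => rw [Finset.sum_insert ha, Finset.sum_insert ha, TT_add_arg, ih]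

theorem theta_iterate_add (j : ℕ) (x y : B) :
    (theta S)^[j] (x + y) = (theta S)^[j] x + (theta S)^[j] y := by
  rw [theta_iterate, theta_iterate, theta_iterate]
  simp only [mul_add, add_mul, Finset.sum_add_distrib]

theorem theta_iterate_smul (j : ℕ) (c : ℂ) (x : B) :
    (theta S)^[j] (c • x) = c • (theta S)^[j] x := by
  rw [theta_iterate, theta_iterate]
  simp only [mul_smul_comm, smul_mul_assoc, Finset.smul_sum]

theorem theta_iterate_sum (j : ℕ) {ι : Type*} (s : Finset ι) (x : ι → B) :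
    (theta S)^[j] (∑ k ∈ s, x k) = ∑ k ∈ s, (theta S)^[j] (x k) := by
  rw [theta_iterate]
  simp only [theta_iterate]
  simp only [Finset.mul_sum, Finset.sum_mul]
  rw [Finset.sum_comm]

theorem upper (h : CKFamily A S) (hA : ∀ i j, A i j = 0 ∨ A i j = 1)
    (hgen : (StarAlgebra.adjoin ℂ (Set.range S)).topologicalClosure = ⊤)
    (d : ℕ) (hd : NucDimLE B d) (F : Finset B) (ε : ℝ) (hε : 0 < ε) :
    ∃ K L : ℕ, ∀ n : ℕ,
      rnuc d (⋃ j : Fin n, ((theta S)^[(j : ℕ)]) '' (F : Set B)) ε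
        ≤ ((K * (adm A (n + L)).card : ℕ) : ℕ∞) := by
  classical
  have hd2 : (0 : ℝ) < d + 2 := by positivity
  have hε8 : 0 < ε / (8 * (d + 2)) := by positivity
  choose KK c a b α β ha hb hdist using fun f => dense_words h hA hgen f _ hε8
  set m : ℕ := F.sup (fun f => Finset.univ.sup (fun k => max (a f k) (b f k))) with hm
  have hmle : ∀ f ∈ F, ∀ k, max (a f k) (b f k) ≤ m := by
    intro f hf k
    refine le_trans ?_ (Finset.le_sup (f := fun f => Finset.univ.sup
      (fun k => max (a f k) (b f k))) hf)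
    exact Finset.le_sup (f := fun k => max (a f k) (b f k)) (Finset.mem_univ k)
  set C : ℝ := ∑ f ∈ F, ∑ k, ‖c f k‖ with hC
  have hC0 : 0 ≤ C := Finset.sum_nonneg fun f _ => Finset.sum_nonneg fun k _ => norm_nonneg _
  have hCle : ∀ f ∈ F, ∑ k, ‖c f k‖ ≤ C := by
    intro f hf
    exact Finset.single_le_sum (f := fun f => ∑ k, ‖c f k‖)
      (fun f _ => Finset.sum_nonneg fun k _ => norm_nonneg _) hf
  set M0 : ℝ := ∑ f ∈ F, ‖f‖ + 1 with hM0
  have hM1 : 1 ≤ M0 := by
    have : 0 ≤ ∑ f ∈ F, ‖f‖ := Finset.sum_nonneg fun f _ => norm_nonneg _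
    linarith
  have hMle : ∀ f ∈ F, ‖f‖ ≤ M0 := by
    intro f hf
    have := Finset.single_le_sum (f := fun f : B => ‖f‖) (fun f _ => norm_nonneg _) hf
    linarith
  -- the parameters
  set x : ℝ := ε / (4 * (44 * (d + 1)) * M0) with hx
  have hx0 : 0 < x := by positivity
  set η : ℝ := min 1 (x ^ 4) with hη
  have hη0 : 0 < η := lt_min one_pos (by positivity)
  have hη1 : η ≤ 1 := min_le_left _ _
  have hsη : √(√η) ≤ x := by
    have h1 : √η ≤ x ^ 2 := by
      apply Real.sqrt_le_iff.mpr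
      refine ⟨by positivity, ?_⟩
      calc η ≤ x ^ 4 := min_le_right _ _
        _ = (x ^ 2) ^ 2 := by ring
    apply Real.sqrt_le_iff.mpr
    exact ⟨hx0.le, h1⟩
  set P : ℝ := C * ((N : ℝ) + 1) ^ m with hPdef
  have hP0 : 0 ≤ P := by positivity
  set δ : ℝ := min η (ε / (4 * (P + 1))) with hδ
  have hδ0 : 0 < δ := lt_min hη0 (by positivity)
  have hδη : δ ≤ η := min_le_left _ _
  have hPδ : P * δ ≤ ε / 4 := by
    calc P * δ ≤ P * (ε / (4 * (P + 1))) := by gcongr; exact min_le_right _ _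
      _ ≤ ε / 4 := by
          rw [mul_div_assoc', div_le_div_iff₀ (by positivity) (by positivity)]
          nlinarith
  -- the finite set
  let E : Finset B := (Finset.range (m + 1)).biUnion fun g =>
    Finset.image (fun p : Fin N × (Fin g → Fin N) =>
      star (S p.1) * S p.1 * word S g p.2) Finset.univ
  have hE : ∀ g, g ≤ m → ∀ (t : Fin N) (γ : Fin g → Fin N),
      star (S t) * S t * word S g γ ∈ E := by
    intro g hg t γ
    simp only [E, Finset.mem_biUnion, Finset.mem_range, Finset.mem_image, Finset.mem_univ,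
      true_and]
    exact ⟨g, by omega, (t, γ), rfl⟩
  obtain ⟨s, hs⟩ := hd E δ hδ0
  let T : B →ₗ[ℂ] B := (s.φ : FD s.n →ₗ[ℂ] B) ∘ₗ (s.ψ : B →ₗ[ℂ] FD s.n) - LinearMap.id
  have hT : ∀ y, T y = s.φ (s.ψ y) - y := fun y => rfl
  have hTs : ∀ y, T (star y) = star (T y) := by
    intro y
    rw [hT, hT, star_sub, cp_star, cp_star]
  have hTE : ∀ g, g ≤ m → ∀ (t : Fin N) (γ : Fin g → Fin N),
      ‖T (star (S t) * S t * word S g γ)‖ ≤ δ := by
    intro g hg t γ
    rw [hT]
    exact (hs _ (by exact_mod_cast hE g hg t γ)).le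
  refine ⟨s.rank, m + 1, ?_⟩
  intro n
  set ℓ : ℕ := n + (m + 1) with hℓ
  let w : {μ : Fin ℓ → Fin N // μ ∈ adm A ℓ} → B := fun μ => word S ℓ μ.1
  have hw : ∑ μ, w μ * star (w μ) = 1 := word_sum_adm h hA ℓ
  have hPn : ‖(ampl _ s.φ) ((ampl _ s.ψ) (Gam w hw 1)) - Gam w hw 1‖ ≤ η := by
    apply diag_norm_le _ _ hη0.le
    · intro μ ν hμν
      rw [CStarMatrix.sub_apply, ampl_apply, ampl_apply, Gam_apply, mul_one]
      have : star (w μ) * w ν = 0 := by
        apply word_orth h
        intro heq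
        exact hμν (Subtype.ext heq)
      rw [this, map_zero, map_zero, sub_zero]
    · intro μ
      rw [CStarMatrix.sub_apply, ampl_apply, ampl_apply, Gam_apply, mul_one]
      have h1 : star (w μ) * w μ = star (S (μ.1 (Fin.last (n + m)))) * S (μ.1 (Fin.last (n + m))) :=
        star_word_mul_word h (n + m) μ.2
      have h2 := hTE 0 (Nat.zero_le _) (μ.1 (Fin.last (n + m))) Fin.elim0
      rw [word_zero, mul_one, hT] at h2
      rw [h1]
      exact h2.trans hδη
  obtain ⟨t, htr, hterr⟩ := corner s w hw η hη0 hη1 hPn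
  have hcard : Fintype.card {μ : Fin ℓ → Fin N // μ ∈ adm A ℓ} = (adm A ℓ).card := by
    rw [Fintype.card_coe]
  rw [hcard] at htr
  have key : ∀ y : B, (∑ μ, ∑ ν, w μ * s.φ (s.ψ (star (w μ) * y * w ν)) * star (w ν)) - y
      = TT S ℓ T y := by
    intro y
    rw [TT_eq_adm h hA]
    have h1 : y = ∑ μ, ∑ ν, w μ * (star (w μ) * y * w ν) * star (w ν) := by
      have : ∑ μ, ∑ ν, w μ * (star (w μ) * y * w ν) * star (w ν)
          = (∑ μ, w μ * star (w μ)) * y * (∑ ν, w ν * star (w ν)) := by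
        rw [Finset.sum_mul, Finset.sum_mul]
        apply Finset.sum_congr rfl
        intro μ _
        rw [Finset.mul_sum]
        apply Finset.sum_congr rfl
        intro ν _
        simp only [mul_assoc]
      rw [this, hw, one_mul, mul_one]
    have h2 : (∑ μ, ∑ ν, w μ * s.φ (s.ψ (star (w μ) * y * w ν)) * star (w ν)) - y
        = (∑ μ, ∑ ν, w μ * s.φ (s.ψ (star (w μ) * y * w ν)) * star (w ν))
          - ∑ μ, ∑ ν, w μ * (star (w μ) * y * w ν) * star (w ν) := by
      rw [← h1]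
    rw [h2, ← Finset.sum_sub_distrib]
    apply Finset.sum_congr rfl
    intro μ _
    rw [← Finset.sum_sub_distrib]
    apply Finset.sum_congr rfl
    intro ν _
    rw [hT, mul_sub, sub_mul]
  have happ : t.Approx (⋃ j : Fin n, ((theta S)^[(j : ℕ)]) '' (F : Set B)) ε := by
    intro y hy
    simp only [Set.mem_iUnion, Set.mem_image, Finset.mem_coe] at hy
    obtain ⟨j, f, hf, rfl⟩ := hy
    set y := (theta S)^[(j : ℕ)] f with hydef
    have hyn : ‖y‖ ≤ M0 := (theta_iterate_norm_le h _ _).trans (hMle f hf)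
    set g : B := ∑ k, c f k • (word S (a f k) (α f k) * star (word S (b f k) (β f k))) with hg
    have hfg : ‖f - g‖ < ε / (8 * (d + 2)) := hdist f
    have e1 : ‖t.φ (t.ψ y) -
        ∑ μ, ∑ ν, w μ * s.φ (s.ψ (star (w μ) * y * w ν)) * star (w ν)‖ ≤ ε / 4 := by
      refine (hterr y).trans ?_
      calc 44 * ((d : ℝ) + 1) * √(√η) * ‖y‖ ≤ 44 * ((d : ℝ) + 1) * x * M0 := by gcongr
        _ = ε / 4 := by rw [hx]; field_simp
    have e2 : ‖TT S ℓ T ((theta S)^[(j : ℕ)] g)‖ ≤ ε / 4 := by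
      rw [hg, theta_iterate_sum, TT_sum_arg]
      calc _ ≤ ∑ k, ‖TT S ℓ T ((theta S)^[(j : ℕ)]
            (c f k • (word S (a f k) (α f k) * star (word S (b f k) (β f k)))))‖ :=
            norm_sum_le _ _
        _ ≤ ∑ k, ‖c f k‖ * (((N : ℝ) + 1) ^ m * δ) := by
            apply Finset.sum_le_sum
            intro k _
            rw [theta_iterate_smul, TT_smul_arg, norm_smul]
            gcongr
            have hj := j.2
            have hmk := hmle f hf k
            refine (TT_theta_le h hA T hTs δ hδ0.le (a f k) (b f k) (ha f k) (hb f k)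
              (α f k) (β f k) j ℓ (by omega) ?_).trans ?_
            · intro g' hg' t' γ'
              exact hTE g' (hg'.trans hmk) t' γ'
            · gcongr
              calc (N : ℝ) ^ (max (a f k) (b f k)) ≤ ((N : ℝ) + 1) ^ (max (a f k) (b f k)) := by
                    gcongr; linarith
                _ ≤ ((N : ℝ) + 1) ^ m := by
                    gcongr
                    have : (0 : ℝ) ≤ N := Nat.cast_nonneg N
                    linarith
        _ = (∑ k, ‖c f k‖) * (((N : ℝ) + 1) ^ m * δ) := by rw [Finset.sum_mul]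
        _ ≤ C * (((N : ℝ) + 1) ^ m * δ) := by
            gcongr
            exact hCle f hf
        _ = P * δ := by rw [hPdef]; ring
        _ ≤ ε / 4 := hPδ
    have e3 : ‖TT S ℓ T ((theta S)^[(j : ℕ)] (f - g))‖ ≤ ε / 8 := by
      set z := (theta S)^[(j : ℕ)] (f - g) with hz
      have hzn : ‖z‖ ≤ ‖f - g‖ := theta_iterate_norm_le h _ _
      rw [← key]
      calc _ ≤ ‖∑ μ, ∑ ν, w μ * s.φ (s.ψ (star (w μ) * z * w ν)) * star (w ν)‖ + ‖z‖ :=
            norm_sub_le _ _
        _ ≤ (d + 1) * ‖z‖ + ‖z‖ := by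
            gcongr
            exact corner_bound s w hw z
        _ = (d + 2) * ‖z‖ := by ring
        _ ≤ (d + 2) * (ε / (8 * (d + 2))) := by
            gcongr
            exact hzn.trans hfg.le
        _ = ε / 8 := by field_simp
    have e4 : ‖(∑ μ, ∑ ν, w μ * s.φ (s.ψ (star (w μ) * y * w ν)) * star (w ν)) - y‖
        ≤ ε / 4 + ε / 8 := by
      rw [key]
      have : y = (theta S)^[(j : ℕ)] g + (theta S)^[(j : ℕ)] (f - g) := by
        rw [← theta_iterate_add, add_sub_cancel]
      rw [this, TT_add_arg]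
      exact (norm_add_le _ _).trans (add_le_add e2 e3)
    calc ‖t.φ (t.ψ y) - y‖
        = ‖(t.φ (t.ψ y) - ∑ μ, ∑ ν, w μ * s.φ (s.ψ (star (w μ) * y * w ν)) * star (w ν))
          + ((∑ μ, ∑ ν, w μ * s.φ (s.ψ (star (w μ) * y * w ν)) * star (w ν)) - y)‖ := by
          rw [sub_add_sub_cancel]
      _ ≤ _ := norm_add_le _ _
      _ ≤ ε / 4 + (ε / 4 + ε / 8) := add_le_add e1 e4
      _ < ε := by linarith
  calc rnuc d (⋃ j : Fin n, ((theta S)^[(j : ℕ)]) '' (F : Set B)) ε
      ≤ (t.rank : ℕ∞) := iInf₂_le t happ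
    _ ≤ ((s.rank * (adm A ℓ).card : ℕ) : ℕ∞) := by
        rw [mul_comm] at htr
        exact_mod_cast htr

end CKE
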