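import Pool.Agent.Lib_MP_e09b77_an.Defs

/-!
# Cuntz–Krieger families (piece WORDA)
-/

open scoped CStarAlgebra ComplexOrder

namespace CKE

universe u

variable {N : ℕ} {A : Matrix (Fin N) (Fin N) ℕ} {B : Type u} [CStarAlgebra B]
  {S : Fin N → B}

/-- PIECE WORDA. The ranges of the `S i` are orthogonal: `S i (S i)*` are projections (partial
isometries) with sum `1`. (Standard: with `p i = S i (S i)*`, `p i = p i * 1 * p i
= p i + ∑_{j ≠ i} p i p j p i`, a sum of nonnegative elements `star (p j p i) * (p j p i)`, so
`p j p i = 0`.) -/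
theorem ck_orth (h : CKFamily A S) {i j : Fin N} (hij : i ≠ j) : star (S i) * S j = 0 := by
  letI : PartialOrder B := CStarAlgebra.spectralOrder B
  haveI : StarOrderedRing B := CStarAlgebra.spectralOrderedRing B
  set p : Fin N → B := fun k => S k * star (S k) with hp
  have hpp : ∀ k, p k * p k = p k := by
    intro k
    simp only [hp]
    rw [← mul_assoc, h.pisom k]
  have hps : ∀ k, star (p k) = p k := by
    intro k
    simp only [hp, star_mul, star_star]
  have hsum : ∑ k, p k = 1 := h.sum_one
  have h1 : ∑ k, p j * p k * p j = p j := by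
    rw [← Finset.sum_mul, ← Finset.mul_sum, hsum, mul_one, hpp]
  rw [← Finset.add_sum_erase Finset.univ _ (Finset.mem_univ j), hpp, hpp] at h1
  have h2 : ∑ k ∈ Finset.univ.erase j, p j * p k * p j = 0 := by
    have := congrArg (fun x => x - p j) h1
    simpa using this
  have h3 : ∀ k, p j * p k * p j = star (p k * p j) * (p k * p j) := by
    intro k
    rw [star_mul, hps, hps]
    calc p j * p k * p j = p j * (p k * p k) * p j := by rw [hpp]
      _ = p j * p k * (p k * p j) := by noncomm_ring
  have h4 := (Finset.sum_eq_zero_iff_of_nonneg (fun k _ => by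
    rw [h3 k]; exact star_mul_self_nonneg _)).mp h2 i
    (Finset.mem_erase.mpr ⟨hij, Finset.mem_univ _⟩)
  rw [h3, CStarRing.star_mul_self_eq_zero_iff] at h4
  have h5 : star (S i) * S j = star (S i) * (p i * p j) * S j := by
    have e1 : star (S i) = star (S i) * p i := by
      have := congrArg star (h.pisom i)
      rw [star_mul, star_mul, star_star] at this
      simp only [hp]
      exact this.symm
    have e2 : S j = p j * S j := (h.pisom j).symm
    calc star (S i) * S j = (star (S i) * p i) * (p j * S j) := by rw [← e1, ← e2]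
      _ = star (S i) * (p i * p j) * S j := by noncomm_ring
  rw [h5, h4, mul_zero, zero_mul]

theorem ck_norm_le (h : CKFamily A S) (i : Fin N) : ‖S i‖ ≤ 1 := by
  have h1 : (star (S i) * S i) * (star (S i) * S i) = star (S i) * S i := by
    calc (star (S i) * S i) * (star (S i) * S i) = star (S i) * (S i * star (S i) * S i) := by
          noncomm_ring
      _ = star (S i) * S i := by rw [h.pisom i]
  have h2 := CStarRing.norm_star_mul_self (x := star (S i) * S i)
  rw [star_mul, star_star, h1] at h2
  have h3 := CStarRing.norm_star_mul_self (x := S i)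
  rw [h3] at h2
  by_contra hc
  push Not at hc
  have h4 : 0 < ‖S i‖ * ‖S i‖ := by positivity
  have h5 : (1 : ℝ) = ‖S i‖ * ‖S i‖ := by
    have := mul_right_cancel₀ h4.ne' ((one_mul _).trans h2)
    exact this
  nlinarith

/-- PIECE WORDA. `(S i)* S i S j = A i j • S j`. -/
theorem ck_mul (h : CKFamily A S) (i j : Fin N) :
    star (S i) * S i * S j = A i j • S j := by
  rw [h.rel i, Finset.sum_mul, Finset.sum_eq_single j]
  · rw [smul_mul_assoc, h.pisom j]
  · intro k _ hk
    rw [smul_mul_assoc, mul_assoc, ck_orth h hk, mul_zero, smul_zero]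
  · intro hj
    exact absurd (Finset.mem_univ j) hj

/-- PIECE WORDA. `S i S j = A i j • S i S j`. -/
theorem ck_mul' (h : CKFamily A S) (i j : Fin N) : S i * S j = A i j • (S i * S j) := by
  calc S i * S j = S i * (star (S i) * S i * S j) := by
        rw [← mul_assoc, ← mul_assoc, h.pisom i]
    _ = A i j • (S i * S j) := by rw [ck_mul h, mul_smul_comm]

end CKE
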