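import Pool.Agent.Lib_MP_e09b77_an.WordA

/-!
# Words in a Cuntz–Krieger family (piece WORDB)
-/

open scoped CStarAlgebra ComplexOrder

namespace CKE

universe u

/-- `S_μ = S (μ 0) ⋯ S (μ (n-1))`. -/
noncomputable def word {N : ℕ} {B : Type u} [CStarAlgebra B] (S : Fin N → B) : (n : ℕ) → (Fin n → Fin N) → B
  | 0, _ => 1
  | n + 1, μ => S (μ 0) * word S n (fun k => μ k.succ)

open Classical in
/-- The admissible words of length `n`. -/
noncomputable def adm {N : ℕ} (A : Matrix (Fin N) (Fin N) ℕ) (n : ℕ) :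
    Finset (Fin n → Fin N) :=
  Finset.univ.filter fun μ => ∀ (k : ℕ) (h : k + 1 < n),
    A (μ ⟨k, Nat.lt_of_succ_lt h⟩) (μ ⟨k + 1, h⟩) = 1

theorem mem_adm {N : ℕ} {A : Matrix (Fin N) (Fin N) ℕ} {n : ℕ} {μ : Fin n → Fin N} :
    μ ∈ adm A n ↔ ∀ (k : ℕ) (h : k + 1 < n),
      A (μ ⟨k, Nat.lt_of_succ_lt h⟩) (μ ⟨k + 1, h⟩) = 1 := by
  simp [adm]

variable {N : ℕ} {A : Matrix (Fin N) (Fin N) ℕ} {B : Type u} [CStarAlgebra B]
  {S : Fin N → B}

theorem word_zero (μ : Fin 0 → Fin N) : word S 0 μ = 1 := rfl

theorem word_succ (n : ℕ) (μ : Fin (n + 1) → Fin N) :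
    word S (n + 1) μ = S (μ 0) * word S n (fun k => μ k.succ) := rfl

/-- PIECE WORDB. -/
theorem word_one (μ : Fin 1 → Fin N) : word S 1 μ = S (μ 0) := by
  rw [word_succ, word_zero, mul_one]

private theorem wordb_cast {n m : ℕ} (h : n = m) (μ : Fin n → Fin N) :
    word S n μ = word S m (μ ∘ Fin.cast h.symm) := by
  subst h
  rfl

/-- PIECE WORDB. -/
theorem word_append (a b : ℕ) (μ : Fin a → Fin N) (ν : Fin b → Fin N) :
    word S (a + b) (Fin.append μ ν) = word S a μ * word S b ν := by
  induction a with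
  | zero =>
    rw [wordb_cast (Nat.zero_add b) (Fin.append μ ν), word_zero, one_mul]
    congr 1
    funext k
    rw [Fin.append_left_nil μ ν rfl]
    rfl
  | succ a ih =>
    have hab : a + 1 + b = a + b + 1 := by omega
    rw [wordb_cast hab (Fin.append μ ν), word_succ, word_succ, mul_assoc,
      ← ih (fun k => μ k.succ)]
    have h0 : (Fin.append μ ν ∘ Fin.cast hab.symm) 0 = μ 0 := by
      have : (Fin.cast hab.symm (0 : Fin (a + b + 1))) = Fin.castAdd b (0 : Fin (a + 1)) := by
        ext; simp
      rw [Function.comp_apply, this, Fin.append_left]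
    have h1 : (fun k : Fin (a + b) => (Fin.append μ ν ∘ Fin.cast hab.symm) k.succ)
        = Fin.append (fun k => μ k.succ) ν := by
      funext k
      refine Fin.addCases (fun i => ?_) (fun i => ?_) k
      · have : (Fin.cast hab.symm (Fin.castAdd b i).succ) = Fin.castAdd b (i.succ) := by
          ext; simp
        rw [Function.comp_apply, this, Fin.append_left, Fin.append_left]
      · have : (Fin.cast hab.symm (Fin.natAdd a i).succ) = Fin.natAdd (a + 1) i := by
          ext; simp; omega
        rw [Function.comp_apply, this, Fin.append_right, Fin.append_right]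
    rw [h0, h1]

/-- PIECE WORDB. -/
theorem word_norm_le (h : CKFamily A S) (n : ℕ) (μ : Fin n → Fin N) : ‖word S n μ‖ ≤ 1 := by
  induction n with
  | zero =>
    rw [word_zero]
    rcases subsingleton_or_nontrivial B with hB | hB
    · rw [Subsingleton.elim (1 : B) 0, norm_zero]
      exact zero_le_one
    · exact le_of_eq CStarRing.norm_one
  | succ n ih =>
    rw [word_succ]
    calc ‖S (μ 0) * word S n (fun k => μ k.succ)‖
        ≤ ‖S (μ 0)‖ * ‖word S n (fun k => μ k.succ)‖ := norm_mul_le _ _
      _ ≤ 1 * 1 := mul_le_mul (ck_norm_le h _) (ih _) (norm_nonneg _) zero_le_one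
      _ = 1 := one_mul 1

private theorem wordb_absorb (h : CKFamily A S) (i : Fin N) (n : ℕ) (μ : Fin (n + 1) → Fin N) :
    star (S i) * S i * word S (n + 1) μ = A i (μ 0) • word S (n + 1) μ := by
  rw [word_succ, ← mul_assoc, ck_mul h, smul_mul_assoc]

private theorem wordb_gram (h : CKFamily A S) (n : ℕ) (μ ν : Fin (n + 2) → Fin N)
    (h0 : μ 0 = ν 0) :
    star (word S (n + 2) μ) * word S (n + 2) ν
      = A (ν 0) (ν 1) • (star (word S (n + 1) (fun k => μ k.succ)) *
        word S (n + 1) (fun k => ν k.succ)) := by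
  rw [word_succ (n + 1) μ, word_succ (n + 1) ν, star_mul, h0]
  have := wordb_absorb h (ν 0) n (fun k => ν k.succ)
  calc star (word S (n + 1) fun k => μ k.succ) * star (S (ν 0)) *
        (S (ν 0) * word S (n + 1) fun k => ν k.succ)
      = star (word S (n + 1) fun k => μ k.succ) *
        (star (S (ν 0)) * S (ν 0) * word S (n + 1) fun k => ν k.succ) := by
        simp only [mul_assoc]
    _ = _ := by
        rw [this, mul_smul_comm]
        rfl

/-- PIECE WORDB. Words of the same length have orthogonal ranges. -/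
theorem word_orth (h : CKFamily A S) (n : ℕ) {μ ν : Fin n → Fin N} (hμν : μ ≠ ν) :
    star (word S n μ) * word S n ν = 0 := by
  induction n with
  | zero => exact absurd (Subsingleton.elim μ ν) hμν
  | succ n ih =>
    by_cases h0 : μ 0 = ν 0
    · have htail : (fun k : Fin n => μ k.succ) ≠ fun k => ν k.succ := by
        intro hc
        apply hμν
        funext k
        refine Fin.cases h0 (fun i => ?_) k
        exact congrFun hc i
      cases n with
      | zero => exact absurd (Subsingleton.elim _ _) htail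
      | succ n =>
        rw [wordb_gram h n μ ν h0, ih htail, smul_zero]
    · rw [word_succ, word_succ, star_mul]
      calc star (word S n fun k => μ k.succ) * star (S (μ 0)) *
            (S (ν 0) * word S n fun k => ν k.succ)
          = star (word S n fun k => μ k.succ) * (star (S (μ 0)) * S (ν 0)) *
            word S n fun k => ν k.succ := by simp only [mul_assoc]
        _ = 0 := by rw [ck_orth h h0, mul_zero, zero_mul]

private theorem wordb_adm_succ {n : ℕ} {μ : Fin (n + 2) → Fin N} :
    μ ∈ adm A (n + 2) ↔ A (μ 0) (μ 1) = 1 ∧ (fun k : Fin (n + 1) => μ k.succ) ∈ adm A (n + 1) := by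
  rw [mem_adm, mem_adm]
  constructor
  · intro hμ
    refine ⟨hμ 0 (by omega), fun k hk => ?_⟩
    exact hμ (k + 1) (by omega)
  · rintro ⟨h0, h1⟩ k hk
    rcases k with _ | k
    · exact h0
    · exact h1 k (by omega)

/-- PIECE WORDB. Non-admissible words vanish. -/
theorem word_eq_zero (h : CKFamily A S) (hA : ∀ i j, A i j = 0 ∨ A i j = 1) (n : ℕ)
    {μ : Fin n → Fin N} (hμ : μ ∉ adm A n) : word S n μ = 0 := by
  induction n with
  | zero => exact absurd (mem_adm.2 (fun k hk => absurd hk (by omega))) hμ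
  | succ n ih =>
    rcases n with _ | n
    · exact absurd (mem_adm.2 (fun k hk => absurd hk (by omega))) hμ
    · rw [wordb_adm_succ, not_and_or] at hμ
      rcases hμ with hμ | hμ
      · have h0 : A (μ 0) (μ 1) = 0 := (hA _ _).resolve_right hμ
        rw [word_succ, word_succ, ← mul_assoc]
        have h1 : S (μ 0) * S (μ (0 : Fin (n + 1)).succ) = 0 := by
          rw [ck_mul' h]
          have : (0 : Fin (n + 1)).succ = (1 : Fin (n + 2)) := rfl
          rw [this, h0, zero_smul]
        rw [h1, zero_mul]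
      · rw [word_succ, ih hμ, mul_zero]

/-- PIECE WORDB. For admissible words of positive length `S_μ* S_μ = (S_last)* S_last`. -/
theorem star_word_mul_word (h : CKFamily A S) (n : ℕ) {μ : Fin (n + 1) → Fin N}
    (hμ : μ ∈ adm A (n + 1)) :
    star (word S (n + 1) μ) * word S (n + 1) μ
      = star (S (μ (Fin.last n))) * S (μ (Fin.last n)) := by
  induction n with
  | zero => rw [word_one]; rfl
  | succ n ih =>
    obtain ⟨h0, h1⟩ := wordb_adm_succ.1 hμ
    rw [wordb_gram h n μ μ rfl, h0, one_smul, ih h1]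
    rfl

/-- PIECE WORDB. Admissible words do not vanish. -/
theorem word_ne_zero (h : CKFamily A S) (hne : ∀ i, S i ≠ 0) (n : ℕ) {μ : Fin (n + 1) → Fin N}
    (hμ : μ ∈ adm A (n + 1)) : word S (n + 1) μ ≠ 0 := by
  intro hc
  have h1 := star_word_mul_word h n hμ
  rw [hc, mul_zero] at h1
  exact hne _ ((CStarRing.star_mul_self_eq_zero_iff _).1 h1.symm)

end CKE
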