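import Pool.Agent.Lib_MP_e09b77_an.WordB

/-!
# Iterates of the canonical map (piece WORDC)
-/

open scoped CStarAlgebra ComplexOrder

namespace CKE

universe u

variable {N : ℕ} {A : Matrix (Fin N) (Fin N) ℕ} {B : Type u} [CStarAlgebra B]
  {S : Fin N → B}

private theorem wordc_sum_succ {M : Type*} [AddCommMonoid M] (n : ℕ)
    (f : (Fin (n + 1) → Fin N) → M) :
    ∑ μ : Fin (n + 1) → Fin N, f μ
      = ∑ i : Fin N, ∑ ν : Fin n → Fin N, f (Fin.cons i ν) := by
  rw [← (Fin.consEquiv (fun _ => Fin N)).sum_comp, Fintype.sum_prod_type]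
  rfl

private theorem wordc_cons (S : Fin N → B) (n : ℕ) (i : Fin N) (ν : Fin n → Fin N) :
    word S (n + 1) (Fin.cons i ν) = S i * word S n ν := by
  rw [word_succ, Fin.cons_zero]
  simp only [Fin.cons_succ]

/-- PIECE WORDC. `θ^n(x) = ∑ S_μ x S_μ*` over all words of length `n`. -/
theorem theta_iterate (S : Fin N → B) (n : ℕ) (x : B) :
    (theta S)^[n] x = ∑ μ : Fin n → Fin N, word S n μ * x * star (word S n μ) := by
  induction n with
  | zero => simp [word_zero]
  | succ n ih =>
    rw [Function.iterate_succ_apply', ih, theta, wordc_sum_succ]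
    refine Finset.sum_congr rfl fun i _ => ?_
    rw [Finset.mul_sum, Finset.sum_mul]
    refine Finset.sum_congr rfl fun μ _ => ?_
    rw [wordc_cons, star_mul]
    simp only [mul_assoc]

private theorem wordc_theta_one (h : CKFamily A S) : theta S 1 = 1 := by
  rw [theta, ← h.sum_one]
  refine Finset.sum_congr rfl fun i _ => ?_
  rw [h.sum_one, mul_one]

/-- PIECE WORDC. `∑ S_μ S_μ* = 1` over all words, and over the admissible words. -/
theorem word_sum (h : CKFamily A S) (n : ℕ) :
    ∑ μ : Fin n → Fin N, word S n μ * star (word S n μ) = 1 := by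
  have h1 : (theta S)^[n] 1 = 1 := Function.iterate_fixed (wordc_theta_one h) n
  rw [theta_iterate] at h1
  simpa only [mul_one] using h1

theorem word_sum_adm (h : CKFamily A S) (hA : ∀ i j, A i j = 0 ∨ A i j = 1) (n : ℕ) :
    ∑ μ : {μ : Fin n → Fin N // μ ∈ adm A n},
      word S n μ.1 * star (word S n μ.1) = 1 := by
  rw [← word_sum h n]
  rw [Finset.sum_coe_sort (adm A n) (fun μ => word S n μ * star (word S n μ))]
  refine Finset.sum_subset (Finset.subset_univ _) fun μ _ hμ => ?_
  rw [word_eq_zero h hA n hμ, zero_mul]

private theorem wordc_star_theta (h : CKFamily A S) (x : B) :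
    star (theta S x) * theta S x
      = ∑ i, S i * star x * (star (S i) * S i) * star (S i * star x) := by
  rw [theta, star_sum, Finset.sum_mul]
  refine Finset.sum_congr rfl fun i _ => ?_
  rw [Finset.mul_sum, Finset.sum_eq_single i]
  · simp only [star_mul, star_star, mul_assoc]
  · intro j _ hji
    have h0 := ck_orth h (Ne.symm hji)
    calc star (S i * x * star (S i)) * (S j * x * star (S j))
        = S i * star x * (star (S i) * S j) * x * star (S j) := by
          simp only [star_mul, star_star, mul_assoc]
      _ = 0 := by rw [h0, mul_zero, zero_mul, zero_mul]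
  · intro hi
    exact absurd (Finset.mem_univ i) hi

/-- PIECE WORDC. `θ` is contractive. -/
theorem theta_norm_le (h : CKFamily A S) (x : B) : ‖theta S x‖ ≤ ‖x‖ := by
  letI : PartialOrder B := CStarAlgebra.spectralOrder B
  haveI : StarOrderedRing B := CStarAlgebra.spectralOrderedRing B
  have h1 : star (theta S x) * theta S x ≤ algebraMap ℝ B (‖x‖ ^ 2) := by
    rw [wordc_star_theta h]
    have hsum : algebraMap ℝ B (‖x‖ ^ 2)
        = ∑ i, S i * algebraMap ℝ B (‖x‖ ^ 2) * star (S i) := by
      conv_lhs => rw [← mul_one (algebraMap ℝ B (‖x‖ ^ 2)), ← h.sum_one, Finset.mul_sum]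
      refine Finset.sum_congr rfl fun i _ => ?_
      rw [← mul_assoc, Algebra.commutes]
    rw [hsum]
    refine Finset.sum_le_sum fun i _ => ?_
    have hS : star (S i) * S i ≤ 1 := by
      refine (CStarAlgebra.star_mul_le_algebraMap_norm_sq (a := S i)).trans ?_
      have : ‖S i‖ ^ 2 ≤ 1 := by
        have := ck_norm_le h i
        have h0 := norm_nonneg (S i)
        nlinarith
      calc algebraMap ℝ B (‖S i‖ ^ 2) ≤ algebraMap ℝ B 1 := algebraMap_mono B this
        _ = 1 := map_one _
    have hx : star x * x ≤ algebraMap ℝ B (‖x‖ ^ 2) :=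
      CStarAlgebra.star_mul_le_algebraMap_norm_sq
    calc S i * star x * (star (S i) * S i) * star (S i * star x)
        ≤ S i * star x * 1 * star (S i * star x) := star_right_conjugate_le_conjugate hS _
      _ = S i * (star x * x) * star (S i) := by
          simp only [star_mul, star_star, mul_assoc, mul_one]
      _ ≤ S i * algebraMap ℝ B (‖x‖ ^ 2) * star (S i) :=
          star_right_conjugate_le_conjugate hx _
  have h2 : ‖star (theta S x) * theta S x‖ ≤ ‖x‖ ^ 2 :=
    (CStarAlgebra.norm_le_iff_le_algebraMap _ (sq_nonneg _) (star_mul_self_nonneg _)).2 h1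
  rw [CStarRing.norm_star_mul_self] at h2
  have h3 : ‖theta S x‖ ^ 2 ≤ ‖x‖ ^ 2 := by rw [sq]; exact h2
  exact le_of_sq_le_sq h3 (norm_nonneg _)

theorem theta_iterate_norm_le (h : CKFamily A S) (n : ℕ) (x : B) :
    ‖(theta S)^[n] x‖ ≤ ‖x‖ := by
  induction n with
  | zero => simp
  | succ n ih =>
    rw [Function.iterate_succ_apply']
    exact (theta_norm_le h _).trans ih

/-- PIECE WORDC. For `j < n` the element `θ^j(S i (S i)*)` is the sum of the projections
`S_μ S_μ*` over the words `μ` of length `n` with `μ j = i`. -/
theorem theta_iterate_proj (h : CKFamily A S) (n : ℕ) (j : Fin n) (i : Fin N) :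
    (theta S)^[(j : ℕ)] (S i * star (S i))
      = ∑ μ : Fin n → Fin N, if μ j = i then word S n μ * star (word S n μ) else 0 := by
  induction n with
  | zero => exact j.elim0
  | succ n ih =>
    rw [wordc_sum_succ]
    refine Fin.cases ?_ (fun j => ?_) j
    · simp only [Fin.val_zero, Function.iterate_zero, id_eq, Fin.cons_zero]
      rw [Finset.sum_eq_single i]
      · simp only [if_true]
        calc S i * star (S i) = S i * 1 * star (S i) := by rw [mul_one]
          _ = _ := by
            rw [← word_sum h n, Finset.mul_sum, Finset.sum_mul]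
            refine Finset.sum_congr rfl fun ν _ => ?_
            rw [wordc_cons, star_mul]
            simp only [mul_assoc]
      · intro k _ hk
        simp only [hk, if_false, Finset.sum_const_zero]
      · intro hi
        exact absurd (Finset.mem_univ i) hi
    · rw [Fin.val_succ, Function.iterate_succ_apply', ih j, theta]
      refine Finset.sum_congr rfl fun k _ => ?_
      rw [Finset.mul_sum, Finset.sum_mul]
      refine Finset.sum_congr rfl fun ν _ => ?_
      simp only [Fin.cons_succ]
      split_ifs with hν
      · rw [wordc_cons, star_mul]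
        simp only [mul_assoc]
      · rw [mul_zero, zero_mul]

end CKE
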